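import Pool.Agent.MP_66cee2_co.X.DefsJ

/-
Exponential lower bound, first half of the measurable theorem: closure, Taylor expansions of
every order at almost every point, rational jets.
-/

namespace Pool.Agent.MP_66cee2_co.X

open MeasureTheory Set Filter Metric Topology
open scoped ENNReal RealInnerProductSpace

instance haarPair (d : ℕ) : (volume : Measure (E d × E d)).IsAddHaarMeasure :=
  inferInstanceAs ((volume : Measure (E d)).prod (volume : Measure (E d))).IsAddHaarMeasure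

instance finiteSig (d : ℕ) : IsFiniteMeasure (sig d) := by
  have : IsFiniteMeasure (volume.restrict (ball (0 : E d) 1)) :=
    isFiniteMeasure_restrict.2 measure_ball_lt_top.ne
  unfold sig
  infer_instance

/-- a family of sets of density `o(1)` in the ball of radius `c τ`. -/
def SmR {X : Type} [NormedAddCommGroup X] [MeasureSpace X] (c : ℝ) (S : ℝ → Set X) : Prop :=
  Tendsto (fun τ => volume (S τ ∩ ball 0 (c * τ)) / volume (ball (0 : X) τ)) (𝓝[>] 0) (𝓝 0)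

/-- `F τ = O (e τ)` off a set of density `o(1)` in a ball of radius `c τ`. -/
def Neg {X : Type} [NormedAddCommGroup X] [MeasureSpace X] (F : ℝ → X → ℝ) (e : ℝ → ℝ) : Prop :=
  ∃ C c : ℝ, 0 < c ∧ SmR c fun τ => {z | C * e τ < |F τ z|}

/-- polynomial functions of degree at most `D`. -/
def IsPoly {d : ℕ} (D : ℕ) (q : E d → ℝ) : Prop :=
  ∃ p : MvPolynomial (Fin d) ℝ, p.totalDegree ≤ D ∧ ∀ η, q η = ev p η

/-- approximate Taylor expansion of order `s` at the origin. -/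
def Tay {d : ℕ} (f : E d → ℝ) (T : MvPolynomial (Fin d) ℝ) (s : ℝ) : Prop :=
  ∃ C : ℝ, Small fun τ => {η | C * τ ^ s < |f η - ev T η|}

/-- existence of an approximate Taylor expansion. -/
def HasTay {d : ℕ} (f : E d → ℝ) (s : ℝ) : Prop := ∃ T, Tay f T s

/-- the formal power series of all approximate Taylor expansions. -/
def Jet {d : ℕ} (f : E d → ℝ) (φ : MvPowerSeries (Fin d) ℝ) : Prop :=
  ∀ k : ℕ, ∃ T : MvPolynomial (Fin d) ℝ,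
    (∀ m : Fin d →₀ ℕ, m.degree < k → T.coeff m = MvPowerSeries.coeff m φ) ∧ Tay f T k

/-- a vector field whose jet at the origin is rational. -/
def RatJet {d : ℕ} {ι : Type} (g : E d → ι → ℝ) : Prop :=
  ∃ (φ : ι → MvPowerSeries (Fin d) ℝ) (q : MvPolynomial (Fin d) ℝ)
    (p : ι → MvPolynomial (Fin d) ℝ), q ≠ 0 ∧ ∀ a, Jet (fun η => g η a) (φ a) ∧
      (q : MvPowerSeries (Fin d) ℝ) * φ a = (p a : MvPowerSeries (Fin d) ℝ)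

/-- approximate continuity at the origin with value `c`. -/
def ApC {d : ℕ} (f : E d → ℝ) (c : ℝ) : Prop :=
  ∀ ε : ℝ, 0 < ε → Small fun _ => {η | ε < |f η - c|}

/-- polynomial approximation at every scale with error `e`. -/
def Approx {d : ℕ} (f : E d → ℝ) (e : ℝ → ℝ) : Prop :=
  ∃ (D : ℕ) (p : ℝ → MvPolynomial (Fin d) ℝ), (∀ τ, (p τ).totalDegree ≤ D) ∧
    Neg (fun τ η => f η - ev (p τ) η) e

/-- differences in directions orthogonal to `n` are polynomial up to the error `e`. -/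
def Ridge {d : ℕ} (n : E d) (u : E d → ℝ) (D : ℕ) (e : ℝ → ℝ) : Prop :=
  ∀ H : E d →L[ℝ] E d, (∀ v, ⟪n, H v⟫ = 0) → ∃ q : ℝ → E d → E d → ℝ,
    (∀ τ v, IsPoly D (q τ v)) ∧
    Neg (fun τ (z : E d × E d) => u (z.1 + H z.2) - u z.1 - q τ z.2 z.1) e

/-- a relation holds for every unit vector and almost every base point. -/
def AllPair {d : ℕ} (p : E d → E d → Prop) : Prop :=
  ∀ w : E d, ‖w‖ = 1 → ∀ᵐ x, p x (x + w)

/-- `ξ` is determined by its values on `J` and by orthogonality to `b` on the unit sphere. -/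
structure Dual {d : ℕ} {ι β : Type} [Fintype ι] (b : E d → β → ι → ℝ) (J : E d → Finset ι)
    (ξ : E d → ι → ℝ) : Prop where
  mb : ∀ k a, Measurable fun x => b x k a
  mJ : ∀ S, MeasurableSet {y | J y = S}
  mξ : ∀ a, Measurable fun y => ξ y a
  nrm : ∀ y y', J y = J y' → ∀ a ∈ J y, ξ y a = ξ y' a
  orth : ∀ k, AllPair fun y x => ξ y ⬝ᵥ b x k = 0
  uniq : ∀ᵐ y, ∀ ζ : ι → ℝ, (∀ᵐ ω ∂sig d, ∀ k, ζ ⬝ᵥ b (y + ω) k = 0) → (∀ a ∈ J y, ζ a = 0) →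
    ζ = 0

/-- the closure of the field: two fields of subspaces, each the orthogonal of the other. -/
structure Gal {d n : ℕ} (P : E d → Matrix (Ix n) (Ix n) ℝ) (JA JB : E d → Finset (Ix n))
    (A B : E d → Ix n → Ix n → ℝ) : Prop where
  dA : ∀ j, Dual (fun x k => Jv (B x k)) JA fun y => A y j
  dB : ∀ j, Dual (fun x k => Jv (A x k)) JB fun y => B y j
  nrm : ∀ y j, ∀ a ∈ JA y, A y j a = if a = j then 1 else 0
  orth : AePair fun x y => ∀ j k, lz (A x j) (A y k) = 0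
  span : ∀ᵐ x, ∀ a, P x a = ∑ j ∈ JA x, P x a j • A x j

/-- facts about the measure on the sphere. -/
structure SSig : Prop where
  ne : ∀ d, 1 ≤ d → sig d ≠ 0
  unit : ∀ d, 1 ≤ d → ∀ᵐ ω ∂sig d, ‖ω‖ = 1
  point : ∀ d, 2 ≤ d → ∀ n : E d, sig d {n} = 0
  cap : ∀ (d : ℕ) (w : E d) (r : ℝ), ‖w‖ = 1 → 0 < r → sig d (ball w r) ≠ 0
  inv : ∀ (d : ℕ) (A : E d ≃ₗᵢ[ℝ] E d), (sig d).map A = sig d
  uniq : ∀ (d : ℕ) (μ ν : Measure (E d)) [IsFiniteMeasure μ] [IsFiniteMeasure ν],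
    (∀ᵐ ω ∂μ, ‖ω‖ = 1) → (∀ᵐ ω ∂ν, ‖ω‖ = 1) → (∀ A : E d ≃ₗᵢ[ℝ] E d, μ.map A = μ) →
    (∀ A : E d ≃ₗᵢ[ℝ] E d, ν.map A = ν) → μ univ = ν univ → μ = ν
  swap : ∀ (d : ℕ) (p : E d → E d → Prop), MeasurableSet {z : E d × E d | p z.1 z.2} →
    AePair p → AePair fun x y => p y x
  right : ∀ (d : ℕ) (q : E d → Prop), (∀ᵐ x, q x) → AePair fun _ y => q y

/-- from almost every unit vector to every unit vector. -/
def SUp : Prop :=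
  ∀ (d : ℕ) (ι : Type) [Fintype ι] (ξ b : E d → ι → ℝ), (∀ a, Measurable fun y => ξ y a) →
    (∀ a, Measurable fun x => b x a) → (AePair fun y x => ξ y ⬝ᵥ b x = 0) →
    AllPair fun y x => ξ y ⬝ᵥ b x = 0

/-- a coupling of a short vector `h` and a unit vector `ω` with `ω - h` a unit vector. -/
def SPair : Prop :=
  ∀ (d : ℕ) (τ : ℝ), 2 ≤ d → 0 < τ → τ ≤ 1 → ∃ μ : Measure (E d × E d), IsFiniteMeasure μ ∧
    μ.map Prod.snd = sig d ∧ (∀ᵐ z ∂μ, ‖z.1‖ < τ ∧ ‖z.2 - z.1‖ = 1) ∧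
    ∀ N : Set (E d), MeasurableSet N →
      μ (Prod.fst ⁻¹' N) * volume (ball (0 : E d) τ) ≤ sig d univ * volume N

/-- measurable normalised bases of the orthogonal of a family on the unit sphere. -/
def SRows : Prop :=
  ∀ (d : ℕ) (ι β : Type) [Fintype ι] [DecidableEq ι] [Fintype β] (c : E d → β → ι → ℝ),
    (∀ k a, Measurable fun x => c x k a) →
    ∃ (J : E d → Finset ι) (ξ : E d → ι → ι → ℝ), (∀ S, MeasurableSet {y | J y = S}) ∧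
      (∀ j a, Measurable fun y => ξ y j a) ∧
      (∀ y j, ∀ a ∈ J y, ξ y j a = if a = j then 1 else 0) ∧
      (∀ y j, ∀ᵐ ω ∂sig d, ∀ k, ξ y j ⬝ᵥ c (y + ω) k = 0) ∧
      ∀ (y : E d) (ζ : ι → ℝ), (∀ᵐ ω ∂sig d, ∀ k, ζ ⬝ᵥ c (y + ω) k = 0) →
        (∀ a ∈ J y, ζ a = 0) → ζ = 0

/-- the closure exists. -/
def SGal : Prop :=
  ∀ (d n : ℕ) (P : E d → Matrix (Ix n) (Ix n) ℝ), Field P → ∃ JA JB A B, Gal P JA JB A B

/-- a polynomial that is small on half of a ball has small coefficients. -/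
def SPoly : Prop :=
  ∀ d D : ℕ, ∃ C : ℝ, ∀ (p : MvPolynomial (Fin d) ℝ) (τ ε : ℝ), p.totalDegree ≤ D → 0 < τ →
    0 ≤ ε → 2 * volume ({η | ε < |ev p η|} ∩ ball 0 τ) ≤ volume (ball (0 : E d) τ) →
    ∀ m : Fin d →₀ ℕ, |p.coeff m| * τ ^ m.degree ≤ C * ε

/-- evaluation of a polynomial in two groups of variables. -/
noncomputable def ev2 {d : ℕ} (p : MvPolynomial (Fin d ⊕ Fin d) ℝ) (z : E d × E d) : ℝ :=
  MvPolynomial.eval (Sum.elim (fun i => z.1 i) fun i => z.2 i) p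

/-- the same on pairs. -/
def SPoly2 : Prop :=
  ∀ d D : ℕ, ∃ C : ℝ, ∀ (p : MvPolynomial (Fin d ⊕ Fin d) ℝ) (τ ε : ℝ), p.totalDegree ≤ D →
    0 < τ → 0 ≤ ε →
    2 * volume ({z | ε < |ev2 p z|} ∩ ball 0 τ) ≤ volume (ball (0 : E d × E d) τ) →
    ∀ m : Fin d ⊕ Fin d →₀ ℕ, |p.coeff m| * τ ^ m.degree ≤ C * ε

/-- approximate continuity, density points and a diagonal argument. -/
structure SApp : Prop where
  apc : ∀ (d : ℕ) (f : E d → ℝ), Measurable f → ∀ᵐ y, ApC (fun η => f (y + η)) (f y)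
  dens : ∀ (d : ℕ) (S : Set (E d)), MeasurableSet S →
    ∀ᵐ y, y ∈ S → Small fun _ => {η | y + η ∉ S}
  diag : ∀ (d : ℕ) (S : ℝ → ℝ → Set (E d)), (∀ ε, 0 < ε → Small (S ε)) →
    ∃ o : ℝ → ℝ, (∀ τ, 0 < o τ) ∧ Tendsto o (𝓝[>] 0) (𝓝 0) ∧ Small fun τ => S (o τ) τ

/-- calculus of Taylor expansions and jets. -/
structure SJet : Prop where
  mono : ∀ (d : ℕ) (f : E d → ℝ) (T : MvPolynomial (Fin d) ℝ) (s s' : ℝ), s' ≤ s → Tay f T s →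
    Tay f T s'
  val : ∀ (d : ℕ) (f : E d → ℝ) (T : MvPolynomial (Fin d) ℝ) (s c : ℝ), 0 < s → Tay f T s →
    ApC f c → ev T 0 = c
  low : ∀ (d : ℕ) (f : E d → ℝ) (T : MvPolynomial (Fin d) ℝ) (s : ℝ), s ≤ 1 → Tay f T s →
    Tay f (MvPolynomial.C (ev T 0)) s
  smul : ∀ (d : ℕ) (f : E d → ℝ) (s c : ℝ), HasTay f s → HasTay (fun η => c * f η) s
  ex : ∀ (d : ℕ) (f : E d → ℝ), (∀ k : ℕ, HasTay f k) → ∃ φ, Jet f φ
  uniq : ∀ (d : ℕ) (f : E d → ℝ) (φ ψ : MvPowerSeries (Fin d) ℝ), Jet f φ → Jet f ψ → φ = ψ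
  poly : ∀ (d : ℕ) (p : MvPolynomial (Fin d) ℝ), Jet (ev p) (p : MvPowerSeries (Fin d) ℝ)
  const : ∀ (d : ℕ) (c : ℝ), Jet (fun _ : E d => c) (MvPowerSeries.C c)
  sub : ∀ (d : ℕ) (f g : E d → ℝ) (φ ψ : MvPowerSeries (Fin d) ℝ), Jet f φ → Jet g ψ →
    Jet (fun η => f η - g η) (φ - ψ)
  mul : ∀ (d : ℕ) (f g : E d → ℝ) (φ ψ : MvPowerSeries (Fin d) ℝ), Jet f φ → Jet g ψ →
    Jet (fun η => f η * g η) (φ * ψ)
  congr : ∀ (d : ℕ) (f g : E d → ℝ) (φ : MvPowerSeries (Fin d) ℝ),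
    (Small fun _ => {η | f η ≠ g η}) → Jet f φ → Jet g φ
  zero : ∀ (d : ℕ) (f : E d → ℝ), Jet f 0 → ∀ K : ℕ, ∃ C : ℝ,
    Small fun τ => {η | C * τ ^ K < |f η|}
  jval : ∀ (d : ℕ) (f : E d → ℝ) (φ : MvPowerSeries (Fin d) ℝ) (c : ℝ), Jet f φ → ApC f c →
    MvPowerSeries.constantCoeff φ = c

/-- local self-correction after Rubinfeld and Sudan. -/
def SRS : Prop :=
  ∀ d M : ℕ, 0 < M → ∃ C c δ₀ : ℝ, 0 < c ∧ 0 < δ₀ ∧ ∀ (f : E d → ℝ) (τ ε δ : ℝ), Measurable f →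
    0 < τ → 0 ≤ ε → 0 ≤ δ → δ ≤ δ₀ →
    volume ({z : E d × E d | ε < |(fwdDiff z.2)^[M] f z.1|} ∩ ball 0 τ) ≤
      ENNReal.ofReal δ * volume (ball (0 : E d × E d) τ) →
    ∃ g : E d → ℝ, (∃ S, ∀ η ∈ ball (0 : E d) (c * τ), |g η| ≤ S) ∧
      (∀ η h : E d, (∀ k ≤ M, η + k • h ∈ ball (0 : E d) (c * τ)) →
        |(fwdDiff h)^[M] g η| ≤ C * ε) ∧
      volume ({η | C * ε < |f η - g η|} ∩ ball 0 (c * τ)) ≤
        ENNReal.ofReal (C * δ) * volume (ball (0 : E d) τ)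

/-- the theorem of Whitney for bounded functions on an interval. -/
def SWh1 : Prop :=
  ∀ M : ℕ, 0 < M → ∃ (C : ℝ) (a : Fin M → ℝ) (l : Fin M → Polynomial ℝ),
    (∀ j, a j ∈ Icc (0 : ℝ) 1) ∧ ∀ (g : ℝ → ℝ) (ε : ℝ), (∃ S, ∀ x ∈ Icc (0 : ℝ) 1, |g x| ≤ S) →
      (∀ x h : ℝ, x ∈ Icc (0 : ℝ) 1 → x + M * h ∈ Icc (0 : ℝ) 1 →
        |(fwdDiff h)^[M] g x| ≤ ε) →
      ∀ x ∈ Icc (0 : ℝ) 1, |g x - ∑ j, (l j).eval x * g (a j)| ≤ C * ε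

/-- the theorem of Whitney on a ball. -/
def SWh : Prop :=
  ∀ d M : ℕ, 0 < M → ∃ (C c : ℝ) (D : ℕ), 0 < c ∧ c ≤ 1 ∧ ∀ (g : E d → ℝ) (τ ε : ℝ), 0 < τ →
    (∃ S, ∀ η ∈ ball (0 : E d) τ, |g η| ≤ S) →
    (∀ η h : E d, (∀ k ≤ M, η + k • h ∈ ball (0 : E d) τ) → |(fwdDiff h)^[M] g η| ≤ ε) →
    ∃ p : MvPolynomial (Fin d) ℝ, p.totalDegree ≤ D ∧
      ∀ η ∈ ball (0 : E d) (c * τ), |g η - ev p η| ≤ C * ε

/-- small differences of high order give polynomial approximation. -/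
def SLow : Prop :=
  ∀ (d M : ℕ) (f : E d → ℝ) (e : ℝ → ℝ), 0 < M → Measurable f → (∀ τ, 0 ≤ e τ) →
    Neg (fun _ (z : E d × E d) => (fwdDiff z.2)^[M] f z.1) e → Approx f e

/-- a function that is a sum of ridge functions in two ways. -/
def SKey : Prop :=
  ∀ (d D : ℕ) (I I' : Type) [Fintype I] [Fintype I'] (n : I → E d) (n' : I' → E d)
    (f : E d → ℝ) (u : I → E d → ℝ) (u' : I' → E d → ℝ) (e : ℝ → ℝ),
    (∀ i, ‖n i‖ = 1) → (∀ l, ‖n' l‖ = 1) → (∀ i l, n i ≠ n' l ∧ n i ≠ -n' l) → (∀ τ, 0 ≤ e τ) →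
    (∀ η, f η = ∑ i, u i η) → (∀ η, f η = ∑ l, u' l η) →
    (∀ i, Ridge (n i) (u i) D e) → (∀ l, Ridge (n' l) (u' l) D e) →
    ∃ M, 0 < M ∧ Neg (fun _ (z : E d × E d) => (fwdDiff z.2)^[M] f z.1) e

/-- telescoping over the scales. -/
def STele : Prop :=
  ∀ (d : ℕ) (f : E d → ℝ) (s : ℝ), 0 < s → (∀ k : ℕ, s ≠ k) → Approx f (fun τ => |τ| ^ s) →
    HasTay f s

/-- two neighbours of a common point. -/
def SRidge : Prop :=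
  ∀ (d D : ℕ) (ι : Type) [Fintype ι] (ξ b : E d → ι → ℝ) (y n : E d)
    (T : ℝ → ι → MvPolynomial (Fin d) ℝ) (S : ι → MvPolynomial (Fin d) ℝ) (b₀ : ι → ℝ)
    (e₁ e₂ e₃ e₄ e : ℝ → ℝ) (u : E d → ℝ) (γ κ : ℝ),
    (∀ a, Measurable fun x => ξ x a) → (∀ a, Measurable fun x => b x a) →
    (AllPair fun y x => ξ y ⬝ᵥ b x = 0) → ‖n‖ = 1 →
    (∀ τ a, (T τ a).totalDegree ≤ D) → (∀ a, (S a).totalDegree ≤ D) →
    (Small fun τ => {η | ∃ a, e₁ τ < |ξ (y + η) a - ev (T τ a) η|}) →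
    (Small fun τ => {η | ∃ a, e₂ τ < |b (y + n + η) a - b₀ a|}) →
    (Small fun τ => {η | ∃ a, e₃ τ < |b (y + n + η) a - ev (S a) η|}) →
    (∀ᶠ τ in 𝓝[>] (0 : ℝ), ∀ a, ∀ η ∈ ball (0 : E d) τ, ∀ η' ∈ ball (0 : E d) τ,
      |ev (T τ a) η - ev (T τ a) η'| ≤ e₄ τ) →
    (∀ τ, 0 ≤ e τ) → (∃ C : ℝ, ∀ᶠ τ in 𝓝[>] (0 : ℝ), e₁ τ * e₂ τ + e₃ τ * e₄ τ ≤ C * e τ) →
    (Small fun _ => {η | u η ≠ γ * (ξ (y + η) ⬝ᵥ b₀) + κ}) → Ridge n u (2 * D) e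

/-- two finite frames on the sphere with different directions. -/
def SPick : Prop :=
  ∀ (d : ℕ) (ι β : Type) [Fintype ι] [Fintype β] (b : E d → β → ι → ℝ) (J : Finset ι)
    (Ω : E d → Prop), 2 ≤ d → (∀ᵐ ω ∂sig d, Ω ω) →
    (∀ ζ : ι → ℝ, (∀ᵐ ω ∂sig d, ∀ k, ζ ⬝ᵥ b ω k = 0) → (∀ a ∈ J, ζ a = 0) → ζ = 0) →
    ∃ (r r' : ℕ) (n : Fin r → E d) (n' : Fin r' → E d) (c : ι → Fin r × β → ℝ)
      (c' : ι → Fin r' × β → ℝ), (∀ i, ‖n i‖ = 1 ∧ Ω (n i)) ∧ (∀ l, ‖n' l‖ = 1 ∧ Ω (n' l)) ∧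
      (∀ i l, n i ≠ n' l ∧ n i ≠ -n' l) ∧ ∀ ζ : ι → ℝ, (∀ a ∈ J, ζ a = 0) → ∀ a,
        ζ a = ∑ i, c a i * (ζ ⬝ᵥ b (n i.1) i.2) ∧ ζ a = ∑ l, c' a l * (ζ ⬝ᵥ b (n' l.1) l.2)

/-- the common core of the base case and of the induction step. -/
def SCore : Prop :=
  ∀ (d : ℕ) (ι β : Type) [Fintype ι] [Fintype β] (b : E d → β → ι → ℝ) (J : E d → Finset ι)
    (ξ : E d → ι → ℝ) (Q : E d → Prop), 2 ≤ d → Dual b J ξ → (∀ᵐ x, Q x) →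
    ∀ᵐ y : E d, ∃ F : Finset (E d), (∀ x ∈ F, Q x) ∧
      ∀ (D : ℕ) (T : ℝ → ι → MvPolynomial (Fin d) ℝ) (S : E d → β → ι → MvPolynomial (Fin d) ℝ)
        (e₁ e₂ e₃ e₄ e : ℝ → ℝ), (∀ τ a, (T τ a).totalDegree ≤ D) →
        (∀ x ∈ F, ∀ k a, (S x k a).totalDegree ≤ D) →
        (Small fun τ => {η | ∃ a, e₁ τ < |ξ (y + η) a - ev (T τ a) η|}) →
        (∀ x ∈ F, ∀ k, Small fun τ => {η | ∃ a, e₂ τ < |b (x + η) k a - b x k a|}) →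
        (∀ x ∈ F, ∀ k, Small fun τ => {η | ∃ a, e₃ τ < |b (x + η) k a - ev (S x k a) η|}) →
        (∀ᶠ τ in 𝓝[>] (0 : ℝ), ∀ a, ∀ η ∈ ball (0 : E d) τ, ∀ η' ∈ ball (0 : E d) τ,
          |ev (T τ a) η - ev (T τ a) η'| ≤ e₄ τ) →
        (∀ τ, 0 ≤ e τ) →
        (∃ C : ℝ, ∀ᶠ τ in 𝓝[>] (0 : ℝ), e₁ τ * e₂ τ + e₃ τ * e₄ τ ≤ C * e τ) →
        ∀ a, Approx (fun η => ξ (y + η) a) e

/-- a fixed quantile of the oscillation controls the oscillation on a set of density one. -/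
def SBaseA : Prop :=
  ∀ (d : ℕ) (ι β : Type) [Fintype ι] [Fintype β] (b : E d → β → ι → ℝ) (J : E d → Finset ι)
    (ξ : E d → ι → ℝ), 2 ≤ d → Dual b J ξ →
    ∀ᵐ y : E d, ∃ κ C : ℝ, 0 < κ ∧ ∀ (c : ℝ → ι → ℝ) (F : ℝ → ℝ), (∀ τ, 0 ≤ F τ) →
      (∀ᶠ τ in 𝓝[>] (0 : ℝ), volume ({η | ∃ a, F τ < |ξ (y + η) a - c τ a|} ∩ ball 0 τ) ≤
        ENNReal.ofReal κ * volume (ball (0 : E d) τ)) →
      SmR (1 / 2) fun τ => {η | ∃ a, C * F τ < |ξ (y + η) a - c τ a|}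

/-- the base case. -/
def SBase : Prop :=
  ∀ (d : ℕ) (ι β : Type) [Fintype ι] [Fintype β] (b : E d → β → ι → ℝ) (J : E d → Finset ι)
    (ξ : E d → ι → ℝ), 2 ≤ d → Dual b J ξ →
    ∀ᵐ y : E d, ∀ a, HasTay (fun η : E d => ξ (y + η) a) (1 / 2)

/-- the induction step. -/
def SStep : Prop :=
  ∀ (d : ℕ) (ι β : Type) [Fintype ι] [Fintype β] (b : E d → β → ι → ℝ) (J : E d → Finset ι)
    (ξ : E d → ι → ℝ) (s : ℝ), 2 ≤ d → Dual b J ξ → 1 / 3 ≤ s → (∀ k : ℕ, s + 1 / 3 ≠ k) →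
    (∀ᵐ y : E d, ∀ a, HasTay (fun η : E d => ξ (y + η) a) s) →
    (∀ᵐ x : E d, ∀ k a, HasTay (fun η : E d => b (x + η) k a) s) →
    ∀ᵐ y : E d, ∀ a, HasTay (fun η : E d => ξ (y + η) a) (s + 1 / 3)

/-- the formal identity and the argument with isotropic lines. -/
def SRatLoc : Prop :=
  ∀ (d : ℕ) (ι I : Type) [Fintype ι] [Fintype I] (ξ : E d → ι → ℝ) (b : I → E d → ι → ℝ)
    (y : E d) (n : I → E d) (J : Finset ι) (φ : ι → MvPowerSeries (Fin d) ℝ)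
    (ψ : I → ι → MvPowerSeries (Fin d) ℝ), 3 ≤ d →
    (∀ a, Measurable fun x => ξ x a) → (∀ i a, Measurable fun x => b i x a) →
    (∀ i, AllPair fun y x => ξ y ⬝ᵥ b i x = 0) → (∀ i, ‖n i‖ = 1) →
    (∀ a, Jet (fun η => ξ (y + η) a) (φ a)) →
    (∀ i a, Jet (fun η => b i (y + n i + η) a) (ψ i a)) →
    (∀ a ∈ J, ∃ c, φ a = MvPowerSeries.C c) →
    (∀ ζ : ι → ℝ, (∀ a ∈ J, ζ a = 0) →
      (∀ i, ∑ a, ζ a * MvPowerSeries.constantCoeff (ψ i a) = 0) → ζ = 0) →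
    ∃ (q : MvPolynomial (Fin d) ℝ) (p : ι → MvPolynomial (Fin d) ℝ), q ≠ 0 ∧
      ∀ a, (q : MvPowerSeries (Fin d) ℝ) * φ a = (p a : MvPowerSeries (Fin d) ℝ)

/-- jets are rational almost everywhere. -/
def SRatA : Prop :=
  ∀ (d : ℕ) (ι β : Type) [Fintype ι] [Fintype β] (b : E d → β → ι → ℝ) (J : E d → Finset ι)
    (ξ : E d → ι → ℝ), 3 ≤ d → Dual b J ξ →
    (∀ᵐ y : E d, ∀ a, ∃ φ, Jet (fun η : E d => ξ (y + η) a) φ) →
    (∀ᵐ x : E d, ∀ k a, ∃ φ, Jet (fun η : E d => b (x + η) k a) φ) →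
    ∀ᵐ y : E d, RatJet fun η : E d => ξ (y + η)

/-- the choice of the line field. -/
def SU : Prop :=
  ∀ (d n : ℕ) (P : E d → Matrix (Ix n) (Ix n) ℝ) (JA JB : E d → Finset (Ix n))
    (A B : E d → Ix n → Ix n → ℝ), 1 ≤ d → Field P → Gal P JA JB A B →
    (∀ j, ∀ᵐ y : E d, RatJet fun η : E d => A (y + η) j) → ∃ u, JetField P u

end Pool.Agent.MP_66cee2_co.X
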