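import Pool.Agent.MP_66cee2_co.X.SpecJ

/-
Exponential lower bound: elementary facts about sets of density zero.
-/

namespace Pool.Agent.MP_66cee2_co.X

open MeasureTheory Set Filter Metric Topology
open scoped ENNReal

theorem small_iff {d : ℕ} {S : ℝ → Set (E d)} : Small S ↔ SmR 1 S := by
  simp only [Small, SmR, one_mul]

theorem ev_pos : ∀ᶠ τ in 𝓝[>] (0 : ℝ), 0 < τ := self_mem_nhdsWithin

theorem ev_lt {a : ℝ} (ha : 0 < a) : ∀ᶠ τ in 𝓝[>] (0 : ℝ), τ < a :=
  mem_nhdsWithin_of_mem_nhds (Iio_mem_nhds ha)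

theorem tendsto_scale {a : ℝ} (ha : 0 < a) : Tendsto (fun τ : ℝ => a * τ) (𝓝[>] 0) (𝓝[>] 0) := by
  refine tendsto_nhdsWithin_iff.2 ⟨?_, ev_pos.mono fun τ h => mul_pos ha h⟩
  have : Tendsto (fun τ : ℝ => a * τ) (𝓝 0) (𝓝 (a * 0)) := tendsto_id.const_mul a
  rw [mul_zero] at this
  exact this.mono_left nhdsWithin_le_nhds

section general

variable {X : Type} [NormedAddCommGroup X] [MeasureSpace X]

theorem SmR.mono {c : ℝ} {S S' : ℝ → Set X} (h : SmR c S')
    (hs : ∀ᶠ τ in 𝓝[>] (0 : ℝ), ∀ z ∈ ball (0 : X) (c * τ), z ∈ S τ → z ∈ S' τ) : SmR c S := by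
  refine tendsto_of_tendsto_of_tendsto_of_le_of_le' tendsto_const_nhds h
    (Eventually.of_forall fun _ => zero_le) (hs.mono fun τ hτ => ?_)
  have : S τ ∩ ball 0 (c * τ) ⊆ S' τ ∩ ball 0 (c * τ) := fun z hz => ⟨hτ z hz.2 hz.1, hz.2⟩
  exact ENNReal.div_le_div_right (measure_mono this) _

theorem SmR.mono' {c : ℝ} {S S' : ℝ → Set X} (h : SmR c S') (hs : ∀ τ, S τ ⊆ S' τ) : SmR c S :=
  h.mono (Eventually.of_forall fun τ _ _ hz => hs τ hz)

theorem SmR.mono_rad {c c' : ℝ} {S : ℝ → Set X} (h : SmR c S) (hc : c' ≤ c) : SmR c' S := by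
  refine tendsto_of_tendsto_of_tendsto_of_le_of_le' tendsto_const_nhds h
    (Eventually.of_forall fun _ => zero_le) (ev_pos.mono fun τ hτ => ?_)
  exact ENNReal.div_le_div_right (measure_mono (inter_subset_inter_right _
    (ball_subset_ball (mul_le_mul_of_nonneg_right hc hτ.le)))) _

theorem SmR.union {c : ℝ} {S S' : ℝ → Set X} (h : SmR c S) (h' : SmR c S') :
    SmR c fun τ => S τ ∪ S' τ := by
  have := Tendsto.add h h'
  rw [add_zero] at this
  refine tendsto_of_tendsto_of_tendsto_of_le_of_le tendsto_const_nhds this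
    (fun _ => zero_le) fun τ => ?_
  simp only
  rw [← ENNReal.add_div, union_inter_distrib_right]
  exact ENNReal.div_le_div_right (measure_union_le _ _) _

theorem smR_of_null {c : ℝ} {S : ℝ → Set X}
    (h : ∀ᶠ τ in 𝓝[>] (0 : ℝ), volume (S τ ∩ ball 0 (c * τ)) = 0) : SmR c S :=
  tendsto_const_nhds.congr' (h.mono fun τ hτ => by simp only [hτ, ENNReal.zero_div])

theorem smR_empty {c : ℝ} : SmR c fun _ => (∅ : Set X) :=
  smR_of_null (Eventually.of_forall fun _ => by simp)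

theorem smR_of_ae {c : ℝ} {p : X → Prop} (h : ∀ᵐ z, p z) : SmR c fun _ => {z | ¬ p z} :=
  smR_of_null (Eventually.of_forall fun _ => measure_mono_null inter_subset_left h)

theorem smR_biUnion {c : ℝ} {I : Type} (F : Finset I) {S : I → ℝ → Set X}
    (h : ∀ i ∈ F, SmR c (S i)) : SmR c fun τ => {z | ∃ i ∈ F, z ∈ S i τ} := by
  classical
  induction F using Finset.induction_on with
  | empty => exact smR_empty.mono' fun τ z hz => by simp at hz
  | insert a F _ ih =>
    refine ((h a (Finset.mem_insert_self _ _)).union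
      (ih fun i hi => h i (Finset.mem_insert_of_mem hi))).mono' fun τ z hz => ?_
    obtain ⟨i, hi, hz⟩ := hz
    rcases Finset.mem_insert.1 hi with rfl | hi
    · exact Or.inl hz
    · exact Or.inr ⟨i, hi, hz⟩

theorem smR_exists {c : ℝ} {I : Type} [Finite I] {S : I → ℝ → Set X} (h : ∀ i, SmR c (S i)) :
    SmR c fun τ => {z | ∃ i, z ∈ S i τ} := by
  have := Fintype.ofFinite I
  exact (smR_biUnion Finset.univ fun i _ => h i).mono' fun τ z ⟨i, hi⟩ =>
    ⟨i, Finset.mem_univ _, hi⟩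

theorem SmR.const_mul {c : ℝ} {S : ℝ → Set X} (h : SmR c S) {K : ℝ≥0∞} (hK : K ≠ ⊤) :
    Tendsto (fun τ => K * (volume (S τ ∩ ball 0 (c * τ)) / volume (ball (0 : X) τ))) (𝓝[>] 0)
      (𝓝 0) := by
  have := ENNReal.Tendsto.const_mul (a := K) h (Or.inr hK)
  rwa [mul_zero] at this

theorem Neg.mono_err {F : ℝ → X → ℝ} {e e' : ℝ → ℝ} (h : Neg F e) (he : ∀ τ, 0 ≤ e τ) {K : ℝ}
    (hK : ∀ᶠ τ in 𝓝[>] (0 : ℝ), e τ ≤ K * e' τ) : Neg F e' := by
  obtain ⟨C, c, hc, h⟩ := h
  refine ⟨|C| * K, c, hc, h.mono (hK.mono fun τ hτ z _ hz => ?_)⟩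
  have h1 : C * e τ ≤ |C| * e τ := mul_le_mul_of_nonneg_right (le_abs_self C) (he τ)
  have h2 : |C| * e τ ≤ |C| * (K * e' τ) := mul_le_mul_of_nonneg_left hτ (abs_nonneg C)
  simp only [mem_ofPred_eq] at hz ⊢
  rw [mul_assoc] at hz
  linarith

/-- the constant can be taken nonnegative and the radius at most one. -/
theorem Neg.exists_pos {F : ℝ → X → ℝ} {e : ℝ → ℝ} (h : Neg F e) (he : ∀ τ, 0 ≤ e τ) :
    ∃ C c : ℝ, 0 ≤ C ∧ 0 < c ∧ c ≤ 1 ∧ SmR c fun τ => {z | C * e τ < |F τ z|} := by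
  obtain ⟨C, c, hc, h⟩ := h
  refine ⟨|C|, min c 1, abs_nonneg C, lt_min hc one_pos, min_le_right _ _,
    (h.mono_rad (min_le_left _ _)).mono' fun τ z hz => ?_⟩
  exact lt_of_le_of_lt (mul_le_mul_of_nonneg_right (le_abs_self C) (he τ)) hz

theorem neg_zero' {e : ℝ → ℝ} : Neg (fun _ (_ : X) => 0) e :=
  ⟨0, 1, one_pos, smR_empty.mono' fun τ z hz => by simp at hz⟩

theorem Neg.congr {F G : ℝ → X → ℝ} {e : ℝ → ℝ} (h : Neg F e) {c' : ℝ} (hc' : 0 < c')
    (hG : SmR c' fun τ => {z | G τ z ≠ F τ z}) : Neg G e := by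
  obtain ⟨C, c, hc, h⟩ := h
  refine ⟨C, min c c', lt_min hc hc', ((h.mono_rad (min_le_left _ _)).union
    (hG.mono_rad (min_le_right _ _))).mono' fun τ z hz => ?_⟩
  by_cases hz' : G τ z = F τ z
  · left
    simp only [mem_ofPred_eq] at hz ⊢
    rwa [← hz']
  · exact Or.inr hz'

theorem Neg.add {F G : ℝ → X → ℝ} {e : ℝ → ℝ} (h : Neg F e) (h' : Neg G e) :
    Neg (fun τ z => F τ z + G τ z) e := by
  obtain ⟨C, c, hc, h⟩ := h
  obtain ⟨C', c', hc', h'⟩ := h'
  refine ⟨C + C', min c c', lt_min hc hc', ((h.mono_rad (min_le_left _ _)).union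
    (h'.mono_rad (min_le_right _ _))).mono' fun τ z hz => ?_⟩
  by_contra hn
  simp only [mem_union, mem_ofPred_eq, not_or, not_lt] at hn hz
  have := abs_add_le (F τ z) (G τ z)
  rw [add_mul] at hz
  linarith [hn.1, hn.2]

theorem Neg.const_mul {F : ℝ → X → ℝ} {e : ℝ → ℝ} (h : Neg F e) (a : ℝ) :
    Neg (fun τ z => a * F τ z) e := by
  obtain ⟨C, c, hc, h⟩ := h
  refine ⟨|a| * C, c, hc, h.mono' fun τ z hz => ?_⟩
  simp only [mem_ofPred_eq] at hz ⊢
  rw [abs_mul, mul_assoc] at hz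
  exact lt_of_mul_lt_mul_left hz (abs_nonneg a)

theorem neg_sum {I : Type} (s : Finset I) {F : I → ℝ → X → ℝ} {e : ℝ → ℝ}
    (h : ∀ i ∈ s, Neg (F i) e) : Neg (fun τ z => ∑ i ∈ s, F i τ z) e := by
  classical
  induction s using Finset.induction_on with
  | empty => simpa using neg_zero'
  | insert a s ha ih =>
    simp only [Finset.sum_insert ha]
    exact (h a (Finset.mem_insert_self _ _)).add
      (ih fun i hi => h i (Finset.mem_insert_of_mem hi))

variable [NormedSpace ℝ X] [BorelSpace X] [FiniteDimensional ℝ X]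
  [(volume : Measure X).IsAddHaarMeasure]

theorem vol_ball_mul {c τ : ℝ} (hc : 0 < c) :
    volume (ball (0 : X) (c * τ)) =
      ENNReal.ofReal (c ^ Module.finrank ℝ X) * volume (ball (0 : X) τ) :=
  Measure.addHaar_ball_mul_of_pos volume 0 hc τ

omit [BorelSpace X] [NormedSpace ℝ X] [FiniteDimensional ℝ X] in
theorem vol_ball_ne_zero {τ : ℝ} (hτ : 0 < τ) : volume (ball (0 : X) τ) ≠ 0 :=
  (measure_ball_pos volume 0 hτ).ne'

omit [BorelSpace X] in
theorem vol_ball_ne_top {τ : ℝ} : volume (ball (0 : X) τ) ≠ ⊤ :=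
  haveI := FiniteDimensional.proper_real X
  measure_ball_lt_top.ne

theorem SmR.scale {c a : ℝ} {S : ℝ → Set X} (h : SmR c S) (ha : 0 < a) :
    SmR (c * a) fun τ => S (a * τ) := by
  have h1 := (h.const_mul (K := ENNReal.ofReal (a ^ Module.finrank ℝ X))
    ENNReal.ofReal_ne_top).comp (tendsto_scale ha)
  refine h1.congr fun τ => ?_
  have h0 : ENNReal.ofReal (a ^ Module.finrank ℝ X) ≠ 0 := by
    simpa using pow_pos ha _
  simp only [Function.comp]
  rw [vol_ball_mul ha, mul_assoc c a τ, ← mul_div_assoc,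
    ENNReal.mul_div_mul_left _ _ h0 ENNReal.ofReal_ne_top]

theorem SmR.eventually_le {c c' κ : ℝ} {S : ℝ → Set X} (h : SmR c S) (hc' : 0 < c')
    (hκ : 0 < κ) : ∀ᶠ τ in 𝓝[>] (0 : ℝ),
      volume (S τ ∩ ball 0 (c * τ)) ≤ ENNReal.ofReal κ * volume (ball (0 : X) (c' * τ)) := by
  have hpos : (0 : ℝ≥0∞) < ENNReal.ofReal κ * ENNReal.ofReal (c' ^ Module.finrank ℝ X) :=
    ENNReal.mul_pos (by simpa using hκ) (by simpa using pow_pos hc' _)
  filter_upwards [h.eventually (Iic_mem_nhds hpos), ev_pos] with τ hτ h0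
  rw [vol_ball_mul hc', ← mul_assoc]
  exact (ENNReal.div_le_iff (vol_ball_ne_zero h0) vol_ball_ne_top).1 hτ

omit [BorelSpace X] in
theorem smR_of_eventually_le {c : ℝ} {S : ℝ → Set X}
    (h : ∀ κ : ℝ, 0 < κ → ∀ᶠ τ in 𝓝[>] (0 : ℝ),
      volume (S τ ∩ ball 0 (c * τ)) ≤ ENNReal.ofReal κ * volume (ball (0 : X) τ)) : SmR c S := by
  refine ENNReal.tendsto_nhds_zero.2 fun ε hε => ?_
  obtain ⟨κ, -, hκ, hκ'⟩ := ENNReal.lt_iff_exists_real_btwn.1 hε
  filter_upwards [h κ (by simpa using hκ), ev_pos] with τ hτ h0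
  exact ((ENNReal.div_le_iff (vol_ball_ne_zero h0) vol_ball_ne_top).2 hτ).trans hκ'.le

theorem SmR.half {c : ℝ} {S : ℝ → Set X} (h : SmR c S) (hc : 0 < c) :
    ∀ᶠ τ in 𝓝[>] (0 : ℝ),
      2 * volume (S τ ∩ ball 0 (c * τ)) ≤ volume (ball (0 : X) (c * τ)) := by
  filter_upwards [h.eventually_le hc (κ := 1 / 2) (by norm_num)] with τ hτ
  refine (mul_le_mul_right hτ 2).trans (le_of_eq ?_)
  rw [← mul_assoc, ← ENNReal.ofReal_ofNat 2, ← ENNReal.ofReal_mul (by norm_num)]
  norm_num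

theorem SmR.exists_notMem {c : ℝ} {S : ℝ → Set X} (h : SmR c S) (hc : 0 < c) :
    ∀ᶠ τ in 𝓝[>] (0 : ℝ), ∃ z ∈ ball (0 : X) (c * τ), z ∉ S τ := by
  filter_upwards [h.half hc, ev_pos] with τ hτ h0
  by_contra hn
  push Not at hn
  rw [inter_eq_self_of_subset_right hn, two_mul] at hτ
  have := ENNReal.lt_add_right (vol_ball_ne_top (X := X) (τ := c * τ))
    (vol_ball_ne_zero (X := X) (mul_pos hc h0))
  exact absurd hτ (not_le.2 this)

omit [NormedSpace ℝ X] [BorelSpace X] [FiniteDimensional ℝ X]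
  [(volume : Measure X).IsAddHaarMeasure] in
/-- pulling back along volume preserving maps. -/
theorem SmR.comp {c c' : ℝ} {S : ℝ → Set X} (h : SmR c S) {Φ : X → X}
    (hΦ : MeasurePreserving Φ volume volume)
    (hb : ∀ᶠ τ in 𝓝[>] (0 : ℝ), ∀ z ∈ ball (0 : X) (c' * τ), Φ z ∈ ball (0 : X) (c * τ)) :
    SmR c' fun τ => {z | Φ z ∈ S τ} := by
  refine tendsto_of_tendsto_of_tendsto_of_le_of_le' tendsto_const_nhds h
    (Eventually.of_forall fun _ => zero_le) (hb.mono fun τ hτ => ?_)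
  refine ENNReal.div_le_div_right (le_trans (measure_mono ?_)
    (hΦ.measure_preimage_le (S τ ∩ ball 0 (c * τ)))) _
  exact fun z hz => ⟨hz.1, hτ z hz.2⟩

end general

theorem shear_preserving {d : ℕ} {g : E d → E d} (hg : Measurable g) :
    MeasurePreserving (fun z : E d × E d => (z.1 + g z.2, z.2)) volume volume := by
  have h1 : MeasurePreserving (fun z : E d × E d => (z.1, z.2 + g z.1))
      ((volume : Measure (E d)).prod volume) ((volume : Measure (E d)).prod volume) :=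
    (MeasurePreserving.id volume).skew_product (g := fun v η => η + g v) (by fun_prop)
      (Eventually.of_forall fun v => map_add_right_eq_self volume (g v))
  exact (Measure.measurePreserving_swap.comp h1).comp Measure.measurePreserving_swap

theorem vol_ball_pair {d : ℕ} (τ : ℝ) :
    volume (ball (0 : E d × E d) τ) = volume (ball (0 : E d) τ) * volume (ball (0 : E d) τ) := by
  rw [← Measure.prod_prod, ball_prod_same]
  rfl

/-- a condition on the first coordinate. -/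
theorem SmR.fst {d : ℕ} {c : ℝ} {S : ℝ → Set (E d)} (h : SmR c S) (hc : 0 < c) :
    SmR c fun τ => {z : E d × E d | z.1 ∈ S τ} := by
  have h1 := h.const_mul (K := ENNReal.ofReal (c ^ Module.finrank ℝ (E d))) ENNReal.ofReal_ne_top
  refine h1.congr' (ev_pos.mono fun τ hτ => ?_)
  have e : {z : E d × E d | z.1 ∈ S τ} ∩ ball 0 (c * τ) =
      (S τ ∩ ball 0 (c * τ)) ×ˢ ball 0 (c * τ) := by
    ext z
    simp only [mem_inter_iff, mem_ofPred_eq, mem_ball_zero_iff, Prod.norm_def, max_lt_iff, mem_prod]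
    tauto
  simp only
  rw [e, vol_ball_pair, Measure.volume_eq_prod, Measure.prod_prod, vol_ball_mul hc,
    ← mul_assoc, ENNReal.mul_div_mul_right _ _ (vol_ball_ne_zero hτ) vol_ball_ne_top, mul_comm,
    ENNReal.mul_div_right_comm]

/-- a condition on `η + g v`. -/
theorem SmR.shift {d : ℕ} {c c' : ℝ} {S : ℝ → Set (E d)} (h : SmR c S) (hc : 0 < c) (hc' : c' ≤ c)
    {g : E d → E d} (hg : Measurable g)
    (hb : ∀ᶠ τ in 𝓝[>] (0 : ℝ), ∀ z ∈ ball (0 : E d × E d) (c' * τ), ‖z.1 + g z.2‖ < c * τ) :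
    SmR c' fun τ => {z : E d × E d | z.1 + g z.2 ∈ S τ} := by
  refine ((h.fst hc).comp (c' := c') (shear_preserving hg) ?_).mono' fun τ z hz => hz
  filter_upwards [hb, ev_pos] with τ hτ h0 z hz
  rw [mem_ball_zero_iff, Prod.norm_def, max_lt_iff]
  refine ⟨hτ z hz, ?_⟩
  rw [mem_ball_zero_iff, Prod.norm_def, max_lt_iff] at hz
  exact hz.2.trans_le (mul_le_mul_of_nonneg_right hc' h0.le)

theorem SmR.shear {d : ℕ} {c : ℝ} {S : ℝ → Set (E d × E d)} (h : SmR c S) (hc : 0 < c)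
    (L : E d →L[ℝ] E d) :
    SmR (c / (1 + ‖L‖)) fun τ => {z : E d × E d | (z.1 + L z.2, z.2) ∈ S τ} := by
  refine h.comp (shear_preserving L.continuous.measurable) (ev_pos.mono fun τ h0 z hz => ?_)
  rw [mem_ball_zero_iff, Prod.norm_def, max_lt_iff] at hz ⊢
  have hL := norm_nonneg L
  have h1 : 0 < 1 + ‖L‖ := by linarith
  have e : c * τ = c / (1 + ‖L‖) * τ * (1 + ‖L‖) := by field_simp
  have hr : 0 < c / (1 + ‖L‖) * τ := mul_pos (div_pos hc h1) h0
  have h2 : ‖L z.2‖ ≤ ‖L‖ * (c / (1 + ‖L‖) * τ) :=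
    (L.le_opNorm _).trans (mul_le_mul_of_nonneg_left hz.2.le hL)
  have h3 := norm_add_le z.1 (L z.2)
  rw [e]
  constructor
  · simp only
    nlinarith [hz.1]
  · simp only
    nlinarith [hz.2]

theorem Neg.shear {d : ℕ} {F : ℝ → E d × E d → ℝ} {e : ℝ → ℝ} (h : Neg F e)
    (L : E d →L[ℝ] E d) : Neg (fun τ (z : E d × E d) => F τ (z.1 + L z.2, z.2)) e := by
  obtain ⟨C, c, hc, h⟩ := h
  exact ⟨C, c / (1 + ‖L‖), div_pos hc (by linarith [norm_nonneg L]),
    (h.shear hc L).mono' fun τ z hz => hz⟩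

/-- Fubini for relations that hold for every unit vector. -/
theorem allPair_prod {d : ℕ} {p : E d → E d → Prop}
    (hm : MeasurableSet {z : E d × E d | p z.1 z.2}) (h : AllPair p) {Y : Type}
    [MeasurableSpace Y] (μ : Measure Y) [SFinite μ] {s w : Y → E d} (hs : Measurable s)
    (hw : Measurable w) :
    ∀ᵐ z ∂(volume : Measure (E d)).prod μ, ‖w z.2‖ = 1 → p (z.1 + s z.2) (z.1 + s z.2 + w z.2) := by
  have hM : MeasurableSet {z : E d × Y | ‖w z.2‖ = 1 → p (z.1 + s z.2) (z.1 + s z.2 + w z.2)} := by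
    have h1 : MeasurableSet {z : E d × Y | ‖w z.2‖ = 1} :=
      measurableSet_eq_fun (by fun_prop) measurable_const
    have h2 : Measurable fun z : E d × Y => (z.1 + s z.2, z.1 + s z.2 + w z.2) := by fun_prop
    exact h1.imp (h2 hm)
  rw [Measure.ae_prod_iff_ae_ae hM, Measure.ae_ae_comm hM]
  refine Eventually.of_forall fun t => ?_
  by_cases ht : ‖w t‖ = 1
  · exact ((measurePreserving_add_right volume (s t)).quasiMeasurePreserving.ae
      (h (w t) ht)).mono fun x hx _ => hx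
  · exact Eventually.of_forall fun x hx => absurd hx ht

theorem measurableSet_orth {d : ℕ} {ι : Type} [Fintype ι] {ξ b : E d → ι → ℝ}
    (hξ : ∀ a, Measurable fun x => ξ x a) (hb : ∀ a, Measurable fun x => b x a) :
    MeasurableSet {z : E d × E d | ξ z.1 ⬝ᵥ b z.2 = 0} := by
  refine measurableSet_eq_fun ?_ measurable_const
  simp only [dotProduct]
  exact Finset.measurable_sum _ fun a _ =>
    ((hξ a).comp measurable_fst).mul ((hb a).comp measurable_snd)

theorem tay_of_neg {d : ℕ} {f : E d → ℝ} {T : MvPolynomial (Fin d) ℝ} {s : ℝ}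
    (h : Neg (fun _ η => f η - ev T η) fun τ => |τ| ^ s) : Tay f T s := by
  obtain ⟨C, c, hc, h⟩ := h
  have h1 := h.scale (inv_pos.2 hc)
  rw [mul_inv_cancel₀ hc.ne'] at h1
  refine ⟨C * c⁻¹ ^ s, small_iff.2 (h1.mono (ev_pos.mono fun τ hτ z _ hz => ?_))⟩
  simp only [mem_ofPred_eq] at hz ⊢
  rwa [abs_of_pos (mul_pos (inv_pos.2 hc) hτ), Real.mul_rpow (inv_pos.2 hc).le hτ.le,
    ← mul_assoc]

theorem Tay.neg {d : ℕ} {f : E d → ℝ} {T : MvPolynomial (Fin d) ℝ} {s : ℝ} (h : Tay f T s) :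
    Neg (fun _ η => f η - ev T η) fun τ => |τ| ^ s := by
  obtain ⟨C, h⟩ := h
  refine ⟨C, 1, one_pos, (small_iff.1 h).mono (ev_pos.mono fun τ hτ z _ hz => ?_)⟩
  simp only [mem_ofPred_eq] at hz ⊢
  rwa [abs_of_pos hτ] at hz

theorem Tay.exists_nonneg {d : ℕ} {f : E d → ℝ} {T : MvPolynomial (Fin d) ℝ} {s : ℝ}
    (h : Tay f T s) : ∃ C₀ : ℝ, 0 ≤ C₀ ∧ ∀ C, C₀ ≤ C →
      Small fun τ => {η | C * τ ^ s < |f η - ev T η|} := by
  obtain ⟨C, h⟩ := h
  refine ⟨|C|, abs_nonneg C, fun C' hC => small_iff.2 ((small_iff.1 h).mono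
    (ev_pos.mono fun τ hτ z _ hz => ?_))⟩
  exact lt_of_le_of_lt (mul_le_mul_of_nonneg_right ((le_abs_self C).trans hC)
    (Real.rpow_nonneg hτ.le s)) hz

section poly

variable {d : ℕ}

@[simp] theorem ev_C (c : ℝ) (η : E d) : ev (MvPolynomial.C c) η = c := by simp [ev]

@[simp] theorem ev_X (i : Fin d) (η : E d) : ev (MvPolynomial.X i) η = η i := by simp [ev]

@[simp] theorem ev_zero (η : E d) : ev 0 η = 0 := by simp [ev]

@[simp] theorem ev_add (p q : MvPolynomial (Fin d) ℝ) (η : E d) :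
    ev (p + q) η = ev p η + ev q η := by simp [ev]

@[simp] theorem ev_sub (p q : MvPolynomial (Fin d) ℝ) (η : E d) :
    ev (p - q) η = ev p η - ev q η := by simp [ev]

@[simp] theorem ev_mul (p q : MvPolynomial (Fin d) ℝ) (η : E d) :
    ev (p * q) η = ev p η * ev q η := by simp [ev]

theorem ev_sum {I : Type} (s : Finset I) (p : I → MvPolynomial (Fin d) ℝ) (η : E d) :
    ev (∑ i ∈ s, p i) η = ∑ i ∈ s, ev (p i) η := by simp [ev]

theorem ev_at_zero (p : MvPolynomial (Fin d) ℝ) : ev p 0 = p.coeff 0 := by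
  simp only [ev, PiLp.zero_apply]
  exact congrFun (congrArg DFunLike.coe MvPolynomial.eval_zero') p

theorem contDiff_ev (p : MvPolynomial (Fin d) ℝ) : ContDiff ℝ 1 (ev p) := by
  induction p using MvPolynomial.induction_on with
  | C c => simpa only [funext (ev_C c)] using contDiff_const
  | add p q hp hq => simpa only [funext (ev_add p q)] using hp.add hq
  | mul_X p i hp =>
    have : ev (p * MvPolynomial.X i) = fun η => ev p η * η i := by
      funext η
      simp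
    rw [this]
    exact hp.mul (EuclideanSpace.proj i : E d →L[ℝ] ℝ).contDiff

theorem continuous_ev (p : MvPolynomial (Fin d) ℝ) : Continuous (ev p) :=
  (contDiff_ev p).continuous

theorem measurable_ev (p : MvPolynomial (Fin d) ℝ) : Measurable (ev p) :=
  (continuous_ev p).measurable

/-- polynomials are Lipschitz near the origin. -/
theorem ev_lip (p : MvPolynomial (Fin d) ℝ) : ∃ C : ℝ, 0 ≤ C ∧ ∀ᶠ τ in 𝓝[>] (0 : ℝ),
    ∀ η ∈ ball (0 : E d) τ, ∀ η' ∈ ball (0 : E d) τ, |ev p η - ev p η'| ≤ C * τ := by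
  obtain ⟨K, t, ht, hK⟩ := (contDiff_ev p).contDiffAt.exists_lipschitzOnWith (x := 0)
  obtain ⟨r, hr, hrt⟩ := Metric.mem_nhds_iff.1 ht
  refine ⟨2 * K, by positivity, (ev_lt hr).mono fun τ hτ η hη η' hη' => ?_⟩
  have h1 := hK.dist_le_mul η (hrt (ball_subset_ball hτ.le hη)) η'
    (hrt (ball_subset_ball hτ.le hη'))
  have h2 := dist_triangle_right η η' 0
  rw [mem_ball] at hη hη'
  rw [Real.dist_eq] at h1
  have : (0 : ℝ) ≤ K := K.2
  nlinarith

theorem isPoly_ev (p : MvPolynomial (Fin d) ℝ) {D : ℕ} (h : p.totalDegree ≤ D) :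
    IsPoly D (ev p) := ⟨p, h, fun _ => rfl⟩

theorem isPoly_const (D : ℕ) (c : ℝ) : IsPoly D fun _ : E d => c :=
  ⟨MvPolynomial.C c, by simp, fun _ => by simp⟩

theorem IsPoly.mono {D D' : ℕ} {q : E d → ℝ} (h : IsPoly D q) (hD : D ≤ D') : IsPoly D' q := by
  obtain ⟨p, hp, e⟩ := h
  exact ⟨p, hp.trans hD, e⟩

theorem IsPoly.add {D : ℕ} {q q' : E d → ℝ} (h : IsPoly D q) (h' : IsPoly D q') :
    IsPoly D fun η => q η + q' η := by
  obtain ⟨p, hp, e⟩ := h
  obtain ⟨p', hp', e'⟩ := h'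
  exact ⟨p + p', (MvPolynomial.totalDegree_add p p').trans (max_le hp hp'),
    fun η => by simp [e, e']⟩

theorem IsPoly.mul {D D' : ℕ} {q q' : E d → ℝ} (h : IsPoly D q) (h' : IsPoly D' q') :
    IsPoly (D + D') fun η => q η * q' η := by
  obtain ⟨p, hp, e⟩ := h
  obtain ⟨p', hp', e'⟩ := h'
  exact ⟨p * p', (MvPolynomial.totalDegree_mul p p').trans (add_le_add hp hp'),
    fun η => by simp [e, e']⟩

theorem IsPoly.const_mul {D : ℕ} {q : E d → ℝ} (h : IsPoly D q) (c : ℝ) :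
    IsPoly D fun η => c * q η := by
  simpa using (isPoly_const 0 c).mul h

theorem IsPoly.sub {D : ℕ} {q q' : E d → ℝ} (h : IsPoly D q) (h' : IsPoly D q') :
    IsPoly D fun η => q η - q' η := by
  simpa [sub_eq_add_neg] using h.add (h'.const_mul (-1))

theorem isPoly_sum {D : ℕ} {I : Type} (s : Finset I) {q : I → E d → ℝ}
    (h : ∀ i ∈ s, IsPoly D (q i)) : IsPoly D fun η => ∑ i ∈ s, q i η := by
  classical
  induction s using Finset.induction_on with
  | empty => simpa using isPoly_const D 0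
  | insert a s ha ih =>
    simp only [Finset.sum_insert ha]
    exact (h a (Finset.mem_insert_self _ _)).add
      (ih fun i hi => h i (Finset.mem_insert_of_mem hi))

theorem IsPoly.pow {D : ℕ} {q : E d → ℝ} (h : IsPoly D q) (k : ℕ) :
    IsPoly (D * k) fun η => q η ^ k := by
  induction k with
  | zero => simpa using isPoly_const 0 1
  | succ k ih => simpa only [pow_succ, Nat.mul_succ] using ih.mul h

theorem isPoly_prod {I : Type} (s : Finset I) {D : I → ℕ} {q : I → E d → ℝ}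
    (h : ∀ i ∈ s, IsPoly (D i) (q i)) : IsPoly (∑ i ∈ s, D i) fun η => ∏ i ∈ s, q i η := by
  classical
  induction s using Finset.induction_on with
  | empty => simpa using isPoly_const 0 1
  | insert a s ha ih =>
    simp only [Finset.sum_insert ha, Finset.prod_insert ha]
    exact (h a (Finset.mem_insert_self _ _)).mul
      (ih fun i hi => h i (Finset.mem_insert_of_mem hi))

theorem IsPoly.shift {D : ℕ} {q : E d → ℝ} (h : IsPoly D q) (v : E d) :
    IsPoly D fun η => q (η + v) := by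
  obtain ⟨p, hp, e⟩ := h
  simp only [e, ev, MvPolynomial.eval_eq']
  refine isPoly_sum _ fun m hm => IsPoly.const_mul ?_ _
  have h1 : ∀ i : Fin d, IsPoly 1 fun η : E d => (η + v) i := fun i =>
    ⟨MvPolynomial.X i + MvPolynomial.C (v i), (MvPolynomial.totalDegree_add _ _).trans
      (max_le (by simp) (by simp)), fun η => by simp⟩
  refine (isPoly_prod Finset.univ fun i _ => (h1 i).pow (m i)).mono ?_
  refine le_trans ?_ ((MvPolynomial.le_totalDegree hm).trans hp)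
  simp only [one_mul]
  rw [Finsupp.sum_fintype _ _ fun _ => rfl]

end poly

end Pool.Agent.MP_66cee2_co.X
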