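import Mathlib

/-
Exponential lower bound, part R: invariant measures on the dual of the Gaussian rationals.
-/

namespace Pool.Agent.MP_66cee2_co.X

open MeasureTheory Set Filter Complex
open scoped ENNReal ComplexConjugate ComplexOrder

/-- the circle `ℝ / ℤ`. -/
abbrev T : Type := UnitAddCircle

/-- additive characters, as plain functions. -/
def IsChar {A : Type} [Add A] (x : A → T) : Prop := ∀ a b, x (a + b) = x a + x b

/-- `exp (2 π i t)`. -/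
noncomputable def ch (t : T) : ℂ := fourier 1 t

/-- the Gaussian rationals. -/
def kk : Subfield ℂ where
  carrier := {z | (∃ a : ℚ, z.re = a) ∧ ∃ b : ℚ, z.im = b}
  mul_mem' := by
    rintro z w ⟨⟨a, ha⟩, b, hb⟩ ⟨⟨c, hc⟩, e, he⟩
    exact ⟨⟨a * c - b * e, by simp [ha, hb, hc, he]⟩, a * e + b * c, by simp [ha, hb, hc, he]⟩
  one_mem' := ⟨⟨1, by simp⟩, 0, by simp⟩
  add_mem' := by
    rintro z w ⟨⟨a, ha⟩, b, hb⟩ ⟨⟨c, hc⟩, e, he⟩
    exact ⟨⟨a + c, by simp [ha, hc]⟩, b + e, by simp [hb, he]⟩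
  zero_mem' := ⟨⟨0, by simp⟩, 0, by simp⟩
  neg_mem' := by
    rintro z ⟨⟨a, ha⟩, b, hb⟩
    exact ⟨⟨-a, by simp [ha]⟩, -b, by simp [hb]⟩
  inv_mem' := by
    rintro z ⟨⟨a, ha⟩, b, hb⟩
    exact ⟨⟨a / (a * a + b * b), by simp [Complex.inv_re, Complex.normSq_apply, ha, hb]⟩,
      -b / (a * a + b * b), by simp [Complex.inv_im, Complex.normSq_apply, ha, hb]⟩

/-- the algebraic numbers. -/
noncomputable def KK : Subfield ℂ := (algebraicClosure ℚ ℂ).toSubfield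

theorem kk_le_KK : kk ≤ KK := by
  rintro z ⟨⟨a, ha⟩, b, hb⟩
  have hI : (I : ℂ) ∈ algebraicClosure ℚ ℂ := by
    rw [mem_algebraicClosure_iff]
    refine ⟨Polynomial.X ^ 2 + 1, ?_, by simp⟩
    exact (Polynomial.monic_X_pow_add_C (1 : ℚ) two_ne_zero).ne_zero
  have e : z = algebraMap ℚ ℂ a + algebraMap ℚ ℂ b * I := by
    apply Complex.ext <;> simp [ha, hb]
  rw [e]
  exact add_mem (IntermediateField.algebraMap_mem _ a)
    (mul_mem (IntermediateField.algebraMap_mem _ b) hI)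

instance countableKK : Countable KK :=
  ((Algebraic.countable ℚ ℂ).mono fun _ h => mem_algebraicClosure_iff.1 h).to_subtype

instance countablekk : Countable kk :=
  (Subfield.inclusion kk_le_KK).injective.countable

/-- Gaussian integers inside the Gaussian rationals. -/
noncomputable def gi : GaussianInt →+* kk :=
  GaussianInt.toComplex.codRestrict kk fun r =>
    ⟨⟨r.re, by rw [← GaussianInt.intCast_re, Rat.cast_intCast]⟩, r.im,
      by rw [← GaussianInt.intCast_im, Rat.cast_intCast]⟩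

/-- the action of a multiplier on functions. -/
noncomputable def act {K : Subfield ℂ} (l : K) (x : K → T) : K → T := fun z => x (l * z)

/-- invariance under the multipliers of absolute value one. -/
def Inv {K : Subfield ℂ} (μ : Measure (K → T)) : Prop :=
  ∀ l : K, ‖(l : ℂ)‖ = 1 → MeasurePreserving (act l) μ μ

/-- `x` is the continuous character with parameter `y` on the lattice `c ℤ[i]`. -/
def Triv (x : kk → T) (y : ℂ) (c : kk) : Prop :=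
  ∀ r : GaussianInt, x (c * gi r) = (((y * ((c * gi r : kk) : ℂ)).re : ℝ) : T)

/-- characters that are continuous on some `d ℤ[i][1/5]`. -/
def X0 : Set (kk → T) :=
  {x | ∃ (y : ℂ) (d : ℕ), 0 < d ∧ ∀ m : ℕ, Triv x y ((d : kk) / 5 ^ m)}

/-- continuous characters. -/
def Xc : Set (kk → T) := {x | ∃ y : ℂ, ∀ z : kk, x z = (((y * (z : ℂ)).re : ℝ) : T)}

/-- the two primes above 5; the conjugate of `p` is `5 / p`. -/
def IsP (p : kk) : Prop := (p : ℂ) = 2 + I ∨ (p : ℂ) = 2 - I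

/-- the elements that are integral at `p`. -/
def Zp (p : kk) : Set kk :=
  {z | ∃ (r : GaussianInt) (N b : ℕ), N.Coprime 5 ∧ (N : kk) * (5 / p) ^ b * z = gi r}

/-- the members of `Y` are determined by their values on `Zp p`. -/
def Inj (p : kk) (Y : Set (kk → T)) : Prop :=
  ∀ x ∈ Y, ∀ x' ∈ Y, (∀ z ∈ Zp p, x z = x' z) → x = x'

/-- all measurable injective sets are null. -/
def NoInj (p : kk) (ν : Measure (kk → T)) : Prop :=
  ∀ Y, MeasurableSet Y → Inj p Y → ν Y = 0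

/-- countably many measurable injective sets carry the measure. -/
def Cov (p : kk) (ν : Measure (kk → T)) : Prop :=
  ∃ Y : ℕ → Set (kk → T), (∀ j, MeasurableSet (Y j) ∧ Inj p (Y j)) ∧ ν (⋃ j, Y j)ᶜ = 0

/-- exhaustion. -/
def SExh : Prop :=
  ∀ (p : kk) (ν : Measure (kk → T)) [IsFiniteMeasure ν], IsP p → (∀ᵐ x ∂ν, IsChar x) → Inv ν →
    ∃ D, MeasurableSet D ∧ Cov p (ν.restrict D) ∧ NoInj p (ν.restrict Dᶜ) ∧
      Inv (ν.restrict D) ∧ Inv (ν.restrict Dᶜ)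

/-- the argument of Host. -/
def SHost : Prop :=
  ∀ (p : kk) (ν : Measure (kk → T)) [IsFiniteMeasure ν], IsP p → (∀ᵐ x ∂ν, IsChar x) → Inv ν →
    NoInj p ν → ∀ z : kk, z ≠ 0 → ∫ x, ch (x z) ∂ν = 0

open Classical in
/-- the maximal ergodic inequality for a set. -/
def SMax : Prop :=
  ∀ (X : Type) [MeasurableSpace X] (μ : Measure X) [IsFiniteMeasure μ] (f : X → X) (B : Set X)
    (δ : ℝ), MeasurePreserving f μ μ → MeasurableSet B → 0 < δ →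
    μ {x | ∃ m : ℕ, δ * m < (((Finset.range m).filter fun t => f^[t] x ∈ B).card : ℝ)} ≤
      μ B / ENNReal.ofReal δ

/-- on each `K j` finitely many values predict the next `h` digits. -/
def Pred (p : kk) (h : ℕ) {L : ℕ} (K : Fin L → Set (kk → T)) (F : Finset kk) (ε : ℝ) : Prop :=
  0 < ε ∧ (∀ z ∈ F, z ∈ Zp p) ∧ ∀ j, ∀ x ∈ K j, ∀ x' ∈ K j, (∀ z ∈ F, ‖x z - x' z‖ ≤ ε) →
    ‖x (p⁻¹ ^ h) - x' (p⁻¹ ^ h)‖ < 1 / (2 * 5 ^ h)

/-- compact predictors. -/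
def SPred : Prop :=
  ∀ (p : kk) (ν : Measure (kk → T)) [IsFiniteMeasure ν] (η : ℝ), Cov p ν → 0 < η →
    ∃ L : ℕ, ∀ h : ℕ, ∃ (K : Fin L → Set (kk → T)) (F : Finset kk) (ε : ℝ),
      (∀ j, MeasurableSet (K j)) ∧ ν (⋃ j, K j)ᶜ ≤ ENNReal.ofReal η ∧ Pred p h K F ε

open Classical in
/-- the pigeonhole principle along the two towers. -/
def SChain : Prop :=
  ∀ (p : kk) (h L L' : ℕ) (K : Fin L → Set (kk → T)) (F : Finset kk) (ε : ℝ)
    (K' : Fin L' → Set (kk → T)) (F' : Finset kk) (ε' δ : ℝ), IsP p → 0 < h → 0 ≤ δ →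
    Pred p h K F ε → Pred (5 / p) h K' F' ε' →
    ∃ C₀ : ℝ, ∀ (m : ℕ) (S : Finset ℕ) (x : ℕ → kk → T),
      (∀ j ∈ S, IsChar (x j) ∧
        (((Finset.range m).filter fun t =>
          act ((5 / p / p) ^ (h * t)) (x j) ∉ ⋃ i, K i).card : ℝ) ≤ δ * m ∧
        (((Finset.range m).filter fun t =>
          act ((p / (5 / p)) ^ (h * t)) (x j) ∉ ⋃ i, K' i).card : ℝ) ≤ δ * m) →
      C₀ * (((L : ℝ) + 1) * (L' + 1)) ^ m * (5 : ℝ) ^ (2 * h * δ * m) < S.card →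
      ∃ j ∈ S, ∃ j' ∈ S, j ≠ j' ∧ ∃ w : ℂ, ‖w‖ ≤ 1 ∧ Triv (x j - x j') w (1 / 5 ^ (h * m))

/-- zero entropy in the form of a covering bound. -/
def SPig : Prop :=
  ∀ (p : kk) (ν : Measure (kk → T)) [IsProbabilityMeasure ν] (δ : ℝ), IsP p → Inv ν →
    Cov p ν → Cov (5 / p) ν → 0 < δ →
    ∃ (G : Set (kk → T)) (h : ℕ) (C₀ : ℝ), MeasurableSet G ∧ 0 < h ∧
      ν Gᶜ ≤ ENNReal.ofReal δ ∧ ∀ (m : ℕ) (S : Finset ℕ) (x : ℕ → kk → T),
        (∀ j ∈ S, IsChar (x j) ∧ x j ∈ G) → C₀ * Real.exp (δ * (h * m)) < S.card →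
        ∃ j ∈ S, ∃ j' ∈ S, j ≠ j' ∧ ∃ w : ℂ, ‖w‖ ≤ 1 ∧ Triv (x j - x j') w (1 / 5 ^ (h * m))

/-- the rotations `(5 j + i) / (5 j - i)`. -/
noncomputable def lam (j : ℕ) : kk := gi ⟨5 * j, 1⟩ / gi ⟨5 * j, -1⟩

/-- characters with small data at level `k`. -/
def Qs (M k : ℕ) : Set (kk → T) :=
  {x | IsChar x ∧ ∃ (d : ℕ) (y : ℂ), 0 < d ∧ d ≤ M ∧ d.Coprime 5 ∧ ‖y‖ ≤ M ∧
    Triv x y ((d : kk) / 5 ^ k)}

/-- arithmetic of the sending side. -/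
def SAr1 : Prop :=
  (∀ j, ‖(lam j : ℂ)‖ = 1) ∧
  (∀ (x : kk → T) (H j j' n : ℕ) (w : ℂ), IsChar x → j ∈ Finset.Icc 1 H → j' ∈ Finset.Icc 1 H →
    j ≠ j' → ‖w‖ ≤ 1 → Triv (act (lam j) x - act (lam j') x) w (1 / 5 ^ n) →
    ∃ (d : ℕ) (y : ℂ), 0 < d ∧ d ≤ 10 * H ∧ ‖y‖ ≤ 4 * (H : ℝ) ^ 2 ∧ Triv x y ((d : kk) / 5 ^ n)) ∧
  (∀ (x : kk → T) (M k n d : ℕ) (y : ℂ), IsChar x → 0 < d → d ≤ M → ‖y‖ ≤ M →
    d * 5 ^ k ≤ 5 ^ n → Triv x y ((d : kk) / 5 ^ n) → x ∈ Qs M k) ∧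
  ∀ (x : kk → T) (M k n d : ℕ) (y : ℂ) (Y : ℝ), x ∈ Qs M k → 0 < d → ‖y‖ ≤ Y →
    (M + Y) * (M * d) < (5 : ℝ) ^ k → d * 5 ^ (k + 1) ≤ 5 ^ n → Triv x y ((d : kk) / 5 ^ n) →
    x ∈ Qs M (k + 1)

open Classical in
/-- arithmetic of the receiving side. -/
def SAr2 : Prop :=
  ∀ (x'' : kk → T) (M H H' k k' : ℕ), k < k' →
    (∃ j ∈ Finset.Icc 1 H, ∃ x ∈ Qs M k \ Qs M (k + 1), x'' = act (lam j) x) →
    2 * M * (M * (5 * H' + 1)) ^ 2 < 5 ^ k' →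
    (((Finset.Icc 1 H').filter fun j' => ∃ x' ∈ Qs M k', x'' = act (lam j') x').card : ℝ) ≤
      M * (10 * (M : ℝ) ^ 3 * (5 * H + 1) * H' / 5 ^ k + 1)

/-- measurability and the limit of the levels. -/
def SQ : Prop :=
  MeasurableSet X0 ∧ MeasurableSet Xc ∧ (∀ M k, MeasurableSet (Qs M k)) ∧
    (∀ M k, Qs M (k + 1) ⊆ Qs M k) ∧ ∀ M, ⋂ k, Qs M k ⊆ X0

/-- a deterministic invariant measure charges `X0`. -/
def SPos : Prop :=
  ∀ (p : kk) (ν : Measure (kk → T)) [IsProbabilityMeasure ν], IsP p → (∀ᵐ x ∂ν, IsChar x) →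
    Inv ν → Cov p ν → Cov (5 / p) ν → ν X0 ≠ 0

/-- the rigidity theorem. -/
def SH : Prop :=
  ∀ (ν : Measure (kk → T)) [IsFiniteMeasure ν], (∀ᵐ x ∂ν, IsChar x) → Inv ν → ν X0 = 0 →
    ∀ z : kk, z ≠ 0 → ∫ x, ch (x z) ∂ν = 0

/-- restriction to the Gaussian rationals. -/
noncomputable def res (x : KK → T) : kk → T := fun z => x (Subfield.inclusion kk_le_KK z)

/-- all finite places die. -/
def SLight : Prop :=
  ∀ (μ : Measure (KK → T)) [IsFiniteMeasure μ], (∀ᵐ x ∂μ, IsChar x) → Inv μ →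
    μ {x | res x ∈ X0 ∧ res x ∉ Xc} = 0

/-- positive definite functions. -/
def PD {A : Type} [AddCommGroup A] (φ : A → ℂ) : Prop :=
  ∀ (S : Finset A) (c : A → ℂ), 0 ≤ ∑ a ∈ S, ∑ b ∈ S, conj (c a) * c b * φ (b - a)

/-- the theorem of Herglotz and Bochner for a countable discrete group. -/
def SHerg : Prop :=
  ∀ (A : Type) [AddCommGroup A] [Countable A] (φ : A → ℂ), PD φ →
    ∃ μ : Measure (A → T), IsFiniteMeasure μ ∧ (∀ᵐ x ∂μ, IsChar x) ∧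
      ∀ a, φ a = ∫ x, ch (x a) ∂μ

/-- uniqueness of the spectral measure. -/
def SUniq : Prop :=
  ∀ (A : Type) [AddCommGroup A] [Countable A] (μ ν : Measure (A → T)) [IsFiniteMeasure μ]
    [IsFiniteMeasure ν], (∀ᵐ x ∂μ, IsChar x) → (∀ᵐ x ∂ν, IsChar x) →
    (∀ a, ∫ x, ch (x a) ∂μ = ∫ x, ch (x a) ∂ν) → μ = ν

/-- rotation invariant positive definite functions are continuous at generic points. -/
def SRPD : Prop :=
  ∀ (m : ℕ) (φ : (Fin m → KK) → ℂ), PD φ →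
    (∀ l z : Fin m → KK, (∀ j, ‖(l j : ℂ)‖ = 1) → φ (l * z) = φ z) →
    ∃ ψ : (Fin m → ℂ) → ℂ, Continuous ψ ∧ ∀ z : Fin m → KK, (∀ j, (z j : ℂ) ∈ kk) →
      (∀ j, z j ≠ 0) → φ z = ψ fun j => z j

end Pool.Agent.MP_66cee2_co.X
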