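import Mathlib

/-
Exponential lower bound: common definitions and the measurable theorem.
-/

namespace Pool.Agent.MP_66cee2_co.X

open MeasureTheory Set Filter Metric Topology
open scoped ENNReal

/-- Euclidean space. -/
abbrev E (d : ℕ) : Type := EuclideanSpace ℝ (Fin d)

/-- the rotation invariant measure on the unit sphere, as a finite measure on the space. -/
noncomputable def sig (d : ℕ) : Measure (E d) :=
  (volume.restrict (ball (0 : E d) 1)).map fun z => ‖z‖⁻¹ • z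

/-- a relation holds for almost every unit pair. -/
def AePair {d : ℕ} (p : E d → E d → Prop) : Prop := ∀ᵐ x, ∀ᵐ ω ∂sig d, p x (x + ω)

/-- coordinates of the Lorentz space. -/
abbrev Ix (n : ℕ) : Type := Fin n ⊕ Bool

/-- the coordinate that equals one on lifts. -/
abbrev sI {n : ℕ} : Ix n := Sum.inr true

/-- the matrix of the Lorentz form applied to a vector. -/
def Jv {n : ℕ} (a : Ix n → ℝ) : Ix n → ℝ
  | Sum.inl i => 2 * a (Sum.inl i)
  | Sum.inr b => a (Sum.inr !b)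

/-- the Lorentz form. -/
def lz {n : ℕ} (a b : Ix n → ℝ) : ℝ := a ⬝ᵥ Jv b

/-- the lift of a point: `lz (lift u) (lift v) = 1 - ‖u - v‖ ^ 2`. -/
noncomputable def lift {n : ℕ} (u : E n) : Ix n → ℝ
  | Sum.inl i => u i
  | Sum.inr true => 1
  | Sum.inr false => 1 / 2 - ‖u‖ ^ 2

/-- the trace of `P J`. -/
def trJ {n : ℕ} (P : Matrix (Ix n) (Ix n) ℝ) : ℝ := ∑ a, Jv (P a) a

/-- maps that preserve all distances. -/
def Iso {d n : ℕ} (g : E d → E n) : Prop := ∀ x y, ‖g x - g y‖ = ‖x - y‖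

/-- the hypotheses of the measurable theorem. -/
structure Field {d n : ℕ} (P : E d → Matrix (Ix n) (Ix n) ℝ) : Prop where
  meas : ∀ a b, Measurable fun x => P x a b
  pos : ∀ᵐ x, (P x).PosSemidef ∧ 0 < P x sI sI ∧ trJ (P x) = P x sI sI
  orth : AePair fun x y => ∀ a b, lz (P x a) (P y b) = 0

/-- the measurable theorem. -/
def SM : Prop :=
  ∃ c : ℝ, 1 < c ∧ ∃ d₀ : ℕ, ∀ d n : ℕ, d₀ ≤ d → (n : ℝ) ≤ c ^ d →
    ∀ P : E d → Matrix (Ix n) (Ix n) ℝ, Field P → ∃ g : E d → E n, Iso g ∧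
      ∀ᵐ x, ∀ a b, P x a b = P x sI sI * lift (g x) a * lift (g x) b

/-- the final statement. -/
def SFinal : Prop :=
  ∃ c : ℝ, 1 < c ∧ ∃ d₀ : ℕ, ∀ d n : ℕ, d₀ ≤ d → (n : ℝ) ≤ c ^ d →
    ∀ f : E d → E n, (∀ x y, ‖x - y‖ = 1 → ‖f x - f y‖ = 1) → ∀ x y, ‖f x - f y‖ = ‖x - y‖

theorem lz_eq {n : ℕ} (a b : Ix n → ℝ) :
    lz a b = 2 * ∑ i, a (Sum.inl i) * b (Sum.inl i) + a (Sum.inr true) * b (Sum.inr false) +
      a (Sum.inr false) * b (Sum.inr true) := by
  simp only [lz, dotProduct, Fintype.sum_sum_type, Jv, Fintype.sum_bool, Bool.not_true,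
    Bool.not_false, Finset.mul_sum]
  rw [add_assoc]
  congr 1
  exact Finset.sum_congr rfl fun i _ => by ring

theorem lz_comm {n : ℕ} (a b : Ix n → ℝ) : lz a b = lz b a := by
  rw [lz_eq, lz_eq, Finset.sum_congr rfl fun i _ => mul_comm (a (Sum.inl i)) (b (Sum.inl i))]
  ring

theorem lz_lift {n : ℕ} (u v : E n) : lz (lift u) (lift v) = 1 - ‖u - v‖ ^ 2 := by
  rw [lz_eq, norm_sub_sq_real]
  simp only [lift, PiLp.inner_apply, RCLike.inner_apply, conj_trivial]
  rw [Finset.sum_congr rfl fun i _ => mul_comm (v i) (u i)]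
  ring

end Pool.Agent.MP_66cee2_co.X
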