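import Pool.Agent.MP_66cee2_co.X.Defs

/-
Exponential lower bound: the interface between the two halves of the measurable theorem.
-/

namespace Pool.Agent.MP_66cee2_co.X

open MeasureTheory Set Filter Metric Topology
open scoped ENNReal

/-- evaluation of a polynomial at a point. -/
noncomputable def ev {d : ℕ} (p : MvPolynomial (Fin d) ℝ) (η : E d) : ℝ :=
  MvPolynomial.eval (fun i => η i) p

/-- a family of sets that has density `o(1)` in the ball of radius `τ`. -/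
def Small {d : ℕ} (S : ℝ → Set (E d)) : Prop :=
  Tendsto (fun τ => volume (S τ ∩ ball 0 τ) / volume (ball (0 : E d) τ)) (𝓝[>] 0) (𝓝 0)

/-- a line field with rational jets. -/
structure JetField {d n : ℕ} (P : E d → Matrix (Ix n) (Ix n) ℝ) (u : E d → Ix n → ℝ) : Prop where
  meas : Measurable u
  unit : ∀ x, u x ⬝ᵥ u x = 1
  orth : AePair fun x y => lz (u x) (u y) = 0
  pin : AePair fun x y => ∀ a, lz (P x a) (u y) = 0 ∧ lz (u x) (P y a) = 0
  type : ∀ᵐ x, (u x sI = 0 ∧ ∃ i, u x (Sum.inl i) ≠ 0) ∨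
    (u x sI ≠ 0 ∧ lz (u x) (u x) = u x sI ^ 2)
  jet : ∀ᵐ x, ∃ Q : Ix n → MvPolynomial (Fin d) ℝ, Q ≠ 0 ∧ ∀ K : ℕ, ∃ C : ℝ,
    Small fun τ => {η | ∃ a b,
      C * τ ^ K < |ev (Q a) η * u (x + η) b - ev (Q b) η * u (x + η) a|}

/-- first half: rational jets exist. -/
def SJ : Prop :=
  ∀ d n : ℕ, 4 ≤ d → ∀ P : E d → Matrix (Ix n) (Ix n) ℝ, Field P → ∃ u, JetField P u

/-- second half: behaviour at infinity, the flat bound, pinning and spreading. -/
def SI : Prop :=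
  ∃ c : ℝ, 1 < c ∧ ∃ d₀ : ℕ, ∀ d n : ℕ, d₀ ≤ d → (n : ℝ) ≤ c ^ d →
    ∀ (P : E d → Matrix (Ix n) (Ix n) ℝ) (u : E d → Ix n → ℝ), Field P → JetField P u →
      ∃ g : E d → E n, Iso g ∧ ∀ᵐ x, ∀ a b, P x a b = P x sI sI * lift (g x) a * lift (g x) b

theorem sM_of (hJ : SJ) (hI : SI) : SM := by
  obtain ⟨c, hc, d₀, h⟩ := hI
  refine ⟨c, hc, max d₀ 4, fun d n hd hn P hP => ?_⟩
  obtain ⟨u, hu⟩ := hJ d n (le_trans (le_max_right _ _) hd) P hP
  exact h d n (le_trans (le_max_left _ _) hd) hn P u hP hu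

end Pool.Agent.MP_66cee2_co.X
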