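import Pool.Agent.MP_66cee2_co.X.SpecR2

/-
Part R: proved kit, first half (characters, `Triv`, digits, closed sets).
-/

namespace Pool.Agent.MP_66cee2_co.X

open MeasureTheory Set Filter Complex
open scoped ENNReal ComplexConjugate ComplexOrder

/-- the continuous character with parameter `y`. -/
noncomputable def ee (y : ℂ) (z : kk) : T := (((y * (z : ℂ)).re : ℝ) : T)

theorem triv_iff {x : kk → T} {y : ℂ} {c : kk} :
    Triv x y c ↔ ∀ r : GaussianInt, x (c * gi r) = ee y (c * gi r) := Iff.rfl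

theorem mem_Xc {x : kk → T} : x ∈ Xc ↔ ∃ y : ℂ, ∀ z, x z = ee y z := Iff.rfl

theorem ee_add_right (y : ℂ) (z w : kk) : ee y (z + w) = ee y z + ee y w := by
  simp [ee, mul_add]

theorem ee_add_left (y y' : ℂ) (z : kk) : ee (y + y') z = ee y z + ee y' z := by
  simp [ee, add_mul]

theorem ee_sub_left (y y' : ℂ) (z : kk) : ee (y - y') z = ee y z - ee y' z := by
  simp [ee, sub_mul]

theorem ee_mul (y : ℂ) (l z : kk) : ee y (l * z) = ee (y * l) z := by
  simp [ee, mul_assoc]

theorem ee_zero_left (z : kk) : ee 0 z = 0 := by simp [ee]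

theorem isChar_ee (y : ℂ) : IsChar (ee y) := ee_add_right y

theorem norm_ee_le (y : ℂ) (z : kk) : ‖ee y z‖ ≤ ‖y‖ * ‖(z : ℂ)‖ := by
  unfold ee
  refine (QuotientAddGroup.norm_mk_le_norm).trans ?_
  rw [← norm_mul]
  exact Complex.abs_re_le_norm _

theorem continuous_ee (z : kk) : Continuous fun y => ee y z := by
  unfold ee
  exact (AddCircle.continuous_mk' 1).comp (by fun_prop)

section Chars

variable {A : Type} [AddCommGroup A] {x x' : A → T}

/-- a character as a homomorphism. -/
def IsChar.hom (h : IsChar x) : A →+ T := AddMonoidHom.mk' x h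

theorem IsChar.map_zero (h : IsChar x) : x 0 = 0 := h.hom.map_zero

theorem IsChar.map_neg (h : IsChar x) (a : A) : x (-a) = -x a := h.hom.map_neg a

theorem IsChar.map_sub (h : IsChar x) (a b : A) : x (a - b) = x a - x b := h.hom.map_sub a b

theorem IsChar.map_nsmul (h : IsChar x) (n : ℕ) (a : A) : x (n • a) = n • x a :=
  h.hom.map_nsmul n a

theorem IsChar.map_zsmul (h : IsChar x) (n : ℤ) (a : A) : x (n • a) = n • x a :=
  h.hom.map_zsmul n a

theorem IsChar.map_sum (h : IsChar x) {ι : Type} (s : Finset ι) (f : ι → A) :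
    x (∑ i ∈ s, f i) = ∑ i ∈ s, x (f i) := _root_.map_sum h.hom f s

theorem IsChar.add (h : IsChar x) (h' : IsChar x') : IsChar (x + x') := fun a b => by
  simp only [Pi.add_apply, h a b, h' a b]; abel

theorem IsChar.sub (h : IsChar x) (h' : IsChar x') : IsChar (x - x') := fun a b => by
  simp only [Pi.sub_apply, h a b, h' a b]; abel

theorem isClosed_isChar : IsClosed {x : A → T | IsChar x} := by
  unfold IsChar
  simp only [ofPred_forall]
  exact isClosed_iInter fun a => isClosed_iInter fun b => isClosed_eq (by fun_prop) (by fun_prop)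

theorem measurableSet_isChar [Countable A] : MeasurableSet {x : A → T | IsChar x} :=
  isClosed_isChar.measurableSet

end Chars

theorem IsChar.natCast_mul {K : Subfield ℂ} {x : K → T} (h : IsChar x) (n : ℕ) (a : K) :
    x ((n : K) * a) = n • x a := by rw [← nsmul_eq_mul, h.map_nsmul]

theorem IsChar.intCast_mul {K : Subfield ℂ} {x : K → T} (h : IsChar x) (n : ℤ) (a : K) :
    x ((n : K) * a) = n • x a := by rw [← zsmul_eq_mul, h.map_zsmul]

theorem IsChar.act {K : Subfield ℂ} {x : K → T} (h : IsChar x) (l : K) : IsChar (act l x) :=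
  fun a b => by simp only [X.act, mul_add, h _ _]

theorem IsChar.res {x : KK → T} (h : IsChar x) : IsChar (res x) :=
  fun a b => by simp only [X.res, map_add, h _ _]

theorem act_act {K : Subfield ℂ} (l l' : K) (x : K → T) : act l (act l' x) = act (l' * l) x := by
  funext z; simp [act, mul_assoc]

theorem act_one {K : Subfield ℂ} (x : K → T) : act 1 x = x := by
  funext z; simp [act]

theorem act_iterate {K : Subfield ℂ} (l : K) (t : ℕ) (x : K → T) :
    (act l)^[t] x = act (l ^ t) x := by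
  induction t with
  | zero => simp [act_one]
  | succ t ih => rw [Function.iterate_succ_apply', ih, act_act, pow_succ]

theorem act_injective {K : Subfield ℂ} {l : K} (hl : l ≠ 0) :
    Function.Injective (act l : (K → T) → K → T) := fun x x' h => by
  have := congrArg (act l⁻¹) h
  rwa [act_act, act_act, mul_inv_cancel₀ hl, act_one, act_one] at this

theorem continuous_act {K : Subfield ℂ} (l : K) : Continuous (act l : (K → T) → K → T) :=
  continuous_pi fun z => continuous_apply (l * z)

theorem measurable_act {K : Subfield ℂ} (l : K) : Measurable (act l : (K → T) → K → T) :=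
  measurable_pi_lambda _ fun z => measurable_pi_apply (l * z)

theorem measurable_res : Measurable res :=
  measurable_pi_lambda _ fun _ => measurable_pi_apply _

theorem continuous_ch : Continuous ch := (fourier 1).continuous

theorem norm_ch (t : T) : ‖ch t‖ = 1 := by
  unfold ch
  rw [fourier_apply]
  exact Circle.norm_coe _

theorem ch_add (s t : T) : ch (s + t) = ch s * ch t := by
  simp [ch, fourier_apply, AddCircle.toCircle_add]

theorem ch_zero : ch 0 = 1 := by simp [ch]

theorem coe_gi (r : GaussianInt) : ((gi r : kk) : ℂ) = (r : ℂ) := rfl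

theorem coe_gi_mk (a b : ℤ) : ((gi ⟨a, b⟩ : kk) : ℂ) = a + b * I := by
  rw [coe_gi, GaussianInt.toComplex_def']

theorem gi_injective : Function.Injective gi := fun r s h =>
  GaussianInt.toComplex_inj.1 (by rw [← coe_gi, ← coe_gi, h])

/-- every Gaussian rational has a denominator. -/
theorem exists_den (z : kk) : ∃ (N : ℕ) (r : GaussianInt), 0 < N ∧ (N : kk) * z = gi r := by
  obtain ⟨z, ⟨a, ha⟩, b, hb⟩ := z
  refine ⟨a.den * b.den, ⟨a.num * b.den, b.num * a.den⟩, Nat.mul_pos a.pos b.pos, ?_⟩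
  apply Subtype.ext
  rw [coe_gi_mk]
  have h1 : (a.den : ℝ) * a = a.num := by exact_mod_cast Rat.den_mul_eq_num a
  have h2 : (b.den : ℝ) * b = b.num := by exact_mod_cast Rat.den_mul_eq_num b
  apply Complex.ext
  · simp [ha, ← h1]; ring
  · simp [hb, ← h2]; ring

namespace Triv

variable {x x' : kk → T} {y y' : ℂ} {c c' : kk}

theorem mul (h : Triv x y c) (r : GaussianInt) : Triv x y (c * gi r) := fun s => by
  have := h (r * s)
  rwa [map_mul, ← mul_assoc] at this

theorem of_eq (h : Triv x y c) (r : GaussianInt) (e : c' = c * gi r) : Triv x y c' :=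
  e ▸ h.mul r

theorem mul_nat (h : Triv x y c) (n : ℕ) : Triv x y (c * n) :=
  h.of_eq n (by simp)

theorem mul_int (h : Triv x y c) (n : ℤ) : Triv x y (c * n) :=
  h.of_eq n (by simp)

theorem self (h : Triv x y c) : x c = ee y c := by
  simpa using triv_iff.1 h 1

theorem add (hx : IsChar x) (h : Triv x y c) (h' : Triv x y c') : Triv x y (c + c') := by
  rw [triv_iff] at *
  intro r
  rw [add_mul, hx, ee_add_right, h, h']

theorem neg (h : Triv x y c) : Triv x y (-c) := h.of_eq (-1) (by simp)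

theorem sub (hx : IsChar x) (h : Triv x y c) (h' : Triv x y c') : Triv x y (c - c') := by
  rw [sub_eq_add_neg]; exact h.add hx h'.neg

theorem bezout (hx : IsChar x) (h : Triv x y c) (h' : Triv x y c') {e : kk} (u v : GaussianInt)
    (he : e = c * gi u + c' * gi v) : Triv x y e := he ▸ (h.mul u).add hx (h'.mul v)

theorem add_add (h : Triv x y c) (h' : Triv x' y' c) : Triv (x + x') (y + y') c := by
  rw [triv_iff] at *
  intro r
  rw [Pi.add_apply, h, h', ee_add_left]

theorem sub_sub (h : Triv x y c) (h' : Triv x' y' c) : Triv (x - x') (y - y') c := by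
  rw [triv_iff] at *
  intro r
  rw [Pi.sub_apply, h, h', ee_sub_left]

theorem act_iff (l : kk) : Triv (act l x) (y * l) c ↔ Triv x y (l * c) := by
  simp only [triv_iff, act, ← ee_mul, mul_assoc]

/-- uniqueness of a small parameter. -/
theorem uniq (h : Triv x y c) (h' : Triv x y' c) (hc : c ≠ 0) :
    y = y' ∨ 1 ≤ ‖y - y'‖ * ‖(c : ℂ)‖ := by
  rw [triv_iff] at *
  have key : ∀ r, ∃ n : ℤ, (n : ℝ) = ((y - y') * (c * (r : GaussianInt) : ℂ)).re := by
    intro r
    have h0 : ee (y - y') (c * gi r) = 0 := by rw [ee_sub_left, ← h, ← h', sub_self]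
    unfold ee at h0
    obtain ⟨n, hn⟩ := (AddCircle.coe_eq_zero_iff (1 : ℝ)).1 h0
    exact ⟨n, by simpa [coe_gi] using hn⟩
  obtain ⟨a, ha⟩ := key 1
  obtain ⟨b, hb⟩ := key ⟨0, -1⟩
  have hb' : (b : ℝ) = ((y - y') * (c : ℂ)).im := by
    rw [hb, GaussianInt.toComplex_def', ← mul_assoc]
    simp
  have ha' : (a : ℝ) = ((y - y') * (c : ℂ)).re := by simpa using ha
  by_cases h0 : a = 0 ∧ b = 0
  · left
    have : (y - y') * (c : ℂ) = 0 := by
      apply Complex.ext
      · rw [← ha', h0.1]; simp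
      · rw [← hb', h0.2]; simp
    rcases mul_eq_zero.1 this with h1 | h1
    · exact sub_eq_zero.1 h1
    · exact absurd (Subtype.ext h1) hc
  · right
    rw [← norm_mul]
    rcases not_and_or.1 h0 with h1 | h1
    · refine le_trans ?_ (Complex.abs_re_le_norm _)
      rw [← ha']
      exact_mod_cast Int.one_le_abs h1
    · refine le_trans ?_ (Complex.abs_im_le_norm _)
      rw [← hb']
      exact_mod_cast Int.one_le_abs h1

/-- every character is continuous on a lattice, with a bounded parameter. -/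
theorem exi (hx : IsChar x) (hc : c ≠ 0) : ∃ y : ℂ, ‖y‖ * ‖(c : ℂ)‖ ≤ 2 ∧ Triv x y c := by
  have rep : ∀ t : T, ∃ a : ℝ, |a| ≤ 1 ∧ (a : T) = t := by
    intro t
    obtain ⟨a, ha, e⟩ := AddCircle.eq_coe_Ico t
    exact ⟨a, by rw [abs_le]; constructor <;> linarith [ha.1, ha.2], e⟩
  obtain ⟨a, ha, ea⟩ := rep (x c)
  obtain ⟨b, hb, eb⟩ := rep (x (c * gi ⟨0, 1⟩))
  have hc' : (c : ℂ) ≠ 0 := fun h => hc (Subtype.ext h)
  refine ⟨(a - b * I) / c, ?_, ?_⟩
  · rw [← norm_mul, div_mul_cancel₀ _ hc']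
    refine (norm_sub_le _ _).trans ?_
    simp only [norm_mul, Complex.norm_real, Complex.norm_I, Real.norm_eq_abs]
    linarith
  · rintro ⟨u, v⟩
    have e1 : c * gi ⟨u, v⟩ = (u : kk) * c + (v : kk) * (c * gi ⟨0, 1⟩) := by
      apply Subtype.ext
      push_cast [coe_gi_mk]
      ring
    have e2 : (((a : ℂ) - b * I) / c * ((c * gi ⟨u, v⟩ : kk) : ℂ)).re = u * a + v * b := by
      have : ((a : ℂ) - b * I) / c * ((c * gi ⟨u, v⟩ : kk) : ℂ) = (a - b * I) * (u + v * I) := by
        push_cast [coe_gi_mk]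
        field_simp
      rw [this]
      simp
      ring
    rw [e2]
    conv_lhs => rw [e1, hx, hx.intCast_mul, hx.intCast_mul, ← ea, ← eb]
    rw [AddCircle.coe_add, ← zsmul_eq_mul, ← zsmul_eq_mul, AddCircle.coe_zsmul,
      AddCircle.coe_zsmul]

end Triv

/-- the characters that agree on `S` with a continuous character of parameter in a compact set. -/
theorem isClosed_triv' (S : Set kk) {C : Set ℂ} (hC : IsCompact C) :
    IsClosed {x : kk → T | ∃ y ∈ C, ∀ z ∈ S, x z = ee y z} := by
  have h1 : IsClosed {w : (kk → T) × ℂ | ∀ z ∈ S, w.1 z = ee w.2 z} := by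
    simp only [ofPred_forall]
    exact isClosed_iInter fun z => isClosed_iInter fun _ =>
      isClosed_eq (by fun_prop) ((continuous_ee z).comp continuous_snd)
  have h2 := ((isCompact_univ.prod hC).inter_right h1).image continuous_fst
  convert h2.isClosed using 1
  ext x
  simp

theorem isClosed_triv (S : Set kk) (M : ℝ) :
    IsClosed {x : kk → T | ∃ y : ℂ, ‖y‖ ≤ M ∧ ∀ z ∈ S, x z = ee y z} := by
  simpa using isClosed_triv' S (isCompact_closedBall (0 : ℂ) M)

theorem measurableSet_triv (S : Set kk) :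
    MeasurableSet {x : kk → T | ∃ y : ℂ, ∀ z ∈ S, x z = ee y z} := by
  have : {x : kk → T | ∃ y : ℂ, ∀ z ∈ S, x z = ee y z} =
      ⋃ M : ℕ, {x : kk → T | ∃ y : ℂ, ‖y‖ ≤ M ∧ ∀ z ∈ S, x z = ee y z} := by
    ext x
    simp only [mem_ofPred_eq, mem_iUnion]
    constructor
    · rintro ⟨y, hy⟩
      obtain ⟨M, hM⟩ := exists_nat_ge ‖y‖
      exact ⟨M, y, hM, hy⟩
    · rintro ⟨_, y, -, hy⟩
      exact ⟨y, hy⟩
  rw [this]
  exact MeasurableSet.iUnion fun M => (isClosed_triv S M).measurableSet

/-- a small torsion point of the circle is zero. -/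
theorem torsion_small {n : ℕ} (hn : 0 < n) {a : T} (h : n • a = 0) (hs : ‖a‖ < 1 / n) :
    a = 0 := by
  by_contra h0
  obtain ⟨t, rfl⟩ := QuotientAddGroup.mk_surjective a
  have hn' : (0 : ℝ) < n := by exact_mod_cast hn
  rw [← AddCircle.coe_nsmul, AddCircle.coe_eq_zero_iff] at h
  obtain ⟨k, hk⟩ := h
  rw [AddCircle.norm_eq, inv_one, one_mul, mul_one] at hs
  have e : (n : ℝ) * (t - round t) = ((k - n * round t : ℤ) : ℝ) := by
    push_cast
    simp only [zsmul_eq_mul, mul_one, nsmul_eq_mul] at hk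
    rw [hk]; ring
  have hlt : |((k - n * round t : ℤ) : ℝ)| < 1 := by
    rw [← e, abs_mul, abs_of_pos hn']
    rw [lt_div_iff₀ hn'] at hs
    linarith
  have hz : k - n * round t = 0 := by
    have : |k - n * round t| < 1 := by exact_mod_cast hlt
    exact Int.abs_lt_one_iff.1 this
  rw [hz] at e
  have : t = round t := by
    have := (mul_eq_zero.1 (e.trans Int.cast_zero)).resolve_left hn'.ne'
    linarith
  apply h0
  rw [AddCircle.coe_eq_zero_iff]
  exact ⟨round t, by simpa using this.symm⟩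

/-- the digit that selects an `n`-th part. -/
theorem exists_digit {n : ℕ} (hn : 0 < n) :
    ∃ W : T → Fin n, Measurable W ∧ ∀ a a', n • a = n • a' → W a = W a' → a = a' := by
  have hn' : (0 : ℝ) < n := by exact_mod_cast hn
  let ρ : T → ℝ := fun t => ((AddCircle.measurableEquivIco 1 0 t : Ico (0 : ℝ) (0 + 1)) : ℝ)
  have hρm : Measurable ρ :=
    measurable_subtype_coe.comp (AddCircle.measurableEquivIco 1 0).measurable
  have hρ : ∀ t, 0 ≤ ρ t ∧ ρ t < 1 := fun t => by
    have := (AddCircle.measurableEquivIco 1 0 t).2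
    exact ⟨this.1, by simpa using this.2⟩
  have hρe : ∀ t, ((ρ t : ℝ) : T) = t := fun t =>
    (AddCircle.measurableEquivIco 1 0).symm_apply_apply t
  have hlt : ∀ t, ⌊n * ρ t⌋₊ < n := fun t => by
    rw [Nat.floor_lt (mul_nonneg hn'.le (hρ t).1)]
    nlinarith [(hρ t).2]
  refine ⟨fun t => ⟨⌊n * ρ t⌋₊, hlt t⟩, ?_, ?_⟩
  · refine measurable_to_countable' fun w => ?_
    have : (fun t => (⟨⌊n * ρ t⌋₊, hlt t⟩ : Fin n)) ⁻¹' {w} =
        (fun t => ⌊n * ρ t⌋₊) ⁻¹' {w.1} := by
      ext t; simp [Fin.ext_iff]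
    rw [this]
    exact (Nat.measurable_floor.comp (hρm.const_mul _)) (measurableSet_singleton _)
  · intro a a' h hW
    have hW' : ⌊n * ρ a⌋₊ = ⌊n * ρ a'⌋₊ := congrArg Fin.val hW
    have h1 := Nat.floor_le (mul_nonneg hn'.le (hρ a).1)
    have h2 := Nat.lt_floor_add_one (n * ρ a)
    have h3 := Nat.floor_le (mul_nonneg hn'.le (hρ a').1)
    have h4 := Nat.lt_floor_add_one (n * ρ a')
    rw [hW'] at h1 h2
    rw [← sub_eq_zero]
    refine torsion_small hn (by rw [smul_sub, h, sub_self]) ?_
    rw [← hρe a, ← hρe a', ← AddCircle.coe_sub]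
    refine (QuotientAddGroup.norm_mk_le_norm).trans_lt ?_
    rw [Real.norm_eq_abs, lt_div_iff₀ hn', ← abs_of_pos hn', ← abs_mul, abs_lt]
    constructor <;> nlinarith

/-- the parameter of a continuous character is unique. -/
theorem ee_inj {y y' : ℂ} (h : ∀ z, ee y z = ee y' z) : y = y' := by
  by_contra h0
  obtain ⟨n, hn⟩ := exists_nat_gt ‖y - y'‖
  have hn0 : (0 : ℝ) < n := (norm_nonneg _).trans_lt hn
  have hn1 : (n : kk) ≠ 0 := by
    have : n ≠ 0 := by rintro rfl; simp at hn0
    exact_mod_cast this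
  have h1 : Triv (ee y) y (n : kk)⁻¹ := fun _ => rfl
  have h2 : Triv (ee y) y' (n : kk)⁻¹ := fun _ => h _
  rcases h1.uniq h2 (inv_ne_zero hn1) with e | e
  · exact h0 e
  · have : ‖(((n : kk)⁻¹ : kk) : ℂ)‖ = (n : ℝ)⁻¹ := by simp
    rw [this, ← div_eq_mul_inv, le_div_iff₀ hn0] at e
    linarith

open Classical in
/-- the parameter of a continuous character. -/
noncomputable def Ysel (x : kk → T) : ℂ := if h : x ∈ Xc then (mem_Xc.1 h).choose else 0

theorem Ysel_spec {x : kk → T} (h : x ∈ Xc) (z : kk) : x z = ee (Ysel x) z := by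
  unfold Ysel
  rw [dif_pos h]
  exact (mem_Xc.1 h).choose_spec z

theorem measurableSet_Xc : MeasurableSet Xc := by
  have := measurableSet_triv univ
  simp only [mem_univ, true_imp_iff] at this
  exact this

theorem measurable_Ysel : Measurable Ysel := by
  refine measurable_of_isClosed fun C hC => ?_
  have : Ysel ⁻¹' C = (⋃ M : ℕ, {x : kk → T | ∃ y ∈ C ∩ Metric.closedBall 0 M,
      ∀ z ∈ (univ : Set kk), x z = ee y z}) ∪ (Xcᶜ ∩ {_x | (0 : ℂ) ∈ C}) := by
    ext x
    simp only [mem_preimage, mem_union, mem_iUnion, mem_ofPred_eq, mem_inter_iff, mem_compl_iff,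
      mem_univ, true_imp_iff, mem_closedBall_zero_iff]
    by_cases hx : x ∈ Xc
    · constructor
      · intro h
        obtain ⟨M, hM⟩ := exists_nat_ge ‖Ysel x‖
        exact Or.inl ⟨M, _, ⟨h, hM⟩, Ysel_spec hx⟩
      · rintro (⟨M, y, ⟨hy, -⟩, h⟩ | ⟨h, -⟩)
        · rwa [ee_inj (y := Ysel x) (y' := y) fun z => (Ysel_spec hx z).symm.trans (h z)]
        · exact absurd hx h
    · have e : Ysel x = 0 := dif_neg hx
      rw [e]
      constructor
      · exact fun h => Or.inr ⟨hx, h⟩
      · rintro (⟨M, y, -, h⟩ | ⟨-, h⟩)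
        · exact absurd ⟨y, h⟩ hx
        · exact h
  rw [this]
  refine (MeasurableSet.iUnion fun M => (isClosed_triv' _ ?_).measurableSet).union
    (measurableSet_Xc.compl.inter (MeasurableSet.const _))
  exact (isCompact_closedBall _ _).inter_left hC

end Pool.Agent.MP_66cee2_co.X
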