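import Pool.Agent.MP_66cee2_co.X.KitR

/-
Part R: proved kit, second half (arithmetic at the primes above five).
-/

namespace Pool.Agent.MP_66cee2_co.X

open Set Complex

/-- Gaussian integers `P`, `Q` representing `p` and its conjugate. -/
structure PQ (p : kk) (P Q : GaussianInt) : Prop where
  hP : gi P = p
  hQ : gi Q = 5 / p
  mul : P * Q = 5
  star : star P = Q
  cop : IsCoprime P Q
  res : ∀ r : GaussianInt, ∃ n : ℤ, P ∣ r - n
  int : ∀ n : ℤ, P ∣ (n : GaussianInt) → 5 ∣ n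

theorem gi_five : gi 5 = 5 := map_ofNat gi 5

theorem int_prime_five : Prime (5 : ℤ) := Int.prime_iff_natAbs_prime.2 (by norm_num)

theorem IsP.ne_zero {p : kk} (h : IsP p) : p ≠ 0 := by
  rintro rfl
  rcases h with h | h <;> simpa using congrArg Complex.re h

theorem IsP.exists_PQ {p : kk} (h : IsP p) : ∃ P Q, PQ p P Q := by
  have h0 := h.ne_zero
  have hint : ∀ (P : GaussianInt) (n : ℤ), P.norm = 5 → P ∣ (n : GaussianInt) → 5 ∣ n := by
    rintro P n hn ⟨c, hc⟩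
    have := congrArg Zsqrtd.norm hc
    rw [Zsqrtd.norm_mul, hn, Zsqrtd.norm_intCast] at this
    exact int_prime_five.dvd_of_dvd_pow (n := 2) ⟨c.norm, by rw [sq, this]⟩
  rcases h with h | h
  · have e : gi ⟨2, 1⟩ = p := Subtype.ext (by rw [coe_gi_mk, h]; simp)
    refine ⟨⟨2, 1⟩, ⟨2, -1⟩, e, ?_, by decide, rfl, ⟨⟨2, 1⟩, ⟨0, -2⟩, by decide⟩, ?_,
      fun n => hint _ n (by decide)⟩
    · rw [eq_div_iff h0, ← e, ← map_mul, ← gi_five]
      congr 1
    · rintro ⟨a, b⟩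
      refine ⟨a - 2 * b, ⟨b, 0⟩, ?_⟩
      ext <;> simp
  · have e : gi ⟨2, -1⟩ = p := Subtype.ext (by rw [coe_gi_mk, h]; simp [sub_eq_add_neg])
    refine ⟨⟨2, -1⟩, ⟨2, 1⟩, e, ?_, by decide, rfl, ⟨⟨0, -2⟩, ⟨2, 1⟩, by decide⟩, ?_,
      fun n => hint _ n (by decide)⟩
    · rw [eq_div_iff h0, ← e, ← map_mul, ← gi_five]
      congr 1
    · rintro ⟨a, b⟩
      refine ⟨a + 2 * b, ⟨-b, 0⟩, ?_⟩
      ext <;> simp

theorem IsP.mul_conj {p : kk} (h : IsP p) : p * (5 / p) = 5 := mul_div_cancel₀ _ h.ne_zero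

theorem five_ne_zero : (5 : kk) ≠ 0 := by norm_num

theorem IsP.conj_ne_zero {p : kk} (h : IsP p) : 5 / p ≠ 0 := div_ne_zero five_ne_zero h.ne_zero

theorem IsP.conj_conj {p : kk} (h : IsP p) : 5 / (5 / p) = p := by
  have := h.ne_zero
  field_simp

theorem IsP.conj {p : kk} (h : IsP p) : IsP (5 / p) := by
  have h0 : (p : ℂ) ≠ 0 := fun e => h.ne_zero (Subtype.ext e)
  have e : ((5 / p : kk) : ℂ) = 5 / (p : ℂ) := by push_cast; rfl
  rcases h with h | h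
  · right
    rw [e, div_eq_iff h0, h]
    apply Complex.ext <;> norm_num
  · left
    rw [e, div_eq_iff h0, h]
    apply Complex.ext <;> norm_num

theorem IsP.norm_sq {p : kk} (h : IsP p) : ‖(p : ℂ)‖ ^ 2 = 5 := by
  rw [Complex.sq_norm, Complex.normSq_apply]
  rcases h with h | h <;> rw [h] <;> simp <;> norm_num

theorem IsP.one_le_norm {p : kk} (h : IsP p) : 1 ≤ ‖(p : ℂ)‖ := by
  nlinarith [h.norm_sq, norm_nonneg (p : ℂ)]

theorem IsP.norm_conj {p : kk} (h : IsP p) : ‖((5 / p : kk) : ℂ)‖ = ‖(p : ℂ)‖ :=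
  (pow_left_inj₀ (norm_nonneg _) (norm_nonneg _) two_ne_zero).1 (by rw [h.conj.norm_sq, h.norm_sq])

theorem IsP.norm_quot {p : kk} (h : IsP p) : ‖((5 / p / p : kk) : ℂ)‖ = 1 := by
  have h1 := h.one_le_norm
  rw [Subfield.coe_div, norm_div, h.norm_conj, div_self (by linarith)]

theorem IsP.norm_quot' {p : kk} (h : IsP p) : ‖((p / (5 / p) : kk) : ℂ)‖ = 1 := by
  have h1 := h.one_le_norm
  rw [Subfield.coe_div, norm_div, h.norm_conj, div_self (by linarith)]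

theorem isP_two_add : IsP (gi ⟨2, 1⟩) := Or.inl (by rw [coe_gi_mk]; simp)

namespace PQ

variable {p : kk} {P Q : GaussianInt}

theorem cop_nat (h : PQ p P Q) {N : ℕ} (hN : N.Coprime 5) : IsCoprime P (N : GaussianInt) := by
  have h1 : IsCoprime ((N : ℤ) : GaussianInt) ((5 : ℤ) : GaussianInt) :=
    (Nat.isCoprime_iff_coprime.2 hN).map (Int.castRingHom GaussianInt)
  have h2 : IsCoprime (N : GaussianInt) (P * Q) := by rw [h.mul]; simpa using h1
  exact h2.of_mul_right_left.symm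

/-- every Gaussian integer is congruent to an integer modulo `P ^ h`. -/
theorem res_pow (h : PQ p P Q) (k : ℕ) : ∀ r : GaussianInt, ∃ n : ℤ, P ^ k ∣ r - n := by
  induction k with
  | zero => exact fun r => ⟨0, by simp⟩
  | succ k ih =>
    intro r
    obtain ⟨n₀, r₁, h₁⟩ := h.res r
    obtain ⟨u, v, huv⟩ := (h.cop.pow_left (m := k))
    obtain ⟨n₁, r₂, h₂⟩ := ih (r₁ * v)
    refine ⟨n₀ + 5 * n₁, r₁ * u + Q * r₂, ?_⟩
    have h5 : ((n₀ + 5 * n₁ : ℤ) : GaussianInt) = n₀ + P * Q * n₁ := by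
      rw [h.mul]; push_cast; ring
    rw [h5]
    linear_combination h₁ - P * r₁ * huv + P * Q * h₂

theorem int_pow (h : PQ p P Q) (k : ℕ) : ∀ n : ℤ, P ^ k ∣ (n : GaussianInt) → 5 ^ k ∣ n := by
  induction k with
  | zero => exact fun n _ => by simp
  | succ k ih =>
    intro n hn
    obtain ⟨n', rfl⟩ := h.int n ((dvd_pow_self P k.succ_ne_zero).trans hn)
    have hP0 : P ≠ 0 := by
      rintro rfl
      have := h.mul
      simp at this
    have e : ((5 * n' : ℤ) : GaussianInt) = P * (Q * n') := by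
      rw [← mul_assoc, h.mul]; push_cast; ring
    rw [e, pow_succ', mul_dvd_mul_iff_left hP0] at hn
    have := ih n' ((h.cop.pow_left (m := k)).dvd_of_dvd_mul_left hn)
    rw [pow_succ']
    exact mul_dvd_mul_left 5 this

/-- the class of `N * Q ^ c` generates the residues modulo `P ^ k`. -/
theorem gen (h : PQ p P Q) {N : ℕ} (hN : N.Coprime 5) (c k : ℕ) (r : GaussianInt) :
    ∃ n : ℤ, P ^ k ∣ r - n * (N * Q ^ c) := by
  have hc : IsCoprime (P ^ k) ((N : GaussianInt) * Q ^ c) :=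
    ((h.cop_nat hN).mul_right h.cop.pow_right).pow_left
  obtain ⟨u, v, huv⟩ := hc
  obtain ⟨n, s, hs⟩ := h.res_pow k (r * v)
  exact ⟨n, r * u + s * (N * Q ^ c), by linear_combination (N * Q ^ c) * hs - r * huv⟩

end PQ

section Zp

variable {p : kk}

theorem Zp_gi (p : kk) (r : GaussianInt) : gi r ∈ Zp p := ⟨r, 1, 0, by simp, by simp⟩

theorem Zp_int' (p : kk) (n : ℤ) : (n : kk) ∈ Zp p := by simpa using Zp_gi p n

theorem Zp_nat (p : kk) (n : ℕ) : (n : kk) ∈ Zp p := by simpa using Zp_gi p n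

theorem Zp_zero (p : kk) : (0 : kk) ∈ Zp p := by simpa using Zp_gi p 0

theorem Zp_one (p : kk) : (1 : kk) ∈ Zp p := by simpa using Zp_gi p 1

theorem Zp_mul {z w : kk} (hz : z ∈ Zp p) (hw : w ∈ Zp p) : z * w ∈ Zp p := by
  obtain ⟨r, N, b, hN, e⟩ := hz
  obtain ⟨r', N', b', hN', e'⟩ := hw
  refine ⟨r * r', N * N', b + b', Nat.Coprime.mul_left hN hN', ?_⟩
  rw [map_mul, ← e, ← e']
  push_cast
  ring

theorem Zp_add (hp : IsP p) {z w : kk} (hz : z ∈ Zp p) (hw : w ∈ Zp p) : z + w ∈ Zp p := by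
  obtain ⟨P, Q, h⟩ := hp.exists_PQ
  obtain ⟨r, N, b, hN, e⟩ := hz
  obtain ⟨r', N', b', hN', e'⟩ := hw
  refine ⟨r * (N' * Q ^ b') + r' * (N * Q ^ b), N * N', b + b', Nat.Coprime.mul_left hN hN', ?_⟩
  simp only [map_add, map_mul, map_pow, map_natCast, h.hQ, ← e, ← e']
  push_cast
  ring

theorem Zp_neg {z : kk} (hz : z ∈ Zp p) : -z ∈ Zp p := by
  simpa using Zp_mul (Zp_int' p (-1)) hz

theorem Zp_sub (hp : IsP p) {z w : kk} (hz : z ∈ Zp p) (hw : w ∈ Zp p) : z - w ∈ Zp p := by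
  rw [sub_eq_add_neg]; exact Zp_add hp hz (Zp_neg hw)

theorem Zp_pow {z : kk} (hz : z ∈ Zp p) (n : ℕ) : z ^ n ∈ Zp p := by
  induction n with
  | zero => simpa using Zp_one p
  | succ n ih => rw [pow_succ]; exact Zp_mul ih hz

theorem Zp_p (hp : IsP p) : p ∈ Zp p := by
  obtain ⟨P, Q, h⟩ := hp.exists_PQ
  simpa [h.hP] using Zp_gi p P

theorem Zp_conj (hp : IsP p) : 5 / p ∈ Zp p := by
  obtain ⟨P, Q, h⟩ := hp.exists_PQ
  simpa [h.hQ] using Zp_gi p Q

theorem Zp_conj_inv (hp : IsP p) : (5 / p)⁻¹ ∈ Zp p :=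
  ⟨1, 1, 1, by simp, by rw [pow_one, Nat.cast_one, one_mul, mul_inv_cancel₀ hp.conj_ne_zero, map_one]⟩

theorem Zp_conj_zpow (hp : IsP p) (j : ℤ) : (5 / p) ^ j ∈ Zp p := by
  rcases j with j | j
  · simpa using Zp_pow (Zp_conj hp) j
  · rw [zpow_negSucc, ← inv_pow]
    exact Zp_pow (Zp_conj_inv hp) _

theorem Zp_inv_nat (p : kk) {N : ℕ} (hN : N.Coprime 5) : (N : kk)⁻¹ ∈ Zp p := by
  have : (N : kk) ≠ 0 := by
    have : N ≠ 0 := by rintro rfl; simp at hN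
    exact_mod_cast this
  exact ⟨1, N, 0, hN, by rw [pow_zero, mul_one, mul_inv_cancel₀ this, map_one]⟩

/-- a power of `p` clears the denominator at `p`. -/
theorem Zp_cover (hp : IsP p) (z : kk) : ∃ a : ℕ, p ^ a * z ∈ Zp p := by
  obtain ⟨N, r, hN, e⟩ := exists_den z
  obtain ⟨a, N', hN', rfl⟩ := Nat.exists_eq_pow_mul_and_not_dvd hN.ne' 5 (by norm_num)
  refine ⟨a, r, N', a, ((Nat.Prime.coprime_iff_not_dvd Nat.prime_five).2 hN').symm, ?_⟩
  rw [← e]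
  push_cast
  conv_rhs => rw [← hp.mul_conj]
  ring

/-- integers represent `Zp p` modulo `p ^ k`. -/
theorem Zp_gen (hp : IsP p) {z : kk} (hz : z ∈ Zp p) (k : ℕ) :
    ∃ n : ℤ, (z - n) * p⁻¹ ^ k ∈ Zp p := by
  obtain ⟨P, Q, h⟩ := hp.exists_PQ
  obtain ⟨r, N, b, hN, e⟩ := hz
  obtain ⟨n, s, hs⟩ := h.gen hN b k r
  refine ⟨n, s, N, b, hN, ?_⟩
  have := congrArg gi hs
  simp only [map_sub, map_mul, map_pow, map_natCast, map_intCast, h.hP, h.hQ, ← e] at this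
  have h0 := hp.ne_zero
  rw [inv_pow]
  field_simp
  field_simp at this
  linear_combination this

theorem Zp_gen_cover (hp : IsP p) {z : kk} {a : ℕ} (hz : p ^ a * z ∈ Zp p) :
    ∃ n : ℤ, z - n * p⁻¹ ^ a ∈ Zp p := by
  obtain ⟨n, hn⟩ := Zp_gen hp hz a
  refine ⟨n, ?_⟩
  convert hn using 1
  have h0 := hp.ne_zero
  rw [inv_pow]
  field_simp

theorem Zp_gen' (hp : IsP p) (l : kk) :
    ∃ a : ℕ, ∀ z ∈ Zp p, ∃ n : ℤ, l * z - n * p⁻¹ ^ a ∈ Zp p := by
  obtain ⟨a, ha⟩ := Zp_cover hp l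
  exact ⟨a, fun z hz => Zp_gen_cover hp (by rw [← mul_assoc]; exact Zp_mul ha hz)⟩

/-- an integer divisible by `p ^ k` in `Zp p` is divisible by `5 ^ k`. -/
theorem Zp_int (hp : IsP p) {n : ℤ} {k : ℕ} (hn : (n : kk) * p⁻¹ ^ k ∈ Zp p) : 5 ^ k ∣ n := by
  obtain ⟨P, Q, h⟩ := hp.exists_PQ
  obtain ⟨r, N, b, hN, e⟩ := hn
  have h0 := hp.ne_zero
  have e' : ((N : GaussianInt) * Q ^ b) * n = P ^ k * r := by
    apply gi_injective
    simp only [map_mul, map_pow, map_natCast, map_intCast, h.hP, h.hQ, ← e, inv_pow]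
    field_simp
  have hc : IsCoprime (P ^ k) ((N : GaussianInt) * Q ^ b) :=
    ((h.cop_nat hN).mul_right h.cop.pow_right).pow_left
  exact h.int_pow k n (hc.dvd_of_dvd_mul_left ⟨r, e'⟩)

theorem Zp_inv_gi (hp : IsP p) {P Q r : GaussianInt} (h : PQ p P Q) (hr : ¬ P ∣ r) :
    (gi r)⁻¹ ∈ Zp p := by
  have hr0 : r ≠ 0 := by rintro rfl; exact hr (dvd_zero _)
  have hn0 : r.norm.natAbs ≠ 0 := by
    rw [Int.natAbs_ne_zero, Ne, GaussianInt.norm_eq_zero]
    exact hr0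
  obtain ⟨a, N, hN, e⟩ := Nat.exists_eq_pow_mul_and_not_dvd hn0 5 (by norm_num)
  have hN' := ((Nat.Prime.coprime_iff_not_dvd Nat.prime_five).2 hN).symm
  have hcop : IsCoprime P r := by
    obtain ⟨n, s, hs⟩ := h.res r
    have hn : ¬ (5 : ℤ) ∣ n := by
      rintro ⟨c, rfl⟩
      refine hr ⟨s + Q * c, ?_⟩
      have : ((5 * c : ℤ) : GaussianInt) = P * Q * c := by rw [h.mul]; push_cast; ring
      rw [this] at hs
      linear_combination hs
    have h1 : IsCoprime (5 : ℤ) n := (int_prime_five.irreducible.coprime_iff_not_dvd).2 hn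
    obtain ⟨u, v, huv⟩ := h1
    have h2 : (u : GaussianInt) * (P * Q) + v * n = 1 := by
      rw [h.mul]; exact_mod_cast huv
    exact ⟨u * Q - v * s, v, by linear_combination h2 + v * hs⟩
  have e1 : r * star r = P ^ a * (Q ^ a * N) := by
    rw [← Zsqrtd.norm_eq_mul_conj, ← mul_assoc, ← mul_pow, h.mul, ← GaussianInt.abs_natCast_norm,
      e]
    push_cast
    rfl
  obtain ⟨s, hs⟩ := (hcop.pow_left (m := a)).dvd_of_dvd_mul_left ⟨_, e1⟩
  have hP0 : P ^ a ≠ 0 := pow_ne_zero _ (by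
    rintro rfl
    exact hp.ne_zero (by rw [← h.hP, map_zero]))
  have e2 : r * s = Q ^ a * N := by
    apply mul_left_cancel₀ hP0
    rw [← e1, hs]; ring
  refine ⟨s, N, a, hN', ?_⟩
  have g0 : gi r ≠ 0 := fun e => hr0 (gi_injective (by rw [e, map_zero]))
  have := congrArg gi e2
  simp only [map_mul, map_pow, map_natCast, h.hQ] at this
  rw [mul_inv_eq_iff_eq_mul₀ g0]
  linear_combination -this

/-- every nonzero element is a unit at `p` times a power of `p`. -/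
theorem Zp_unit (hp : IsP p) {z : kk} (hz : z ≠ 0) :
    ∃ j : ℤ, z * p ^ j ∈ Zp p ∧ (z * p ^ j)⁻¹ ∈ Zp p := by
  obtain ⟨P, Q, h⟩ := hp.exists_PQ
  obtain ⟨a, r, N, b, hN, e⟩ := Zp_cover hp z
  have h0 := hp.ne_zero
  have hq := hp.conj_ne_zero
  have hN0 : (N : kk) ≠ 0 := by
    have : N ≠ 0 := by rintro rfl; simp at hN
    exact_mod_cast this
  have hr0 : r ≠ 0 := by
    rintro rfl
    rw [map_zero] at e
    exact mul_ne_zero (mul_ne_zero hN0 (pow_ne_zero _ hq)) (mul_ne_zero (pow_ne_zero _ h0) hz) e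
  have hPu : ¬ IsUnit P := fun hu => by
    have := h.int 1 (by simpa using hu.dvd)
    omega
  obtain ⟨k, s, hs, rfl⟩ := WfDvdMonoid.max_power_factor' hr0 hPu
  simp only [map_mul, map_pow, h.hP] at e
  have e1 : z * p ^ ((a : ℤ) - k) = gi s * (N : kk)⁻¹ * (5 / p)⁻¹ ^ b := by
    rw [zpow_sub₀ h0, zpow_natCast, zpow_natCast, inv_pow]
    generalize 5 / p = q at *
    field_simp
    linear_combination e
  refine ⟨(a : ℤ) - k, ?_, ?_⟩
  · rw [e1]
    exact Zp_mul (Zp_mul (Zp_gi p s) (Zp_inv_nat p hN)) (Zp_pow (Zp_conj_inv hp) b)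
  · rw [e1, mul_inv, mul_inv, inv_inv, inv_pow, inv_inv]
    exact Zp_mul (Zp_mul (Zp_inv_gi hp h hs) (Zp_nat p N)) (Zp_pow (Zp_conj hp) b)

/-- the value at `p⁻¹ ^ a` is a `5 ^ a`-th part of a value on `Zp p`. -/
theorem IsChar.five_pow {x : kk → T} (hx : IsChar x) (p : kk) (a : ℕ) :
    5 ^ a • x (p⁻¹ ^ a) = x ((5 / p) ^ a) := by
  rw [← hx.natCast_mul]
  congr 1
  push_cast
  rw [← mul_pow, div_eq_mul_inv]

/-- characters that agree on `Zp p` and at `p⁻¹ ^ a` agree at level `a`. -/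
theorem agree_level (hp : IsP p) {x x' : kk → T} (hx : IsChar x) (hx' : IsChar x')
    (h : ∀ z ∈ Zp p, x z = x' z) {a : ℕ} (ha : x (p⁻¹ ^ a) = x' (p⁻¹ ^ a)) {z : kk}
    (hz : p ^ a * z ∈ Zp p) : x z = x' z := by
  obtain ⟨n, hn⟩ := Zp_gen_cover hp hz
  have := h _ hn
  rw [hx.map_sub, hx'.map_sub, hx.intCast_mul, hx'.intCast_mul, ha] at this
  exact sub_left_injective this

/-- the levels increase. -/
theorem agree_mono (hp : IsP p) {x x' : kk → T} (hx : IsChar x) (hx' : IsChar x')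
    (h : ∀ z ∈ Zp p, x z = x' z) {a b : ℕ} (hab : a ≤ b) (hb : x (p⁻¹ ^ b) = x' (p⁻¹ ^ b)) :
    x (p⁻¹ ^ a) = x' (p⁻¹ ^ a) := by
  refine agree_level hp hx hx' h hb ?_
  obtain ⟨c, rfl⟩ := Nat.exists_eq_add_of_le hab
  have h0 := hp.ne_zero
  have : p ^ (a + c) * p⁻¹ ^ a = p ^ c := by rw [inv_pow, pow_add]; field_simp
  rw [this]
  exact Zp_pow (Zp_p hp) c

/-- characters that agree on `Zp p` and at `p⁻¹ ^ a` for all large `a` are equal. -/
theorem agree_all (hp : IsP p) {x x' : kk → T} (hx : IsChar x) (hx' : IsChar x')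
    (h : ∀ z ∈ Zp p, x z = x' z) (m : ℕ) (ha : ∀ a, m ≤ a → x (p⁻¹ ^ a) = x' (p⁻¹ ^ a)) :
    x = x' := by
  funext z
  obtain ⟨a, hz⟩ := Zp_cover hp z
  exact agree_level hp hx hx' h
    (agree_mono hp hx hx' h (le_max_left a m) (ha _ (le_max_right a m))) hz

end Zp

end Pool.Agent.MP_66cee2_co.X
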