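import Mathlib

/-!
Formal power series: supports, coefficients with respect to a set of variables, descent of linear
relations.
-/

namespace Pool.Agent.MP_66cee2_co.X.Seg

open MvPowerSeries Finsupp
open scoped Classical

variable {σ τ k : Type} [Field k]

instance : IsDomain (MvPowerSeries σ k) := NoZeroDivisors.to_isDomain _

/-- All monomials that occur satisfy `p`. -/
def Supp (p : (σ →₀ ℕ) → Prop) (φ : MvPowerSeries σ k) : Prop := ∀ e, coeff e φ ≠ 0 → p e

section Supp

variable {p q r : (σ →₀ ℕ) → Prop} {φ ψ : MvPowerSeries σ k}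

theorem Supp.mono (h : Supp p φ) (hp : ∀ e, p e → q e) : Supp q φ := fun e he => hp e (h e he)

theorem Supp.and (h : Supp p φ) (h' : Supp q φ) : Supp (fun e => p e ∧ q e) φ :=
  fun e he => ⟨h e he, h' e he⟩

theorem Supp.zero : Supp p (0 : MvPowerSeries σ k) := fun _ he => absurd (map_zero _) he

theorem Supp.add (h : Supp p φ) (h' : Supp p ψ) : Supp p (φ + ψ) := fun e he => by
  by_contra hp
  exact he (by rw [map_add, not_not.1 (mt (h e) hp), not_not.1 (mt (h' e) hp), add_zero])

theorem Supp.neg (h : Supp p φ) : Supp p (-φ) := fun e he => h e (by simpa using he)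

theorem Supp.sub (h : Supp p φ) (h' : Supp p ψ) : Supp p (φ - ψ) := by
  rw [sub_eq_add_neg]; exact h.add h'.neg

theorem Supp.sum {ι : Type} (s : Finset ι) {f : ι → MvPowerSeries σ k}
    (h : ∀ i ∈ s, Supp p (f i)) : Supp p (∑ i ∈ s, f i) :=
  Finset.sum_induction _ _ (fun _ _ => Supp.add) Supp.zero h

theorem Supp.mul (h : Supp p φ) (h' : Supp q ψ) (hr : ∀ a b, p a → q b → r (a + b)) :
    Supp r (φ * ψ) := fun e he => by
  rw [coeff_mul] at he
  obtain ⟨x, hx, h1⟩ := Finset.exists_ne_zero_of_sum_ne_zero he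
  rw [← Finset.HasAntidiagonal.mem_antidiagonal.1 hx]
  exact hr _ _ (h _ (left_ne_zero_of_mul h1)) (h' _ (right_ne_zero_of_mul h1))

theorem Supp.monomial {m : σ →₀ ℕ} (h : p m) (c : k) : Supp p (monomial m c) := fun e he => by
  by_cases hm : e = m
  · rwa [hm]
  · exact absurd (coeff_monomial_ne hm c) he

theorem Supp.C (h : p 0) (c : k) : Supp p (C c : MvPowerSeries σ k) := Supp.monomial h c

theorem Supp.var {v : σ} (h : p (single v 1)) : Supp p (X v : MvPowerSeries σ k) :=
  Supp.monomial h 1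

/-- The series supported on a submonoid of monomials. -/
def suppRing (k : Type) [Field k] (p : (σ →₀ ℕ) → Prop) (h0 : p 0)
    (h : ∀ a b, p a → p b → p (a + b)) : Subring (MvPowerSeries σ k) where
  carrier := {φ | Supp p φ}
  mul_mem' ha hb := ha.mul hb h
  one_mem' := Supp.C h0 1
  add_mem' := Supp.add
  zero_mem' := Supp.zero
  neg_mem' := Supp.neg

theorem supp_prod {a : σ → MvPowerSeries τ k} (R : (σ →₀ ℕ) → (τ →₀ ℕ) → Prop) (h0 : R 0 0)
    (hR : ∀ d d' e e', R d e → R d' e' → R (d + d') (e + e'))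
    (hv : ∀ v, Supp (R (single v 1)) (a v)) (d : σ →₀ ℕ) :
    Supp (R d) (d.prod fun s n => a s ^ n) := by
  induction d using Finsupp.induction_linear with
  | zero => exact Supp.C h0 1
  | add d d' h h' =>
    rw [prod_add_index' (fun _ => pow_zero _) fun _ _ _ => pow_add _ _ _]
    exact h.mul h' (hR _ _)
  | single v n =>
    rw [prod_single_index (h := fun s n => a s ^ n) (pow_zero _)]
    induction n with
    | zero => rw [single_zero]; exact Supp.C h0 1
    | succ n ih => rw [pow_succ, single_add]; exact ih.mul (hv v) (hR _ _)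

theorem supp_subst {a : σ → MvPowerSeries τ k} (ha : HasSubst a)
    (R : (σ →₀ ℕ) → (τ →₀ ℕ) → Prop) (h0 : R 0 0)
    (hR : ∀ d d' e e', R d e → R d' e' → R (d + d') (e + e'))
    (hv : ∀ v, Supp (R (single v 1)) (a v)) (φ : MvPowerSeries σ k) :
    Supp (fun e => ∃ d, coeff d φ ≠ 0 ∧ R d e) (subst a φ) := fun e he => by
  by_contra h
  refine he ?_
  rw [coeff_subst ha, finsum_eq_zero_of_forall_eq_zero]
  intro d
  by_contra h1
  exact h ⟨d, left_ne_zero_of_smul h1, supp_prod R h0 hR hv d e (right_ne_zero_of_smul h1)⟩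

theorem subst_mem {a : σ → MvPowerSeries τ k} (ha : HasSubst a) {p : (τ →₀ ℕ) → Prop} (h0 : p 0)
    (h : ∀ a b, p a → p b → p (a + b)) (hv : ∀ v, Supp p (a v)) (φ : MvPowerSeries σ k) :
    Supp p (subst a φ) :=
  (supp_subst ha (fun _ e => p e) h0 (fun _ _ _ _ => h _ _) hv φ).mono fun _ ⟨_, _, h⟩ => h

end Supp

section Cf

variable (S : σ → Prop)

/-- No variable of `S` occurs. -/
def Free (φ : MvPowerSeries σ k) : Prop := Supp (fun e => e.filter S = 0) φ

/-- The coefficient of the monomial `m` in the variables of `S`. -/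
noncomputable def cf (m : σ →₀ ℕ) : MvPowerSeries σ k →+ MvPowerSeries σ k where
  toFun φ := fun e => if e.filter S = 0 then coeff (e + m) φ else 0
  map_zero' := by funext e; simp; rfl
  map_add' φ ψ := by
    funext e
    change (if e.filter S = 0 then coeff (e + m) (φ + ψ) else 0) =
      (if e.filter S = 0 then coeff (e + m) φ else 0) +
        (if e.filter S = 0 then coeff (e + m) ψ else 0)
    split_ifs <;> simp

variable {S}

theorem coeff_cf (m e : σ →₀ ℕ) (φ : MvPowerSeries σ k) :
    coeff e (cf S m φ) = if e.filter S = 0 then coeff (e + m) φ else 0 := rfl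

theorem Supp.cf {p : (σ →₀ ℕ) → Prop} {φ : MvPowerSeries σ k} (h : Supp p φ) (m : σ →₀ ℕ) :
    Supp (fun e => e.filter S = 0 ∧ p (e + m)) (cf S m φ) := fun e he => by
  rw [coeff_cf] at he
  split_ifs at he with h1
  · exact ⟨h1, h _ he⟩
  · exact absurd rfl he

theorem free_cf (m : σ →₀ ℕ) (φ : MvPowerSeries σ k) : Free S (cf S m φ) :=
  (Supp.cf (p := fun _ => True) (fun _ _ => trivial) m).mono fun _ h => h.1

theorem filter_add_zero {a b : σ →₀ ℕ} (h : (a + b).filter S = 0) :
    a.filter S = 0 ∧ b.filter S = 0 := by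
  rwa [filter_add, add_eq_zero] at h

theorem Free.mul {φ ψ : MvPowerSeries σ k} (h : Free S φ) (h' : Free S ψ) : Free S (φ * ψ) :=
  Supp.mul h h' fun a b ha hb => by rw [filter_add, ha, hb, add_zero]

theorem cf_mul {y : MvPowerSeries σ k} (hy : Free S y) {m : σ →₀ ℕ} (hm : m.filter S = m)
    (φ : MvPowerSeries σ k) : cf S m (y * φ) = y * cf S m φ := by
  ext e
  rw [coeff_cf]
  split_ifs with he
  · rw [coeff_mul, coeff_mul, eq_comm]
    refine Finset.sum_of_injOn (fun p => (p.1, p.2 + m)) ?_ ?_ ?_ ?_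
    · rintro ⟨a, b⟩ _ ⟨a', b'⟩ _ h
      simpa using h
    · rintro ⟨a, b⟩ h
      simp only [Finset.mem_coe, Finset.HasAntidiagonal.mem_antidiagonal] at h ⊢
      rw [← h, add_assoc]
    · rintro ⟨a, b⟩ h h'
      rw [Finset.HasAntidiagonal.mem_antidiagonal] at h
      by_contra h1
      have h2 := hy a (left_ne_zero_of_mul h1)
      have h3 : m ≤ b := fun v => by
        have h4 := DFunLike.congr_fun h v
        have h5 := DFunLike.congr_fun h2 v
        have h6 := DFunLike.congr_fun hm v
        simp only [filter_apply, Finsupp.add_apply, Finsupp.zero_apply] at h4 h5 h6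
        split_ifs at h5 h6 <;> omega
      obtain ⟨c, rfl⟩ := exists_add_of_le h3
      refine h' ⟨(a, c), ?_, by simp [add_comm]⟩
      simp only [Finset.mem_coe, Finset.HasAntidiagonal.mem_antidiagonal] at h ⊢
      exact add_right_cancel (b := m) (by rw [← h]; abel)
    · rintro ⟨a, b⟩ h
      rw [Finset.HasAntidiagonal.mem_antidiagonal] at h
      rw [coeff_cf, if_pos (filter_add_zero (h ▸ he :)).2]
  · by_contra h
    exact he (hy.mul (free_cf m φ) e (Ne.symm h))

theorem mono_cf {m : σ →₀ ℕ} (hm : m.filter S = m) (φ : MvPowerSeries σ k) (e : σ →₀ ℕ) :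
    coeff e (monomial m 1 * cf S m φ) = if e.filter S = m then coeff e φ else 0 := by
  rw [coeff_monomial_mul, one_mul, coeff_cf]
  by_cases h : m ≤ e
  · obtain ⟨c, rfl⟩ := exists_add_of_le h
    simp [filter_add, hm, add_comm c m]
  · rw [if_neg h, if_neg]
    rintro rfl
    exact h fun v => by rw [filter_apply]; split_ifs <;> simp

theorem filter_filter (e : σ →₀ ℕ) : (e.filter S).filter S = e.filter S := by
  ext v
  simp only [filter_apply]
  split_ifs <;> rfl

theorem cf_ext {φ : MvPowerSeries σ k} (h : ∀ m, m.filter S = m → cf S m φ = 0) : φ = 0 := by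
  ext e
  have := mono_cf (filter_filter (S := S) e) φ e
  rw [h _ (filter_filter e), if_pos rfl] at this
  simpa using this.symm

theorem cf_monomial {m m' : σ →₀ ℕ} (hm : m.filter S = m) (hm' : m'.filter S = m') :
    cf S m (monomial m' (1 : k)) = if m = m' then 1 else 0 := by
  ext e
  rw [coeff_cf, coeff_monomial]
  by_cases he : e.filter S = 0
  · have h1 : e + m = m' ↔ e = 0 ∧ m = m' := by
      refine ⟨fun h => ?_, by rintro ⟨rfl, rfl⟩; simp⟩
      have h2 : m = m' := by rw [← hm', ← h, filter_add, he, hm, zero_add]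
      exact ⟨by simpa [h2] using h, h2⟩
    by_cases h2 : m = m' <;> simp [he, h1, h2, coeff_one]
  · have h1 : e ≠ 0 := by rintro rfl; exact he (filter_zero _)
    by_cases h2 : m = m' <;> simp [he, h1, h2, coeff_one]

theorem cf_eq_zero {m : σ →₀ ℕ} (hm : m.filter S = m) {φ : MvPowerSeries σ k}
    (h : Supp (fun e => e.filter S ≠ m) φ) : cf S m φ = 0 := by
  ext e
  by_contra h1
  obtain ⟨h2, h3⟩ := h.cf m e h1
  exact h3 (by rw [filter_add, h2, hm, zero_add])

theorem expand {Γ : Finset (σ →₀ ℕ)} (hΓ : ∀ m ∈ Γ, m.filter S = m) {φ : MvPowerSeries σ k}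
    (h : Supp (fun e => e.filter S ∈ Γ) φ) : φ = ∑ m ∈ Γ, monomial m 1 * cf S m φ := by
  ext e
  rw [map_sum, Finset.sum_congr rfl fun m hm => mono_cf (hΓ m hm) φ e, Finset.sum_ite_eq]
  split_ifs with h1
  · rfl
  · exact not_not.1 (mt (h e) h1)

/-- A substitution that does not move the variables outside `S` fixes the series free of `S`. -/
theorem subst_free {a : σ → MvPowerSeries σ k} (ha : HasSubst a) (h : ∀ v, ¬S v → a v = X v)
    {φ : MvPowerSeries σ k} (hφ : Free S φ) : subst a φ = φ := by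
  conv_rhs => rw [← id_eq φ, ← subst_self]
  ext e
  rw [coeff_subst ha, coeff_subst HasSubst.X]
  refine finsum_congr fun d => ?_
  by_cases hd : coeff d φ = 0
  · simp [hd]
  · rw [prod_congr fun v hv => by
      rw [h v fun hS => by
        have := DFunLike.congr_fun (hφ d hd) v
        rw [filter_apply, if_pos hS] at this
        exact mem_support_iff.1 hv this]]

theorem free_subst {a : σ → MvPowerSeries σ k} (ha : HasSubst a) (h : ∀ v, S v → a v = X v)
    (h' : ∀ v, ¬S v → Free S (a v)) (φ : MvPowerSeries σ k) :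
    Supp (fun e => ∃ d, coeff d φ ≠ 0 ∧ e.filter S = d.filter S) (subst a φ) := by
  refine supp_subst ha (fun d e => e.filter S = d.filter S) rfl
    (fun _ _ _ _ h h' => by rw [filter_add, filter_add, h, h']) (fun v => ?_) φ
  by_cases hv : S v
  · rw [h v hv]
    exact Supp.var rfl
  · exact (h' v hv).mono fun e he => by rw [he, filter_single_of_neg _ hv]

theorem cf_subst {a : σ → MvPowerSeries σ k} (ha : HasSubst a) (h : ∀ v, S v → a v = X v)
    (h' : ∀ v, ¬S v → Free S (a v)) {m : σ →₀ ℕ} (hm : m.filter S = m) (φ : MvPowerSeries σ k) :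
    cf S m (subst a φ) = subst a (cf S m φ) := by
  have h1 : Supp (fun e => e.filter S ≠ m) (φ - monomial m 1 * cf S m φ) := fun e he hm' =>
    he (by rw [map_sub, mono_cf hm, if_pos hm', sub_self])
  have h2 : subst a (monomial m (1 : k)) = monomial m 1 := by
    rw [subst_monomial ha, map_one, one_mul, monomial_one_eq]
    refine prod_congr fun v hv => ?_
    rw [h v]
    by_contra hS
    exact mem_support_iff.1 hv (by rw [← hm, filter_apply, if_neg hS])
  have h3 := cf_eq_zero hm ((free_subst ha h h' _).mono fun e ⟨d, hd, he⟩ => he ▸ h1 d hd)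
  have h4 : Free S (subst a (cf S m φ)) :=
    (free_subst ha h h' _).mono fun e ⟨d, hd, he⟩ => he.trans (free_cf m φ d hd)
  rw [subst_sub ha, subst_mul ha, h2, map_sub, mul_comm, cf_mul h4 hm, cf_monomial hm hm,
    if_pos rfl, mul_one, sub_eq_zero] at h3
  exact h3

end Cf

/-- A linear system with coefficients in a subring that has a solution has one in the subring. -/
theorem descent0 {Ω κ ι : Type} [CommRing Ω] [IsDomain Ω] [Fintype κ] (B : Subring Ω)
    (Φ : κ → ι → Ω) (hΦ : ∀ j i, Φ j i ∈ B) (x : κ → Ω) (h : ∀ i, ∑ j, x j * Φ j i = 0) (j₀ : κ)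
    (h0 : x j₀ ≠ 0) : ∃ y : κ → Ω, (∀ j, y j ∈ B) ∧ (∀ i, ∑ j, y j * Φ j i = 0) ∧ y j₀ ≠ 0 ∧
      ∀ j, x j = 0 → y j = 0 := by
  have : FaithfulSMul B (FractionRing Ω) := (faithfulSMul_iff_algebraMap_injective _ _).2
    ((IsFractionRing.injective Ω (FractionRing Ω)).comp B.subtype_injective)
  let _ : Algebra (FractionRing B) (FractionRing Ω) := FractionRing.liftAlgebra B _
  obtain ⟨f, hf⟩ := Module.Projective.exists_dual_ne_zero (FractionRing B)
    ((map_ne_zero_iff _ (IsFractionRing.injective Ω (FractionRing Ω))).2 h0)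
  obtain ⟨b, hb⟩ := IsLocalization.exist_integer_multiples_of_finite (nonZeroDivisors B)
    fun j => f (algebraMap Ω _ (x j))
  choose y hy using hb
  have hb0 : algebraMap B (FractionRing B) b ≠ 0 :=
    (map_ne_zero_iff _ (IsFractionRing.injective B _)).2 (nonZeroDivisors.coe_ne_zero b)
  have hz : ∀ j, y j = 0 ↔ f (algebraMap Ω _ (x j)) = 0 := fun j => by
    rw [← map_eq_zero_iff _ (IsFractionRing.injective B (FractionRing B)), hy, Algebra.smul_def,
      mul_eq_zero, or_iff_right hb0]
  refine ⟨fun j => y j, fun j => (y j).2, fun i => ?_, fun e => hf ((hz _).1 (Subtype.ext e)),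
    fun j hj => congrArg Subtype.val ((hz j).2 (by rw [hj, map_zero, map_zero]))⟩
  have h1 : ∑ j, y j * (⟨Φ j i, hΦ j i⟩ : B) = 0 := by
    apply IsFractionRing.injective B (FractionRing B)
    have h2 := congrArg (fun t => (b : B) • f (algebraMap Ω (FractionRing Ω) t)) (h i)
    simp only [map_sum, map_zero, smul_zero, Finset.smul_sum] at h2
    rw [map_sum, map_zero, ← h2]
    refine Finset.sum_congr rfl fun j _ => ?_
    rw [map_mul, hy, smul_mul_assoc, mul_comm, ← smul_eq_mul, ← map_smul, algebraMap_smul,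
      map_mul, mul_comm, Algebra.smul_def (A := FractionRing Ω)]
    rfl
  simpa using congrArg B.subtype h1

theorem descent (S : σ → Prop) {κ ι : Type} [Fintype κ] (B : Subring (MvPowerSeries σ k))
    (hB : ∀ x ∈ B, Free S x) (Φ : κ → ι → MvPowerSeries σ k)
    (hΦ : ∀ j i m, m.filter S = m → cf S m (Φ j i) ∈ B) (x : κ → MvPowerSeries σ k)
    (hx : ∀ j, Free S (x j)) (h : ∀ i, ∑ j, x j * Φ j i = 0) (j₀ : κ) (h0 : x j₀ ≠ 0) :
    ∃ y : κ → MvPowerSeries σ k, (∀ j, y j ∈ B) ∧ (∀ i, ∑ j, y j * Φ j i = 0) ∧ y j₀ ≠ 0 ∧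
      ∀ j, x j = 0 → y j = 0 := by
  obtain ⟨y, h1, h2, h3⟩ := descent0 B
    (fun j (i : ι × {m : σ →₀ ℕ // m.filter S = m}) => cf S i.2.1 (Φ j i.1))
    (fun j i => hΦ j i.1 _ i.2.2) x (fun i => by
      rw [← Finset.sum_congr rfl fun j _ => cf_mul (hx j) i.2.2 _, ← map_sum, h, map_zero]) j₀ h0
  refine ⟨y, h1, fun i => cf_ext (S := S) fun m hm => ?_, h3⟩
  rw [map_sum, Finset.sum_congr rfl fun j _ => cf_mul (hB _ (h1 j)) hm _]
  exact h2 (i, ⟨m, hm⟩)

end Pool.Agent.MP_66cee2_co.X.Seg
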