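import Pool.Agent.MP_66cee2_co.X.SegA

/-!
Separately rational implies rational, and removal of a homogenising variable.
-/

namespace Pool.Agent.MP_66cee2_co.X.Seg

open MvPowerSeries Finsupp
open scoped Classical

variable {σ ι k : Type} [Field k]

/-- Proportional vectors. -/
def Pr (x y : ι → MvPowerSeries σ k) : Prop := ∀ i j, x i * y j = x j * y i

theorem Pr.symm {x y : ι → MvPowerSeries σ k} (h : Pr x y) : Pr y x := fun i j => by
  rw [mul_comm, h, mul_comm]

theorem Pr.trans {x y z : ι → MvPowerSeries σ k} (h : Pr x y) (h' : Pr y z) (hy : y ≠ 0) :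
    Pr x z := fun i j => by
  obtain ⟨l, hl⟩ := Function.ne_iff.1 hy
  refine mul_left_cancel₀ hl ?_
  linear_combination z j * h i l + x l * h' i j + z i * h l j

/-- The series free of the variables in `S`. -/
def freeRing (k : Type) [Field k] (S : σ → Prop) : Subring (MvPowerSeries σ k) :=
  suppRing k (fun e => e.filter S = 0) (filter_zero _)
    fun a b ha hb => by rw [filter_add, ha, hb, add_zero]

/-- The series of bounded degree in the variable `v`. -/
def bdRing (k : Type) [Field k] (v : σ) : Subring (MvPowerSeries σ k) where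
  carrier := {φ | ∃ D, Supp (fun e => e v ≤ D) φ}
  mul_mem' := fun ⟨D, h⟩ ⟨D', h'⟩ => ⟨D + D', h.mul h' fun _ _ => add_le_add⟩
  one_mem' := ⟨0, Supp.C (p := fun e => e v ≤ 0) le_rfl (1 : k)⟩
  add_mem' := fun ⟨D, h⟩ ⟨D', h'⟩ => ⟨D + D', (h.mono fun _ h => by omega).add
    (h'.mono fun _ h => by omega)⟩
  zero_mem' := ⟨0, Supp.zero⟩
  neg_mem' := fun ⟨D, h⟩ => ⟨D, h.neg⟩

theorem mem_bd {v : σ} {φ : MvPowerSeries σ k} :
    φ ∈ bdRing k v ↔ ∃ D, Supp (fun e => e v ≤ D) φ := Iff.rfl

theorem cf_free {A S : σ → Prop} {φ : MvPowerSeries σ k} (h : φ ∈ freeRing k A) (m : σ →₀ ℕ) :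
    cf S m φ ∈ freeRing k A := (Supp.cf h m).mono fun _ h => (filter_add_zero h.2).1

theorem cf_bd {S : σ → Prop} {v : σ} {φ : MvPowerSeries σ k} (h : φ ∈ bdRing k v) (m : σ →₀ ℕ) :
    cf S m φ ∈ bdRing k v :=
  let ⟨D, h⟩ := mem_bd.1 h
  mem_bd.2 ⟨D, (h.cf m).mono fun _ h => le_trans le_self_add h.2⟩

theorem sep_rat [Fintype σ] [Fintype ι] (A : σ → Prop) (T : Finset σ) (hT : ∀ v ∈ T, ¬A v)
    (Z : ι → MvPowerSeries σ k) (hZ : Z ≠ 0) (hA : ∀ i, Z i ∈ freeRing k A)
    (h : ∀ v ∈ T, ∃ y ≠ 0, (∀ i, y i ∈ freeRing k A ∧ y i ∈ bdRing k v) ∧ Pr y Z) :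
    ∃ x ≠ 0, (∀ i, x i ∈ freeRing k A ∧ ∀ v ∈ T, x i ∈ bdRing k v) ∧ Pr x Z := by
  induction T using Finset.induction_on with
  | empty => exact ⟨Z, hZ, fun i => ⟨hA i, by simp⟩, fun i j => mul_comm _ _⟩
  | insert v T _ ih =>
    obtain ⟨x, hx0, hx, hxZ⟩ := ih (fun w hw => hT w (by simp [hw])) fun w hw => h w (by simp [hw])
    obtain ⟨y, hy0, hy, hyZ⟩ := h v (by simp)
    obtain ⟨S, hS⟩ : ∃ S : σ → Prop, ∀ w, S w ↔ w ∈ T := ⟨_, fun _ => Iff.rfl⟩
    choose! D hD using fun i w hw => mem_bd.1 ((hx i).2 w hw)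
    let Γ := (Finset.Iic (equivFunOnFinite.symm fun w => ∑ i, D i w)).filter
      fun m => m.filter S = m
    have hΓ : ∀ m ∈ Γ, m.filter S = m := fun m hm => (Finset.mem_filter.1 hm).2
    have hexp : ∀ i, x i = ∑ m : Γ, monomial m.1 1 * cf S m.1 (x i) := fun i => by
      rw [Finset.sum_coe_sort Γ fun m => monomial m 1 * cf S m (x i)]
      refine expand hΓ fun e he => Finset.mem_filter.2 ⟨Finset.mem_Iic.2 fun w => ?_, ?_⟩
      · rw [filter_apply]
        split_ifs with hw
        · exact (hD i w ((hS w).1 hw) e he).trans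
            (Finset.single_le_sum (f := fun i => D i w) (by simp) (Finset.mem_univ i))
        · exact Nat.zero_le _
      · exact filter_filter e
    have hmA : ∀ m : Γ, monomial m.1 (1 : k) ∈ freeRing k A := fun m => Supp.monomial (by
      ext w
      rw [filter_apply]
      split_ifs with hw
      · rw [← hΓ m.1 m.2, filter_apply, if_neg fun h => hT w (by simp [(hS w).1 h]) hw]
        rfl
      · rfl) 1
    have hmB : ∀ (m : Γ) w, monomial m.1 (1 : k) ∈ bdRing k w := fun m w =>
      mem_bd.2 ⟨_, Supp.monomial (p := fun e => e w ≤ m.1 w) le_rfl 1⟩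
    let Φ : ι × Γ → ι × ι → MvPowerSeries σ k := fun p q =>
      monomial p.2.1 1 * ((if p.1 = q.1 then y q.2 else 0) - if p.1 = q.2 then y q.1 else 0)
    have key : ∀ (c : ι × Γ → MvPowerSeries σ k) q, ∑ p, c p * Φ p q =
        (∑ m : Γ, monomial m.1 1 * c (q.1, m)) * y q.2 -
          (∑ m : Γ, monomial m.1 1 * c (q.2, m)) * y q.1 := fun c q => by
      simp only [Φ, Fintype.sum_prod_type, mul_sub, Finset.sum_sub_distrib, mul_ite, mul_zero,
        Finset.sum_mul]
      rw [Finset.sum_comm, Finset.sum_comm (f := fun i (m : Γ) => if i = q.2 then _ else _)]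
      simp only [Finset.sum_ite_eq', Finset.mem_univ, if_true]
      congr 1 <;> exact Finset.sum_congr rfl fun _ _ => by ring
    obtain ⟨i₀, hi₀⟩ := Function.ne_iff.1 hx0
    obtain ⟨m₀, -, hm₀⟩ := Finset.exists_ne_zero_of_sum_ne_zero ((hexp i₀).symm.trans_ne hi₀)
    obtain ⟨c, hc, hc1, hc0, -⟩ := descent S
      (freeRing k S ⊓ (freeRing k A ⊓ bdRing k v)) (fun _ h => h.1) Φ
      (fun p q m _ => ⟨free_cf _ _, cf_free (mul_mem (hmA _) (sub_mem
          (by split_ifs; exacts [(hy _).1, zero_mem _]) (by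
            split_ifs; exacts [(hy _).1, zero_mem _]))) _,
        cf_bd (mul_mem (hmB _ _) (sub_mem (by split_ifs; exacts [(hy _).2, zero_mem _]) (by
            split_ifs; exacts [(hy _).2, zero_mem _]))) _⟩)
      (fun p => cf S p.2.1 (x p.1)) (fun _ => free_cf _ _) (fun q => by
        rw [key, ← hexp, ← hexp, sub_eq_zero]
        exact hxZ.trans hyZ.symm hZ _ _) (i₀, m₀) (right_ne_zero_of_mul hm₀)
    refine ⟨fun i => ∑ m : Γ, monomial m.1 1 * c (i, m), fun h => hc0 ?_, fun i =>
      ⟨sum_mem fun m _ => mul_mem (hmA m) (hc _).2.1, fun w hw => sum_mem fun m _ =>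
        mul_mem (hmB m w) ?_⟩, Pr.trans (fun i j => ?_) hyZ hy0⟩
    · have h1 := congrArg (cf S m₀.1) (congrFun h i₀)
      rw [map_sum, Finset.sum_eq_single m₀ (fun m _ hm => by
        rw [mul_comm, cf_mul (hc _).1 (hΓ _ m₀.2), cf_monomial (hΓ _ m₀.2) (hΓ _ m.2),
          if_neg fun e => hm (Subtype.ext e.symm), mul_zero]) (by simp), mul_comm,
        cf_mul (hc _).1 (hΓ _ m₀.2), cf_monomial (hΓ _ m₀.2) (hΓ _ m₀.2), if_pos rfl,
        mul_one] at h1
      exact h1.trans (map_zero _)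
    · rcases Finset.mem_insert.1 hw with rfl | hw
      · exact (hc _).2.2
      · refine mem_bd.2 ⟨0, Supp.mono (hc (i, m)).1 fun e he => ?_⟩
        have := DFunLike.congr_fun he w
        rw [filter_apply, if_pos ((hS w).2 hw)] at this
        exact this.le
    · exact sub_eq_zero.1 ((key c (i, j)).symm.trans (hc1 (i, j)))

section Rho

variable (T : σ → Prop) (ε : σ)

/-- The action on exponents of the substitution `t ↦ ε t`. -/
noncomputable def mu : (σ →₀ ℕ) →+ σ →₀ ℕ where
  toFun d := d + single ε (degree (d.filter T))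
  map_zero' := by simp [filter_zero]
  map_add' a b := by
    rw [filter_add, map_add, single_add]
    abel

/-- The substitution `t ↦ ε t`. -/
noncomputable def rho (k : Type) [Field k] (v : σ) : MvPowerSeries σ k :=
  if T v then X ε * X v else X v

variable {T ε}

theorem mu_apply (d : σ →₀ ℕ) {v : σ} (hv : v ≠ ε) : mu T ε d v = d v := by
  simp [mu, hv]

theorem mu_inj (hε : ¬T ε) : Function.Injective (mu T ε) := fun a b h => by
  have h1 : a.filter T = b.filter T := by
    ext v
    rw [filter_apply, filter_apply]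
    split_ifs with hv
    · have hv' : v ≠ ε := fun e => hε (e ▸ hv)
      rw [← mu_apply (T := T) a hv', h, mu_apply b hv']
    · rfl
  have h2 : a + single ε (degree (a.filter T)) = b + single ε (degree (b.filter T)) := h
  rw [h1] at h2
  exact add_right_cancel h2

theorem rho_eq (v : σ) : rho T ε k v = monomial (mu T ε (single v 1)) 1 := by
  unfold rho
  split_ifs with hv
  · simp [mu, filter_single_of_pos _ hv, X_def, monomial_mul_monomial, add_comm]
  · simp [mu, filter_single_of_neg _ hv, X_def]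

theorem rho_has [Finite σ] : HasSubst (rho T ε k) :=
  hasSubst_of_constantCoeff_zero fun v => by unfold rho; split_ifs <;> simp

theorem rho_prod (d : σ →₀ ℕ) : (d.prod fun s n => rho T ε k s ^ n) = monomial (mu T ε d) 1 := by
  induction d using Finsupp.induction_linear with
  | zero => simp
  | add d d' h h' =>
    rw [prod_add_index' (fun _ => pow_zero _) fun _ _ _ => pow_add _ _ _, h, h',
      monomial_mul_monomial, map_add, mul_one]
  | single v n =>
    rw [prod_single_index (h := fun s n => rho T ε k s ^ n) (pow_zero _), rho_eq, monomial_pow,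
      ← map_nsmul, one_pow, smul_single, smul_eq_mul, mul_one]

theorem coeff_rho [Finite σ] (hε : ¬T ε) (φ : MvPowerSeries σ k) (d : σ →₀ ℕ) :
    coeff (mu T ε d) (subst (rho T ε k) φ) = coeff d φ := by
  rw [coeff_subst rho_has, finsum_eq_single _ d fun d' hd => by
    rw [rho_prod, coeff_monomial_ne fun e => hd (mu_inj hε e).symm, smul_zero], rho_prod,
    coeff_monomial_same, smul_eq_mul, mul_one]

theorem rho_zero [Finite σ] (hε : ¬T ε) {φ : MvPowerSeries σ k}
    (h : subst (rho T ε k) φ = (0 : MvPowerSeries σ k)) : φ = 0 := by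
  ext d
  rw [← coeff_rho hε, h, map_zero, map_zero]

/-- Dehomogenisation. -/
noncomputable def un (T : σ → Prop) (ε : σ) (w : ℕ) (φ : MvPowerSeries σ k) : MvPowerSeries σ k :=
  fun γ => if γ ε = 0 then coeff (mu T ε γ + single ε w) φ else 0

theorem coeff_un (w : ℕ) (φ : MvPowerSeries σ k) (γ : σ →₀ ℕ) :
    coeff γ (un T ε w φ) = if γ ε = 0 then coeff (mu T ε γ + single ε w) φ else 0 := rfl

theorem supp_un (w : ℕ) (φ : MvPowerSeries σ k) :
    Supp (fun γ => γ ε = 0 ∧ coeff (mu T ε γ + single ε w) φ ≠ 0) (un T ε w φ) := fun γ h => by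
  rw [coeff_un] at h
  split_ifs at h with h1
  · exact ⟨h1, h⟩
  · exact absurd rfl h

theorem un_mul [Finite σ] (hε : ¬T ε) (w : ℕ) (φ : MvPowerSeries σ k) {ψ : MvPowerSeries σ k}
    (hψ : Supp (fun e => e ε = 0) ψ) :
    un T ε w (φ * subst (rho T ε k) ψ) = un T ε w φ * ψ := by
  ext γ
  rw [coeff_un]
  split_ifs with hγ
  · rw [coeff_mul, coeff_mul, eq_comm]
    refine Finset.sum_of_injOn (fun p => (mu T ε p.1 + single ε w, mu T ε p.2)) ?_ ?_ ?_ ?_
    · rintro ⟨a, b⟩ _ ⟨a', b'⟩ _ h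
      simpa [(mu_inj hε).eq_iff] using h
    · rintro ⟨a, b⟩ h
      simp only [Finset.mem_coe, Finset.HasAntidiagonal.mem_antidiagonal] at h ⊢
      rw [← h, map_add]
      abel
    · rintro ⟨a, b⟩ h h'
      rw [Finset.HasAntidiagonal.mem_antidiagonal] at h
      by_contra h1
      obtain ⟨δ, hδ, rfl⟩ := supp_subst rho_has (fun d e => e = mu T ε d) (map_zero _).symm
        (fun _ _ _ _ h h' => by rw [h, h', map_add])
        (fun v => by rw [rho_eq]; exact Supp.monomial (p := (· = _)) rfl (1 : k)) ψ b (right_ne_zero_of_mul h1)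
      have h3 : δ ≤ γ := fun v => by
        by_cases hv : v = ε
        · rw [hv, hψ δ hδ]
          exact Nat.zero_le _
        · have h4 := DFunLike.congr_fun h v
          simp only [Finsupp.add_apply, mu_apply _ hv, single_eq_of_ne hv] at h4
          omega
      obtain ⟨c, rfl⟩ := exists_add_of_le h3
      refine h' ⟨(c, δ), by simp [add_comm], Prod.ext ?_ rfl⟩
      refine add_right_cancel (b := mu T ε δ) (Eq.trans ?_ h.symm)
      rw [map_add, add_assoc, add_assoc, add_comm (mu T ε δ), add_assoc]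
    · rintro ⟨a, b⟩ h
      rw [Finset.HasAntidiagonal.mem_antidiagonal] at h
      have h4 : a ε + b ε = γ ε := DFunLike.congr_fun h ε
      rw [coeff_un, if_pos (show a ε = 0 by omega), coeff_rho hε]
  · by_contra h
    exact hγ (((supp_un w φ).mul hψ (r := fun e => e ε = 0)
      fun a b ha hb => by simp [ha.1, hb]) γ (Ne.symm h))

theorem eps_out [Finite σ] (hε : ¬T ε) {x z : ι → MvPowerSeries σ k} (hx : x ≠ 0)
    (hz : ∀ i, Supp (fun e => e ε = 0) (z i)) (h : Pr x fun i => subst (rho T ε k) (z i)) :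
    ∃ P ≠ 0, Pr P z ∧ ∀ i, Supp (fun γ => γ ε = 0 ∧
      ∃ e, coeff e (x i) ≠ 0 ∧ ∀ v, v ≠ ε → γ v = e v) (P i) := by
  obtain ⟨i₀, hi₀⟩ := Function.ne_iff.1 hx
  obtain ⟨e₀, he₀⟩ : ∃ e, coeff e (x i₀) ≠ 0 := by
    by_contra! h
    exact hi₀ (MvPowerSeries.ext h)
  refine ⟨fun i => un T ε (e₀ ε) (monomial (single ε (degree (e₀.filter T))) 1 * x i),
    fun h0 => he₀ ?_, fun i j => ?_, fun i => (supp_un _ _).mono fun γ hγ => ⟨hγ.1, ?_⟩⟩
  · have h1 := congrArg (coeff (e₀.erase ε)) (congrFun h0 i₀)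
    have h2 : (e₀.erase ε).filter T = e₀.filter T := by
      ext v
      rw [filter_apply, filter_apply]
      split_ifs with hv
      · exact erase_ne fun e => hε (e ▸ hv)
      · rfl
    have h3 : mu T ε (e₀.erase ε) + single ε (e₀ ε) = single ε (degree (e₀.filter T)) + e₀ := by
      change e₀.erase ε + single ε (degree ((e₀.erase ε).filter T)) + _ = _
      rw [h2, add_comm (e₀.erase ε), add_assoc, erase_add_single]
    rw [coeff_un, if_pos erase_same, h3, coeff_add_monomial_mul, one_mul] at h1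
    exact h1
  · rw [← un_mul hε _ _ (hz j), ← un_mul hε _ _ (hz i), mul_assoc, mul_assoc, h i j]
  · have := (Supp.monomial (p := (· = single ε (degree (e₀.filter T)))) rfl (1 : k)).mul
      (ψ := x i) (q := fun e => coeff e (x i) ≠ 0) (fun _ h => h)
      (r := fun e => ∃ e', coeff e' (x i) ≠ 0 ∧ ∀ v, v ≠ ε → e v = e' v)
      (fun a b ha hb => ⟨b, hb, fun v hv => by simp [ha, hv]⟩) _ hγ.2
    obtain ⟨e, he, he'⟩ := this
    exact ⟨e, he, fun v hv => by simpa [mu_apply _ hv, hv] using he' v hv⟩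

end Rho

end Pool.Agent.MP_66cee2_co.X.Seg
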