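import Pool.Agent.MP_66cee2_co.X.SegB

/-!
Formal charts of the unit sphere.
-/

namespace Pool.Agent.MP_66cee2_co.X.Seg

open MvPowerSeries Finsupp
open scoped Classical

variable {σ ι k : Type} [Field k] {d : ℕ}

/-- The point `n + a`. -/
noncomputable def uu (α : Fin d → σ) (n : Fin d → MvPowerSeries σ k) : Fin d → MvPowerSeries σ k :=
  fun p => n p + X (α p)

/-- The reflection of `n` in the line through `n + a`. -/
noncomputable def W (α : Fin d → σ) (n : Fin d → MvPowerSeries σ k) : Fin d → MvPowerSeries σ k :=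
  fun p => 2 * (n ⬝ᵥ uu α n) * uu α n p * (uu α n ⬝ᵥ uu α n)⁻¹ - n p

/-- The variables of the chart. -/
def IsA (α : Fin d → σ) (v : σ) : Prop := ∃ p, α p = v

variable {α : Fin d → σ} {n : Fin d → MvPowerSeries σ k}

theorem const_dot {x y x' y' : Fin d → MvPowerSeries σ k}
    (h : ∀ p, constantCoeff (x p) = constantCoeff (x' p))
    (h' : ∀ p, constantCoeff (y p) = constantCoeff (y' p)) :
    constantCoeff (x ⬝ᵥ y) = constantCoeff (x' ⬝ᵥ y') := by
  simp only [dotProduct, map_sum, map_mul, h, h']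

theorem const_uu (p : Fin d) : constantCoeff (uu α n p) = constantCoeff (n p) := by simp [uu]

theorem const_uu_uu (hn : n ⬝ᵥ n = 1) : constantCoeff (uu α n ⬝ᵥ uu α n) = 1 := by
  rw [const_dot const_uu const_uu, hn, map_one]

theorem uu_inv (hn : n ⬝ᵥ n = 1) : (uu α n ⬝ᵥ uu α n) * (uu α n ⬝ᵥ uu α n)⁻¹ = 1 :=
  MvPowerSeries.mul_inv_cancel _ (by rw [const_uu_uu hn]; exact one_ne_zero)

theorem W_eq : W α n = (2 * (n ⬝ᵥ uu α n) * (uu α n ⬝ᵥ uu α n)⁻¹) • uu α n - n := by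
  funext p
  simp only [W, Pi.sub_apply, Pi.smul_apply, smul_eq_mul]
  ring

theorem W_unit (hn : n ⬝ᵥ n = 1) : W α n ⬝ᵥ W α n = 1 := by
  rw [W_eq]
  simp only [sub_dotProduct, dotProduct_sub, smul_dotProduct, dotProduct_smul, smul_eq_mul, hn,
    dotProduct_comm (uu α n) n]
  linear_combination 4 * (n ⬝ᵥ uu α n) ^ 2 * (uu α n ⬝ᵥ uu α n)⁻¹ * uu_inv hn

theorem W_const (hn : n ⬝ᵥ n = 1) (p : Fin d) : constantCoeff (W α n p) = constantCoeff (n p) := by
  have h1 : constantCoeff (n ⬝ᵥ uu α n) = 1 := by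
    rw [const_dot (fun _ => rfl) const_uu, hn, map_one]
  simp only [W, map_sub, map_mul, constantCoeff_inv, const_uu_uu hn, h1, const_uu, map_ofNat]
  ring

theorem has_W {z : Fin d → MvPowerSeries σ k} (hn : n ⬝ᵥ n = 1)
    (hz : ∀ p, constantCoeff (z p + n p) = 0) : HasSubst (z + W α n) :=
  hasSubst_of_constantCoeff_zero fun p => by
    rw [Pi.add_apply, map_add, W_const hn, ← map_add, hz]

theorem chart [Finite σ] [CharZero k] [Fintype ι] (hα : Function.Injective α)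
    {w z : Fin d → MvPowerSeries σ k} (hn : n ⬝ᵥ n = 1) (hw : w ⬝ᵥ w = 1)
    (hc : ∀ p, constantCoeff (w p) = constantCoeff (n p)) (hnf : ∀ p, Free (IsA α) (n p))
    (hzf : ∀ p, Free (IsA α) (z p)) (hz : ∀ p, constantCoeff (z p + n p) = 0)
    {ζ : ι → MvPowerSeries σ k} (hζ : ∀ i, Free (IsA α) (ζ i)) {b : ι → MvPowerSeries (Fin d) k}
    (h : ∑ i, ζ i * subst (z + W α n) (b i) = 0) : ∑ i, ζ i * subst (z + w) (b i) = 0 := by
  let c : MvPowerSeries σ k := C (1 / 2)
  have hc2 : 2 * c = 1 := by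
    rw [← map_ofNat (C (σ := σ) (R := k)), ← map_mul, mul_one_div_cancel two_ne_zero, map_one]
  let a : σ → MvPowerSeries σ k := Function.extend α (fun p => c * (w p - n p)) X
  have ha1 : ∀ p, a (α p) = c * (w p - n p) := hα.extend_apply _ _
  have ha2 : ∀ v, ¬IsA α v → a v = X v := fun v hv => Function.extend_apply' _ _ _ hv
  have ha : HasSubst a := hasSubst_of_constantCoeff_zero fun v => by
    by_cases hv : IsA α v
    · obtain ⟨p, rfl⟩ := hv
      simp [ha1, hc]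
    · simp [ha2 v hv]
  let F := substAlgHom (R := k) ha
  have hF : ∀ {φ}, Free (IsA α) φ → F φ = φ := fun hφ =>
    (substAlgHom_apply ha _).trans (subst_free ha ha2 hφ)
  have h1 : ∀ p, F (uu α n p) = (c • (n + w)) p := fun p => by
    rw [uu, map_add, hF (hnf p), substAlgHom_X, ha1]
    simp only [Pi.smul_apply, Pi.add_apply, smul_eq_mul]
    linear_combination (-n p) * hc2
  have h2 : F (n ⬝ᵥ uu α n) = c * (1 + n ⬝ᵥ w) := by
    have : F (n ⬝ᵥ uu α n) = n ⬝ᵥ (c • (n + w)) := by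
      simp only [dotProduct, map_sum, map_mul, h1, hF (hnf _)]
    rw [this, dotProduct_smul, dotProduct_add, hn, smul_eq_mul]
  have h3 : F (uu α n ⬝ᵥ uu α n) = c * (1 + n ⬝ᵥ w) := by
    have : F (uu α n ⬝ᵥ uu α n) = (c • (n + w)) ⬝ᵥ (c • (n + w)) := by
      simp only [dotProduct, map_sum, map_mul, h1]
    rw [this]
    simp only [dotProduct_smul, smul_dotProduct, dotProduct_add, add_dotProduct, hn, hw,
      smul_eq_mul, dotProduct_comm w n]
    linear_combination c * (1 + n ⬝ᵥ w) * hc2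
  have h4 := congrArg F (uu_inv (α := α) hn)
  rw [map_mul, h3, map_one] at h4
  have h5 : ∀ p, subst a ((z + W α n) p) = (z + w) p := fun p => by
    rw [← substAlgHom_apply ha]
    change F _ = _
    simp only [Pi.add_apply, W, map_add, map_sub, map_mul, hF (hzf p), hF (hnf p), h1, h2,
      map_ofNat, Pi.smul_apply, smul_eq_mul]
    linear_combination 2 * c * (n p + w p) * h4 + (n p + w p) * hc2
  have h6 := congrArg F h
  rw [map_sum, map_zero] at h6
  rw [← h6]
  refine Finset.sum_congr rfl fun i _ => ?_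
  rw [map_mul, hF (hζ i), substAlgHom_apply, subst_comp_subst_apply (has_W hn hz) ha, funext h5]

theorem cf_chart_bd {v : σ} (hv : ¬IsA α v) {z : Fin d → MvPowerSeries σ k} (hn : n ⬝ᵥ n = 1)
    (hn1 : ∀ p, Supp (fun e => e v ≤ 1) (n p)) (hzn : ∀ p, Supp (fun e => e v = 0) (z p + n p))
    (hz : ∀ p, constantCoeff (z p + n p) = 0) (b : MvPowerSeries (Fin d) k) {m : σ →₀ ℕ}
    (hm : m.filter (IsA α) = m) : cf (IsA α) m (subst (z + W α n) b) ∈ bdRing k v := by
  let H : ℤ → MvPowerSeries σ k → Prop := fun j =>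
    Supp fun e => (e v : ℤ) ≤ 2 * (degree (e.filter (IsA α)) : ℕ) + j
  have Hadd : ∀ {j j' : ℤ} (a b : σ →₀ ℕ), (a v : ℤ) ≤ 2 * (degree (a.filter (IsA α)) : ℕ) + j →
      (b v : ℤ) ≤ 2 * (degree (b.filter (IsA α)) : ℕ) + j' →
      ((a + b) v : ℤ) ≤ 2 * (degree ((a + b).filter (IsA α)) : ℕ) + (j + j') := fun a b ha hb => by
    rw [filter_add, map_add, Finsupp.add_apply]
    push_cast at *
    omega
  have Hmul : ∀ {j j' φ ψ}, H j φ → H j' ψ → H (j + j') (φ * ψ) := fun h h' => Supp.mul h h' Hadd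
  have Hmono : ∀ {j φ}, H j φ → j ≤ 0 → H 0 φ := fun h hj => Supp.mono h fun _ _ => by omega
  have Hdot : ∀ {j j'} {x y : Fin d → MvPowerSeries σ k}, (∀ p, H j (x p)) → (∀ p, H j' (y p)) →
      H (j + j') (x ⬝ᵥ y) := fun h h' => Supp.sum _ fun p _ => Hmul (h p) (h' p)
  have Hsub : ∀ {τ : Type} {a : τ → MvPowerSeries σ k}, HasSubst a → (∀ t, H 0 (a t)) →
      ∀ φ : MvPowerSeries τ k, H 0 (subst a φ) := fun ha h φ =>
    subst_mem ha (by simp [filter_zero]) (fun a b ha hb => by simpa using Hadd a b ha hb) h φ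
  let a : Fin d → MvPowerSeries σ k := fun p => X (α p)
  have Ha : ∀ p, H (-2) (a p) := fun p => Supp.var (by
    rw [filter_single_of_pos (IsA α) ⟨p, rfl⟩, degree_single,
      single_eq_of_ne fun e => hv ⟨p, e.symm⟩]
    simp)
  have Hn : ∀ p, H 1 (n p) := fun p => (hn1 p).mono fun _ _ => by omega
  have H2 : H 0 2 := by
    rw [← map_ofNat (C (σ := σ) (R := k))]
    exact Supp.C (by simp [filter_zero]) _
  have hu : uu α n = n + a := rfl
  have h1 : n ⬝ᵥ uu α n = 1 + n ⬝ᵥ a := by rw [hu, dotProduct_add, hn]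
  have h2 : uu α n ⬝ᵥ uu α n = 1 + (2 * (n ⬝ᵥ a) + a ⬝ᵥ a) := by
    simp only [hu, dotProduct_add, add_dotProduct, hn, dotProduct_comm a n]
    ring
  have h3 : HasSubst fun _ : Unit => 2 * (n ⬝ᵥ a) + a ⬝ᵥ a :=
    hasSubst_of_constantCoeff_zero fun _ => by
      have := const_uu_uu (α := α) hn
      rwa [h2, map_add, map_one, add_eq_left] at this
  have h4 : (uu α n ⬝ᵥ uu α n)⁻¹ =
      subst (fun _ : Unit => 2 * (n ⬝ᵥ a) + a ⬝ᵥ a) (1 + X () : MvPowerSeries Unit k)⁻¹ := by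
    have h5 := congrArg (substAlgHom (R := k) h3)
      (MvPowerSeries.mul_inv_cancel (1 + X () : MvPowerSeries Unit k) (by simp))
    rw [map_mul, map_add, map_one, substAlgHom_X, ← h2, substAlgHom_apply] at h5
    exact (MvPowerSeries.inv_eq_iff_mul_eq_one (by rw [const_uu_uu hn]; exact one_ne_zero)).2
      ((mul_comm _ _).trans h5)
  have h6 : ∀ p, (z + W α n) p = (z p + n p) + 2 * (a p + (n ⬝ᵥ a) * a p - (n ⬝ᵥ a) * n p -
      (a ⬝ᵥ a) * n p) * (uu α n ⬝ᵥ uu α n)⁻¹ := fun p => by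
    have h7 := uu_inv (α := α) hn
    have h8 : uu α n p = n p + a p := rfl
    rw [Pi.add_apply, W, h1, h8]
    generalize (uu α n ⬝ᵥ uu α n)⁻¹ = y at h7 ⊢
    rw [h2] at h7
    linear_combination 2 * n p * h7
  have h9 : H 0 (subst (z + W α n) b) := Hsub (has_W hn hz) (fun p => by
    rw [h6, h4]
    refine Supp.add ((hzn p).mono fun _ _ => by omega) (Hmono (Hmul (Hmul H2 (j' := 0)
      (Supp.sub (Supp.sub (Supp.add (Hmono (Ha p) (by omega))
        (Hmono (Hmul (Hdot Hn Ha) (Ha p)) (by omega)))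
        (Hmono (Hmul (Hdot Hn Ha) (Hn p)) (by omega)))
        (Hmono (Hmul (Hdot Ha Ha) (Hn p)) (by omega)))) (Hsub h3 (fun _ => Supp.add
          (Hmono (Hmul H2 (Hdot Hn Ha)) (by omega)) (Hmono (Hdot Ha Ha) (by omega))) _))
      (by omega))) b
  refine mem_bd.2 ⟨2 * degree m, (Supp.cf h9 m).mono fun e he => ?_⟩
  have h10 := he.2
  rw [filter_add, he.1, hm, zero_add, Finsupp.add_apply] at h10
  push_cast at h10
  omega

end Pool.Agent.MP_66cee2_co.X.Seg
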