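import Pool.Agent.MP_66cee2_co.X.SegC

/-!
The relations along a formal sphere are generated by polynomial relations.
-/

namespace Pool.Agent.MP_66cee2_co.X.Seg

open MvPowerSeries Finsupp
open scoped Classical

variable {σ σ' ι k k' : Type} [Field k] [Field k'] {d : ℕ}

theorem Supp.inv {p : (σ →₀ ℕ) → Prop} (h0 : p 0) (h : ∀ a b, p a → p b → p (a + b))
    {φ : MvPowerSeries σ k} (hφ : Supp p φ) (h1 : constantCoeff φ = 1) : Supp p φ⁻¹ := by
  have h3 : HasSubst fun _ : Unit => φ - 1 := hasSubst_of_constantCoeff_zero fun _ => by simp [h1]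
  have h5 := congrArg (substAlgHom (R := k) h3)
    (MvPowerSeries.mul_inv_cancel (1 + X () : MvPowerSeries Unit k) (by simp))
  rw [map_mul, map_add, map_one, substAlgHom_X, substAlgHom_apply, add_sub_cancel] at h5
  rw [(MvPowerSeries.inv_eq_iff_mul_eq_one (by rw [h1]; exact one_ne_zero)).2
    ((mul_comm _ _).trans h5)]
  exact subst_mem h3 h0 h (fun _ => hφ.sub (Supp.C h0 1)) _

theorem W_mem {p : (σ →₀ ℕ) → Prop} (h0 : p 0) (h : ∀ a b, p a → p b → p (a + b))
    {α : Fin d → σ} {n : Fin d → MvPowerSeries σ k} (hn : n ⬝ᵥ n = 1) (h1 : ∀ q, Supp p (n q))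
    (h2 : ∀ q, p (single (α q) 1)) (q : Fin d) : Supp p (W α n q) := by
  have hu : ∀ q, uu α n q ∈ suppRing k p h0 h := fun q => (h1 q).add (Supp.var (h2 q))
  have h1' : ∀ q, n q ∈ suppRing k p h0 h := h1
  exact sub_mem (S := Subring _) (mul_mem (mul_mem (mul_mem (ofNat_mem (suppRing k p h0 h) 2)
    (sum_mem fun r _ => mul_mem (h1' r) (hu r))) (hu q))
    (Supp.inv h0 h (sum_mem (S := suppRing k p h0 h) fun r _ => mul_mem (hu r) (hu r))
      (const_uu_uu hn))) (h1' q)

theorem map_W (F : MvPowerSeries σ k →+* MvPowerSeries σ' k') {α : Fin d → σ} {α' : Fin d → σ'}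
    (hα : ∀ p, F (X (α p)) = X (α' p)) {n : Fin d → MvPowerSeries σ k}
    {n' : Fin d → MvPowerSeries σ' k'} (hn : n ⬝ᵥ n = 1) (hF : ∀ p, F (n p) = n' p) (p : Fin d) :
    F (W α n p) = W α' n' p := by
  have h1 : ∀ p, F (uu α n p) = uu α' n' p := fun p => by simp [uu, hα, hF]
  have h2 : n' ⬝ᵥ n' = 1 := by
    simpa only [dotProduct, map_sum, map_mul, hF, map_one] using congrArg F hn
  have h3 : F (uu α n ⬝ᵥ uu α n)⁻¹ = (uu α' n' ⬝ᵥ uu α' n')⁻¹ := by
    refine ((MvPowerSeries.inv_eq_iff_mul_eq_one (by rw [const_uu_uu h2]; exact one_ne_zero)).2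
      ?_).symm
    have := congrArg F (uu_inv (α := α) hn)
    rw [map_mul, map_one, mul_comm] at this
    simpa only [dotProduct, map_sum, map_mul, h1] using this
  rw [W, W, map_sub, map_mul, h3]
  simp only [dotProduct, map_sum, map_mul, h1, hF, map_ofNat]

/-- The variables: one parameter, the centre, the chart. -/
abbrev V (d : ℕ) : Type := Option (Fin d ⊕ Fin d)

def tv (l : Fin d) : V d := some (.inl l)

def av (p : Fin d) : V d := some (.inr p)

theorem tv_inj : Function.Injective (tv (d := d)) := fun _ _ h => by simpa [tv] using h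

theorem av_inj : Function.Injective (av (d := d)) := fun _ _ h => by simpa [av] using h

theorem not_A_tv (l : Fin d) : ¬IsA av (tv l) := by simp [IsA, tv, av]

theorem not_T_av (l : Fin d) : ¬IsA tv (av l) := by simp [IsA, tv, av]

theorem not_T_none : ¬IsA tv (none : V d) := by simp [IsA, tv]

theorem not_A_none : ¬IsA av (none : V d) := by simp [IsA, av]

/-- The variables other than those of the centre. -/
def NT (v : V d) : Prop := ¬IsA tv v

/-- A series read on the sphere with centre `t`, near the point `n`. -/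
noncomputable def Psi (n : Fin d → k) (b : MvPowerSeries (Fin d) k) : MvPowerSeries (V d) k :=
  subst ((fun q => (X (tv q) - C (n q) : MvPowerSeries (V d) k)) + W av fun q => C (n q)) b

/-- Only the parameter occurs. -/
def OnlyE (φ : MvPowerSeries (V d) k) : Prop := Supp (fun e => ∀ w, w ≠ none → e w = 0) φ

/-- A frame of isotropic directions. -/
structure Frame (n : Fin d → k) (v nn κ : Fin d → Fin d → MvPowerSeries (V d) k) : Prop where
  ev : ∀ l p, OnlyE (v l p)
  en : ∀ l p, OnlyE (nn l p)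
  ek : ∀ l p, OnlyE (κ l p)
  vv : ∀ l, v l ⬝ᵥ v l = 0
  nv : ∀ l, nn l ⬝ᵥ v l = 0
  nn1 : ∀ l, nn l ⬝ᵥ nn l = 1
  cn : ∀ l p, constantCoeff (nn l p) = n p
  vk : ∀ p q, ∑ l, v l p * κ l q = if p = q then X none else 0
  kv : ∀ l m, ∑ p, κ l p * v m p = if l = m then X none else 0

theorem C_unit {n : Fin d → k} (hn : n ⬝ᵥ n = 1) :
    ((fun q => C (n q)) ⬝ᵥ fun q => C (n q) : MvPowerSeries σ k) = 1 := by
  simpa only [dotProduct, map_sum, map_mul, map_one] using congrArg (C (σ := σ)) hn

theorem free_of {S : σ → Prop} {φ : MvPowerSeries σ k} (h : Supp (fun e => ∀ w, S w → e w = 0) φ) :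
    Free S φ := h.mono fun e he => by
  ext w
  rw [filter_apply]
  split_ifs with hw
  exacts [he w hw, rfl]

theorem Free.zero_at {S : σ → Prop} {φ : MvPowerSeries σ k} (h : Free S φ) :
    Supp (fun e => ∀ w, S w → e w = 0) φ := Supp.mono h fun e he w hw => by
  simpa [filter_apply, hw] using DFunLike.congr_fun he w

theorem OnlyE.free {S : V d → Prop} (hS : ¬S none) {φ : MvPowerSeries (V d) k} (h : OnlyE φ) :
    φ ∈ freeRing k S := free_of (Supp.mono h fun _ he w hw => he w fun e => hS (e ▸ hw))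

theorem X_free {S : σ → Prop} {w : σ} (h : ¬S w) : X w ∈ freeRing k S :=
  Supp.var (filter_single_of_neg _ h)

theorem C_free {S : σ → Prop} (c : k) : C c ∈ freeRing k S :=
  Supp.C (p := fun e => e.filter S = 0) (filter_zero _) c

theorem has_ext {f : Fin d → MvPowerSeries (V d) k} (h : ∀ p, constantCoeff (f p) = 0) :
    HasSubst (Function.extend tv f X : V d → MvPowerSeries (V d) k) :=
  hasSubst_of_constantCoeff_zero fun w => by
    by_cases hw : IsA tv w
    · obtain ⟨p, rfl⟩ := hw
      rw [tv_inj.extend_apply, h]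
    · rw [Function.extend_apply' _ _ _ hw, constantCoeff_X]

theorem ext_ext {f g : Fin d → Fin d → MvPowerSeries (V d) k} (hf : ∀ l p, OnlyE (f l p))
    (h : ∀ p q, ∑ l, f p l * g l q = if p = q then X none else 0) (φ : MvPowerSeries (V d) k) :
    subst (Function.extend tv (fun l => ∑ q, g l q * X (tv q)) X : V d → MvPowerSeries (V d) k)
      (subst (Function.extend tv (fun p => ∑ l, f p l * X (tv l)) X :
        V d → MvPowerSeries (V d) k) φ) = subst (rho (IsA tv) none k) φ := by
  have hg := has_ext (k := k) (f := fun l => ∑ q, g l q * X (tv q)) (by simp)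
  rw [subst_comp_subst_apply (has_ext (by simp)) hg]
  congr 1
  funext w
  have h1 : ∀ w, ¬IsA tv w → Function.extend tv (fun l => ∑ q, g l q * X (tv q)) X w = X w :=
    fun w hw => Function.extend_apply' _ _ _ hw
  by_cases hw : IsA tv w
  · obtain ⟨p, rfl⟩ := hw
    rw [tv_inj.extend_apply, rho, if_pos ⟨p, rfl⟩, ← substAlgHom_apply hg, map_sum]
    simp only [map_mul, subst_X hg, tv_inj.extend_apply, substAlgHom_apply,
      subst_free hg h1 ((hf _ _).free not_T_none), Finset.mul_sum, ← mul_assoc]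
    rw [Finset.sum_comm]
    simp [← Finset.sum_mul, h]
  · rw [Function.extend_apply' _ _ _ hw, subst_X hg, h1 w hw, rho, if_neg hw]

/-- The series in which the variable `w` does not occur. -/
def zeroRing (k : Type) [Field k] (w : σ) : Subring (MvPowerSeries σ k) :=
  suppRing k (fun e => e w = 0) rfl fun _ _ h h' => by simp [h, h']

theorem X_zero {w w' : σ} (h : w ≠ w') : X w' ∈ zeroRing k w :=
  Supp.var (p := fun e => e w = 0) (single_eq_of_ne h)

theorem C_zero {w : σ} (c : k) : C c ∈ zeroRing k w := Supp.C (p := fun e => e w = 0) rfl c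

theorem Psi_eps {n : Fin d → k} (hn : n ⬝ᵥ n = 1) (b : MvPowerSeries (Fin d) k) :
    Supp (fun e => e none = 0) (Psi n b) := by
  have h : ∀ a b : V d →₀ ℕ, a none = 0 → b none = 0 → (a + b) none = 0 :=
    fun _ _ h h' => by simp [h, h']
  refine subst_mem (p := fun e => e none = 0) (has_W (C_unit hn) (by simp)) rfl h (fun q => ?_) b
  exact Supp.add (sub_mem (X_zero (w := none) (w' := tv q) (by simp [tv])) (C_zero _))
    (W_mem (p := fun e => e none = 0) (α := av) rfl h (C_unit hn) (fun _ => C_zero _)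
      (fun _ => by simp [av]) q)

theorem circuit [CharZero k] [Fintype ι] {n : Fin d → k} (hn : n ⬝ᵥ n = 1)
    {v nn κ : Fin d → Fin d → MvPowerSeries (V d) k} (hF : Frame n v nn κ)
    (b : ι → MvPowerSeries (Fin d) k) (ζ : ι → MvPowerSeries (V d) k) (h0 : ζ ≠ 0)
    (hζ : ∀ i, ζ i ∈ freeRing k NT) (h : ∑ i, ζ i * Psi n (b i) = 0) :
    ∃ P : ι → MvPowerSeries (V d) k, P ≠ 0 ∧ (∀ i, P i ∈ freeRing k NT ∧ ∀ l, P i ∈ bdRing k (tv l)) ∧
      ∑ i, P i * Psi n (b i) = 0 ∧ ∀ i, ζ i = 0 → P i = 0 := by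
  induction hN : (Finset.univ.filter fun i => ζ i ≠ 0).card using Nat.strong_induction_on
    generalizing ζ with | _ N ih => ?_
  by_cases hmin : ∃ ζ' : ι → MvPowerSeries (V d) k, ζ' ≠ 0 ∧ (∀ i, ζ' i ∈ freeRing k NT) ∧
      ∑ i, ζ' i * Psi n (b i) = 0 ∧ (∀ i, ζ i = 0 → ζ' i = 0) ∧ ∃ i, ζ i ≠ 0 ∧ ζ' i = 0
  · obtain ⟨ζ', h1, h2, h3, h4, i, h5, h6⟩ := hmin
    obtain ⟨P, hP0, hP, hP1, hP2⟩ := ih _ (hN ▸ Finset.card_lt_card ⟨fun j hj => by
      simpa using mt (h4 j) (by simpa using hj), fun hs => by simpa [h6] using hs (x := i) (by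
        simpa using h5)⟩) ζ' h1 h2 h3 rfl
    exact ⟨P, hP0, hP, hP1, fun j hj => hP2 j (h4 j hj)⟩
  clear ih hN
  let θ : Fin d → MvPowerSeries (V d) k := fun p => ∑ l, v l p * X (tv l)
  let th : V d → MvPowerSeries (V d) k := Function.extend tv θ X
  let kk : V d → MvPowerSeries (V d) k := Function.extend tv (fun l => ∑ q, κ l q * X (tv q)) X
  have hth : HasSubst th := has_ext (by simp [θ])
  have hkk : HasSubst kk := has_ext (by simp)
  have e1 : ∀ φ, subst kk (subst th φ) = subst (rho (IsA tv) none k) φ :=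
    ext_ext (f := fun p l => v l p) (fun _ _ => hF.ev _ _) hF.vk
  have e2 : ∀ φ, subst th (subst kk φ) = subst (rho (IsA tv) none k) φ :=
    ext_ext (g := fun p l => v l p) hF.ek hF.kv
  let Θ := substAlgHom (R := k) hth
  have hΘ : ∀ φ, Θ φ = 0 → φ = 0 := fun φ h => rho_zero not_T_none (by
    rw [← e1, ← substAlgHom_apply hth, h, ← substAlgHom_apply hkk, map_zero])
  have hθ : ∀ p, θ p ∈ freeRing k (IsA av) := fun p =>
    sum_mem fun l _ => mul_mem ((hF.ev l p).free not_A_none) (X_free (not_A_tv l))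
  have t1 : ∀ w, ¬IsA tv w → th w = X w := fun w hw => Function.extend_apply' _ _ _ hw
  have t2 : ∀ w, IsA av w → th w = X w := by rintro _ ⟨p, rfl⟩; exact t1 _ (not_T_av p)
  have t3 : ∀ w, ¬IsA av w → Free (IsA av) (th w) := fun w hw => by
    by_cases hw' : IsA tv w
    · obtain ⟨p, rfl⟩ := hw'
      rw [show th (tv p) = θ p from tv_inj.extend_apply θ X p]
      exact hθ p
    · exact (t1 w hw').symm ▸ X_free hw
  have hNA : ∀ φ ∈ freeRing k NT, Θ φ ∈ freeRing k (IsA av) := fun φ hφ => by
    rw [substAlgHom_apply]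
    refine (free_subst hth t2 t3 φ).mono fun e ⟨m, hm, he⟩ => he.trans ?_
    exact free_of ((Free.zero_at hφ).mono fun e he w ⟨p, hp⟩ => he w (hp ▸ not_T_av p)) m hm
  let z : Fin d → MvPowerSeries (V d) k := fun q => θ q - C (n q)
  have hz : ∀ q, z q ∈ freeRing k (IsA av) := fun q => sub_mem (hθ q) (C_free _)
  have hz0 : ∀ q, constantCoeff (z q + C (n q)) = 0 := by simp [z, θ]
  have hΨ : ∀ φ, Θ (Psi n φ) = subst (z + W av fun q => C (n q)) φ := fun φ => by
    rw [substAlgHom_apply, Psi, subst_comp_subst_apply (has_W (C_unit hn) (by simp)) hth]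
    congr 1
    funext q
    rw [← substAlgHom_apply hth, Pi.add_apply, Pi.add_apply, map_add, map_sub, substAlgHom_X]
    refine congrArg₂ _ (congrArg₂ _ (tv_inj.extend_apply θ X q) (Θ.commutes _)) ?_
    exact map_W Θ.toRingHom (fun p => (substAlgHom_X hth _).trans (t1 _ (not_T_av p)))
      (C_unit hn) (fun p => Θ.commutes _) q
  have MT : ∀ x : ι → MvPowerSeries (V d) k, (∀ i, x i ∈ freeRing k (IsA av)) →
      ∑ i, x i * Θ (Psi n (b i)) = 0 → (∀ i, ζ i = 0 → x i = 0) → ∀ j, ζ j ≠ 0 → x j = 0 →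
      x = 0 := fun x hx hx1 hx2 j hj hj' => by
    by_contra hx0
    obtain ⟨i₀, hi₀⟩ := Function.ne_iff.1 hx0
    obtain ⟨y, hy, hy1, hy0, hy2⟩ := descent (IsA av) ((freeRing k NT).map Θ.toRingHom)
      (by rintro _ ⟨φ, hφ, rfl⟩; exact hNA φ hφ) (fun i (_ : Unit) => Θ (Psi n (b i)))
      (fun i _ m hm => ⟨cf (IsA av) m (Psi n (b i)),
        free_of (((Psi_eps hn (b i)).cf (S := IsA av) m).mono
        fun e he w hw => by
          rcases w with _ | l | p
          · have : e none + m none = 0 := he.2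
            omega
          · exact absurd ⟨l, rfl⟩ hw
          · simpa [filter_apply, show IsA av (some (.inr p)) from ⟨p, rfl⟩] using
              DFunLike.congr_fun he.1 (some (.inr p))), by
        change Θ _ = _
        rw [substAlgHom_apply, substAlgHom_apply, cf_subst hth t2 t3 hm]⟩)
      x hx (fun _ => hx1) i₀ hi₀
    choose ζ' hζ' hζy using hy
    replace hζy : ∀ i, Θ (ζ' i) = y i := hζy
    have hz' : ∀ i, x i = 0 → ζ' i = 0 := fun i hi => hΘ _ ((hζy i).trans (hy2 i hi))
    refine hmin ⟨ζ', fun e => hy0 (by rw [← hζy, e, Pi.zero_apply, map_zero]), hζ', hΘ _ ?_,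
      fun i hi => hz' i (hx2 i hi), j, hj, hz' j hj'⟩
    simpa only [map_sum, map_mul, hζy] using hy1 ()
  have hZ : ∑ i, Θ (ζ i) * Θ (Psi n (b i)) = 0 := by
    simpa only [map_sum, map_mul, map_zero] using congrArg Θ h
  obtain ⟨j₀, hj₀⟩ := Function.ne_iff.1 h0
  obtain ⟨x, hx0, hx, hxZ⟩ := sep_rat (IsA av) (Finset.univ.image tv)
    (by simpa using not_A_tv) (fun i => Θ (ζ i)) (fun e => hj₀ (hΘ _ (congrFun e j₀)))
    (fun i => hNA _ (hζ i)) (by
      simp only [Finset.mem_image, Finset.mem_univ, true_and, forall_exists_index,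
        forall_apply_eq_imp_iff]
      intro l
      let n' := nn l - (X (tv l) : MvPowerSeries (V d) k) • v l
      have n1 : n' ⬝ᵥ n' = 1 := by
        simp only [n', sub_dotProduct, dotProduct_sub, smul_dotProduct, dotProduct_smul, hF.vv,
          hF.nv, hF.nn1, dotProduct_comm (v l) (nn l), smul_zero, sub_zero]
      have n2 : ∀ p, constantCoeff (n' p) = n p := by simp [n', hF.cn]
      have n3 : ∀ p, n' p ∈ freeRing k (IsA av) := fun p => sub_mem ((hF.en l p).free not_A_none)
        (mul_mem (X_free (not_A_tv l)) ((hF.ev l p).free not_A_none))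
      have n4 : ∀ p, constantCoeff (z p + n' p) = 0 := fun p => by
        rw [map_add, n2, ← hz0 p, map_add, constantCoeff_C]
      have hE : ∀ {φ : MvPowerSeries (V d) k}, OnlyE φ → Supp (fun e => e (tv l) = 0) φ :=
        fun h => Supp.mono h fun _ he => he _ (by simp [tv])
      have c1 := chart av_inj (C_unit hn) (W_unit (α := av) n1)
        (fun p => by rw [W_const n1, n2, constantCoeff_C]) (fun _ => C_free _) hz hz0
        (fun i => hNA _ (hζ i)) (by simpa only [hΨ] using hZ)
      obtain ⟨y, hy, hy1, hy0, hy2⟩ := descent (IsA av) (freeRing k (IsA av) ⊓ bdRing k (tv l))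
        (fun _ h => h.1) (fun i (_ : Unit) => subst (z + W av n') (b i))
        (fun i _ m hm => ⟨free_cf _ _, cf_chart_bd (not_A_tv l) n1
          (fun p => ((hE (hF.en l p)).mono fun _ h => by omega).sub
            ((Supp.var (p := fun e => e (tv l) = 1) (by simp)).mul (hE (hF.ev l p))
              fun _ _ h h' => by simp [h, h']))
          (fun p => by
            have : z p + n' p = ∑ m ∈ Finset.univ.erase l, v m p * X (tv m) - C (n p) + nn l p := by
              simp only [z, θ, n', Pi.sub_apply, Pi.smul_apply, smul_eq_mul]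
              rw [← Finset.add_sum_erase _ _ (Finset.mem_univ l)]
              ring
            rw [this]
            exact add_mem (S := Subring _) (sub_mem (sum_mem (S := zeroRing k (tv l))
              fun m hm => mul_mem (hE (hF.ev m p))
                (X_zero (tv_inj.ne (Finset.ne_of_mem_erase hm).symm))) (C_zero _))
              (hE (hF.en l p))) n4 _ hm⟩)
        _ (fun i => hNA _ (hζ i)) (fun _ => c1) j₀ fun e => hj₀ (hΘ _ e)
      have c2 := chart av_inj n1 (W_unit (α := av) (C_unit hn))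
        (fun p => by rw [W_const (C_unit hn), n2, constantCoeff_C]) n3 hz n4
        (fun i => (hy i).1) (hy1 ())
      have hy3 : ∀ i, ζ i = 0 → y i = 0 := fun i hi => hy2 i (by rw [hi, map_zero])
      refine ⟨y, fun e => hy0 (congrFun e _), hy, fun i j => ?_⟩
      by_cases hi : ζ i = 0
      · simp [hi, hy3 i hi]
      have := congrFun (MT (fun p => y i * Θ (ζ p) - y p * Θ (ζ i)) (fun p => sub_mem
        (mul_mem (hy i).1 (hNA _ (hζ p))) (mul_mem (hy p).1 (hNA _ (hζ i)))) (by
          simp only [← hΨ] at c2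
          simp only [sub_mul, Finset.sum_sub_distrib, mul_assoc, ← Finset.mul_sum, hZ,
            mul_left_comm _ (Θ (ζ i)), c2, mul_zero, sub_zero])
        (fun p hp => by simp [hp, hy3 p hp]) i hi (sub_self _)) j
      exact sub_eq_zero.1 this)
  obtain ⟨P, hP0, hP, hP1⟩ := eps_out (T := IsA tv) (ε := none) not_T_none
    (x := fun i => subst kk (x i)) (z := ζ) (fun e => hx0 (funext fun i => rho_zero not_T_none (by
      rw [← e2, show subst kk (x i) = 0 from congrFun e i, ← substAlgHom_apply hth, map_zero])))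
    (fun i => (Free.zero_at (hζ i)).mono fun _ h => h _ not_T_none) fun i j => by
      simp only [← e1, ← subst_mul hkk, ← substAlgHom_apply hth]
      exact congrArg _ (hxZ i j)
  have hR := fun i => supp_subst hkk (fun m e => e.filter (IsA av) = m.filter (IsA av) ∧
      degree (e.filter (IsA tv)) = degree (m.filter (IsA tv))) ⟨rfl, rfl⟩
    (fun _ _ _ _ h h' => by simp only [filter_add, map_add, h.1, h.2, h'.1, h'.2, and_self])
    (fun w => by
      by_cases hw : IsA tv w
      · obtain ⟨l, rfl⟩ := hw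
        rw [show kk (tv l) = _ from tv_inj.extend_apply _ _ l]
        refine Supp.sum _ fun q _ => (Supp.and ((hF.ek l q).free not_A_none)
          ((hF.ek l q).free not_T_none)).mul (Supp.var (p := (· = single (tv q) 1)) rfl) ?_
        rintro a _ ⟨h1, h2⟩ rfl
        simp only [filter_add, h1, h2, zero_add, filter_single_of_neg _ (not_A_tv _),
          filter_single_of_pos (IsA tv) ⟨_, rfl⟩, degree_single, and_self]
      · rw [show kk w = _ from Function.extend_apply' _ _ _ hw]
        exact Supp.var ⟨rfl, rfl⟩) (x i)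
  refine ⟨P, hP0, fun i => ⟨free_of ((hP1 i).mono fun γ ⟨h1, e, he, h2⟩ w hw => ?_), fun l => ?_⟩,
    mul_left_cancel₀ hj₀ ?_, fun i hi => ?_⟩
  · rcases w with _ | l | p
    · exact h1
    · exact absurd ⟨l, rfl⟩ hw
    · obtain ⟨m, hm, h3, -⟩ := hR i e he
      rw [(hx i).1 m hm] at h3
      simpa [filter_apply, show IsA av (some (.inr p)) from ⟨p, rfl⟩, h2] using
        DFunLike.congr_fun h3 (some (.inr p))
  · choose! D hD using fun w hw => mem_bd.1 ((hx i).2 w hw)
    refine mem_bd.2 ⟨∑ w, D w, (hP1 i).mono fun γ ⟨_, e, he, h2⟩ => ?_⟩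
    obtain ⟨m, hm, -, h3⟩ := hR i e he
    have h4 := le_degree (tv l) (e.filter (IsA tv))
    rw [h3, filter_apply, if_pos ⟨l, rfl⟩, degree_eq_sum] at h4
    rw [h2 _ (by simp [tv])]
    refine h4.trans (Finset.sum_le_sum fun w _ => ?_)
    rw [filter_apply]
    split_ifs with hw
    · exact hD w (by simpa [IsA] using hw) m hm
    · exact Nat.zero_le _
  · rw [Finset.mul_sum, mul_zero, ← mul_zero (P j₀), ← h, Finset.mul_sum]
    exact Finset.sum_congr rfl fun i _ => by linear_combination Psi n (b i) * hP i j₀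
  · exact (mul_eq_zero.1 ((hP i j₀).trans (by rw [hi, mul_zero]))).resolve_right hj₀

end Pool.Agent.MP_66cee2_co.X.Seg
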