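import Pool.Agent.MP_66cee2_co.X.SegD

/-!
A vector that is orthogonal to enough formal spheres is rational.
-/

namespace Pool.Agent.MP_66cee2_co.X.Seg

open MvPowerSeries Finsupp
open scoped Classical

variable {σ τ ι I k : Type} [Field k] {d : ℕ}

theorem fin_desc {Ω : Type} [CommRing Ω] [IsDomain Ω] [Fintype ι] [Fintype I] (B : Subring Ω)
    (K : I → Set (ι → Ω)) (hK : ∀ i, ∀ x ∈ K i, ∀ a, x a ∈ B) (J : Finset ι) (ζ : ι → Ω)
    (hJ : ∀ a ∈ J, ζ a ∈ B) (h : ∀ i, ∃ β : Ω, β ≠ 0 ∧ β • ζ ∈ Submodule.span Ω (K i)) :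
    ∃ s ∈ B, s ≠ 0 ∧ ∃ x : ι → Ω, (∀ a, x a ∈ B) ∧ (∀ a ∈ J, x a = s * ζ a) ∧
      ∀ i, x ∈ Submodule.span Ω (K i) := by
  choose β hβ hβ' using h
  have h1 : ∀ i, (∏ j, β j) • ζ ∈ Submodule.span Ω (K i) := fun i => by
    rw [← Finset.mul_prod_erase _ _ (Finset.mem_univ i), mul_comm, mul_smul]
    exact Submodule.smul_mem _ _ (hβ' i)
  choose r f g hg using fun i => Submodule.mem_span_set'.1 (h1 i)
  let Φ : Option (ι ⊕ Σ i, Fin (r i)) → J ⊕ I × ι → Ω
    | none, .inl a => ζ a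
    | none, .inr _ => 0
    | .some (.inl a'), .inl a => if a' = a then -1 else 0
    | .some (.inl a'), .inr p => if a' = p.2 then -1 else 0
    | .some (.inr _), .inl _ => 0
    | .some (.inr q), .inr p => if q.1 = p.1 then (g q.1 q.2).1 p.2 else 0
  have k1 : ∀ (y : _ → Ω) (a : J), ∑ j, y j * Φ j (.inl a) = y none * ζ a - y (.some (.inl a)) :=
    fun y a => by simp [Φ, Fintype.sum_option, Fintype.sum_sum_type, sub_eq_add_neg]
  have k2 : ∀ (y : _ → Ω) i a, ∑ j, y j * Φ j (.inr (i, a)) =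
      (∑ j, y (.some (.inr ⟨i, j⟩)) • (g i j).1) a - y (.some (.inl a)) := fun y i a => by
    simp [Φ, Fintype.sum_option, Fintype.sum_sum_type, Fintype.sum_sigma, Finset.sum_ite_irrel,
      sub_eq_neg_add]
  obtain ⟨y, hy, hy1, hy0, -⟩ := descent0 B Φ (by
      rintro (_ | a' | q) (a | p) <;> simp only [Φ] <;> (try split_ifs) <;>
        first | exact zero_mem _ | exact neg_mem (one_mem _) | exact hJ _ a.2 |
          exact hK _ _ (g _ _).2 _)
    (fun j => match j with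
      | none => ∏ j, β j
      | .some (.inl a) => ((∏ j, β j) • ζ) a
      | .some (.inr q) => f q.1 q.2) (by
      rintro (a | ⟨i, a⟩)
      · rw [k1]; simp
      · rw [k2, hg, sub_self]) none (Finset.prod_ne_zero_iff.2 fun i _ => hβ i)
  refine ⟨y none, hy _, hy0, fun a => y (.some (.inl a)), fun _ => hy _, fun a ha =>
    (sub_eq_zero.1 ((k1 y ⟨a, ha⟩).symm.trans (hy1 _))).symm, fun i => ?_⟩
  rw [← funext fun a => sub_eq_zero.1 ((k2 y i a).symm.trans (hy1 _))]
  exact sum_mem fun j _ => Submodule.smul_mem _ _ (Submodule.subset_span (g i j).2)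

theorem uniq [Fintype ι] (Ψ : I → ι → MvPowerSeries σ k) (J : Finset ι)
    (h : ∀ ζ : ι → k, (∀ a ∈ J, ζ a = 0) → (∀ i, ∑ a, ζ a * constantCoeff (Ψ i a) = 0) → ζ = 0)
    (x : ι → MvPowerSeries σ k) (hJ : ∀ a ∈ J, x a = 0) (hx : ∀ i, ∑ a, x a * Ψ i a = 0) :
    x = 0 := by
  have : ∀ (e : σ →₀ ℕ) a, coeff e (x a) = 0 := fun e => by
    induction e using WellFoundedLT.induction with | _ e ih => ?_
    refine congrFun (h (fun a => coeff e (x a)) (fun a ha => by rw [hJ a ha, map_zero]) fun i => ?_)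
    have := congrArg (coeff e) (hx i)
    rw [map_sum, map_zero] at this
    rw [← this]
    refine Finset.sum_congr rfl fun a _ => ?_
    rw [coeff_mul, Finset.sum_eq_single (e, 0) (fun p hp hp' => ?_) (by simp)]
    · rfl
    rw [Finset.HasAntidiagonal.mem_antidiagonal] at hp
    rw [ih p.1 (lt_of_le_of_ne (hp ▸ le_self_add) fun e' => hp' (Prod.ext e' (by
      simpa [e'] using hp))), zero_mul]
  exact funext fun a => MvPowerSeries.ext fun e => this e a

/-- The polynomials in the variables of the centre. -/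
noncomputable def polyRing (k : Type) [Field k] (d : ℕ) : Subring (MvPowerSeries (V d) k) :=
  freeRing k NT ⊓ ⨅ l, bdRing k (tv l)

theorem span_poly [CharZero k] [Fintype ι] {n : Fin d → k} (hn : n ⬝ᵥ n = 1)
    {v nn κ : Fin d → Fin d → MvPowerSeries (V d) k} (hF : Frame n v nn κ)
    (b : ι → MvPowerSeries (Fin d) k) (ζ : ι → MvPowerSeries (V d) k)
    (hζ : ∀ i, ζ i ∈ freeRing k NT) (h : ∑ i, ζ i * Psi n (b i) = 0) :
    ∃ β : MvPowerSeries (V d) k, β ≠ 0 ∧ β • ζ ∈ Submodule.span (MvPowerSeries (V d) k)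
      {P : ι → MvPowerSeries (V d) k | (∀ i, P i ∈ polyRing k d) ∧ ∑ i, P i * Psi n (b i) = 0} := by
  induction hN : (Finset.univ.filter fun i => ζ i ≠ 0).card using Nat.strong_induction_on
    generalizing ζ with | _ N ih => ?_
  by_cases h0 : ζ = 0
  · exact ⟨1, one_ne_zero, by simp [h0]⟩
  obtain ⟨P, hP0, hP, hP1, hP2⟩ := circuit hn hF b ζ h0 hζ h
  obtain ⟨j, hj⟩ := Function.ne_iff.1 hP0
  obtain ⟨β, hβ, hβ'⟩ := ih _ (hN ▸ Finset.card_lt_card ⟨fun i hi => by
      simpa using mt (fun e : ζ i = 0 => by simp [e, hP2 i e]) (Finset.mem_filter.1 hi).2,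
      fun hs => (Finset.mem_filter.1 (hs (x := j) (by simpa using mt (hP2 j) hj))).2 (by
        simp [mul_comm])⟩) (P j • ζ - ζ j • P)
    (fun i => sub_mem (mul_mem (hP j).1 (hζ i)) (mul_mem (hζ j) (hP i).1)) (by
      simp only [Pi.sub_apply, Pi.smul_apply, smul_eq_mul, sub_mul, Finset.sum_sub_distrib,
        mul_assoc, ← Finset.mul_sum, h, hP1, mul_zero, sub_zero]) rfl
  refine ⟨β * P j, mul_ne_zero hβ hj, ?_⟩
  rw [show (β * P j) • ζ = β • (P j • ζ - ζ j • P) + (β * ζ j) • P by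
    rw [smul_sub, smul_smul, smul_smul, sub_add_cancel]]
  exact add_mem hβ' (Submodule.smul_mem _ _ (Submodule.subset_span
    ⟨fun i => ⟨(hP i).1, Subring.mem_iInf.2 (hP i).2⟩, hP1⟩))

theorem has_Psi {n : Fin d → k} (hn : n ⬝ᵥ n = 1) : HasSubst
    ((fun q => (X (tv q) - C (n q) : MvPowerSeries (V d) k)) + W av fun q => C (n q)) :=
  has_W (C_unit hn) (by simp)

theorem Psi_zero {n : Fin d → k} (hn : n ⬝ᵥ n = 1) (q : Fin d) : constantCoeff
    (((fun q => (X (tv q) - C (n q) : MvPowerSeries (V d) k)) + W av fun q => C (n q)) q) = 0 := by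
  simp [W_const (C_unit hn)]

theorem const_Psi {n : Fin d → k} (hn : n ⬝ᵥ n = 1) (b : MvPowerSeries (Fin d) k) :
    constantCoeff (Psi n b) = constantCoeff b := by
  have := constantCoeff_subst_eq_zero (has_Psi hn) (Psi_zero hn)
    (f := b - C (constantCoeff b)) (by simp)
  rwa [subst_sub (has_Psi hn), ← substAlgHom_apply (has_Psi hn) (C _), map_sub,
    show substAlgHom (has_Psi hn) (C _) = C _ from AlgHom.commutes _ _, constantCoeff_C,
    sub_eq_zero] at this

/-- The variables of the centre as an embedding. -/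
def te (d : ℕ) : Fin d ↪ V d := ⟨tv, tv_inj⟩

theorem rename_free (φ : MvPowerSeries (Fin d) k) : rename (te d) φ ∈ freeRing k NT :=
  free_of fun e he w hw => by
    obtain ⟨m, rfl⟩ := not_not.1 (mt (coeff_rename_eq_zero _ φ) he)
    exact mapDomain_of_notMem_range _ _ hw

theorem kill_ne {s : MvPowerSeries (V d) k} (hs : s ∈ freeRing k NT) (h0 : s ≠ 0) :
    killCompl (te d) s ≠ 0 := fun h => h0 (MvPowerSeries.ext fun e => by
  by_contra he
  obtain ⟨m, rfl⟩ : e ∈ Set.range (embDomain (te d)) := by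
    rw [mem_range_embDomain_iff]
    intro w hw
    by_contra hw'
    exact mem_support_iff.1 hw (Free.zero_at hs e he w hw')
  exact he (by rw [← coeff_killCompl, h]; rfl))

theorem kill_poly {s : MvPowerSeries (V d) k} (hs : s ∈ polyRing k d) :
    ∃ p : MvPolynomial (Fin d) k, killCompl (te d) s = p := by
  choose D hD using fun l => mem_bd.1 (Subring.mem_iInf.1 hs.2 l)
  refine ⟨trunc' k (equivFunOnFinite.symm D) (killCompl (te d) s), MvPowerSeries.ext fun m => ?_⟩
  rw [MvPolynomial.coeff_coe, coeff_trunc']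
  split_ifs with hm
  · rfl
  · by_contra h
    exact hm fun l => (embDomain_apply_self (te d) m l).ge.trans (hD l _ h)

theorem final [CharZero k] [Fintype ι] [Fintype I] {n : I → Fin d → k} (hn : ∀ i, n i ⬝ᵥ n i = 1)
    (hF : ∀ i, ∃ v nn κ, Frame (n i) v nn κ) (ψ : I → ι → MvPowerSeries (Fin d) k)
    (φ : ι → MvPowerSeries (Fin d) k) (J : Finset ι)
    (h : ∀ i, ∑ a, rename (te d) (φ a) * Psi (n i) (ψ i a) = 0) (hJ : ∀ a ∈ J, ∃ c, φ a = C c)
    (hu : ∀ ζ : ι → k, (∀ a ∈ J, ζ a = 0) → (∀ i, ∑ a, ζ a * constantCoeff (ψ i a) = 0) → ζ = 0) :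
    ∃ (q : MvPolynomial (Fin d) k) (p : ι → MvPolynomial (Fin d) k), q ≠ 0 ∧
      ∀ a, (q : MvPowerSeries (Fin d) k) * φ a = p a := by
  choose v nn κ hF using hF
  obtain ⟨s, hs, hs0, x, hx, hxJ, hx1⟩ := fin_desc (polyRing k d) _ (fun _ _ h => h.1) J
    (fun a => rename (te d) (φ a)) (fun a ha => by
      obtain ⟨c, hc⟩ := hJ a ha
      rw [hc, rename_C]
      exact ⟨C_free c, Subring.mem_iInf.2 fun l =>
        mem_bd.2 ⟨0, Supp.C (p := fun e => e (tv l) ≤ 0) le_rfl c⟩⟩)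
    fun i => span_poly (hn i) (hF i) (ψ i) _ (fun _ => rename_free _) (h i)
  have h1 : ∀ i, ∑ a, x a * Psi (n i) (ψ i a) = 0 := fun i =>
    Submodule.span_induction (p := fun x _ => ∑ a, x a * Psi (n i) (ψ i a) = 0) (fun _ h => h.2)
      (by simp) (fun x y _ _ h h' => by simp [add_mul, Finset.sum_add_distrib, h, h'])
      (fun c x _ h => by simp [mul_assoc, ← Finset.mul_sum, h]) (hx1 i)
  have h2 := uniq (fun i a => Psi (n i) (ψ i a)) J (by simpa only [const_Psi (hn _)] using hu)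
    (fun a => s * rename (te d) (φ a) - x a) (fun a ha => by rw [hxJ a ha, sub_self]) fun i => by
      simp [sub_mul, mul_assoc, ← Finset.mul_sum, h, h1]
  obtain ⟨q, hq⟩ := kill_poly hs
  choose p hp using fun a => kill_poly (hx a)
  refine ⟨q, p, fun e => kill_ne hs.1 hs0 (by simp [hq, e]), fun a => ?_⟩
  rw [← hq, ← hp, ← sub_eq_zero.1 (congrFun h2 a), map_mul, killCompl_rename_app]

end Pool.Agent.MP_66cee2_co.X.Seg
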