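import Pool.Agent.MP_66cee2_co.X.SegS

/-!
The orthogonality relation passes to Taylor polynomials.
-/

namespace Pool.Agent.MP_66cee2_co.X.Seg

open MeasureTheory Set Filter Metric Topology
open scoped ENNReal RealInnerProductSpace

variable {d : ℕ}

theorem op_refl {n a : E d} (hn : ‖n‖ = 1) (ha : ‖a‖ < 1) :
    ‖refl n a‖ = 1 ∧ ‖refl n a - n‖ ≤ 2 * ‖a‖ := by
  have hu : 0 < ‖n + a‖ := by
    have := norm_sub_le (n + a) a
    rw [add_sub_cancel_right] at this
    linarith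
  have ha' : ‖a‖ ^ 2 = ‖n + a‖ ^ 2 - 2 * ⟪n, n + a⟫ + 1 := by
    have := norm_sub_sq_real (n + a) n
    rwa [add_sub_cancel_left, hn, one_pow, real_inner_comm] at this
  unfold refl
  generalize n + a = u at hu ha'
  have hs : 0 < ‖u‖ ^ 2 := by positivity
  constructor
  · rw [← sq_eq_sq₀ (norm_nonneg _) zero_le_one, norm_sub_sq_real, norm_smul, mul_pow,
      Real.norm_eq_abs, sq_abs, real_inner_smul_left, real_inner_comm n u, hn]
    field_simp
    ring
  · rw [← sq_le_sq₀ (norm_nonneg _) (by positivity), sub_sub, ← two_smul ℝ n, norm_sub_sq_real,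
      norm_smul, mul_pow, Real.norm_eq_abs, sq_abs, real_inner_smul_left, real_inner_smul_right,
      real_inner_comm n u, norm_smul, hn, mul_pow, mul_pow, ha']
    have h1 : (2 * ⟪n, u⟫ / ‖u‖ ^ 2) ^ 2 * ‖u‖ ^ 2 - 2 * (2 * ⟪n, u⟫ / ‖u‖ ^ 2 * (2 * ⟪n, u⟫)) =
        -4 * (⟪n, u⟫ ^ 2 / ‖u‖ ^ 2) := by
      field_simp
      ring
    have h2 : 2 * ⟪n, u⟫ - ‖u‖ ^ 2 ≤ ⟪n, u⟫ ^ 2 / ‖u‖ ^ 2 := by
      rw [le_div_iff₀ hs]
      nlinarith [sq_nonneg (‖u‖ ^ 2 - ⟪n, u⟫)]
    rw [h1, Real.norm_ofNat]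
    linarith

theorem op_bdd {ι : Type} [Fintype ι] (T : ι → MvPolynomial (Fin d) ℝ) :
    ∃ M : ℝ, 0 ≤ M ∧ ∀ i (η : E d), ‖η‖ ≤ 3 → |ev (T i) η| ≤ M := by
  have h : ∀ i, ∃ M : ℝ, ∀ η ∈ closedBall (0 : E d) 3, ‖ev (T i) η‖ ≤ M := fun i =>
    (isCompact_closedBall _ _).exists_bound_of_continuousOn
      (((MvPolynomial.continuous_eval (T i)).comp (by fun_prop)).continuousOn)
  choose M hM using h
  refine ⟨∑ i, |M i|, Finset.sum_nonneg fun _ _ => abs_nonneg _, fun i η hη => ?_⟩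
  exact (hM i η (mem_closedBall_zero_iff.2 hη)).trans ((le_abs_self _).trans
    (Finset.single_le_sum (f := fun i => |M i|) (fun _ _ => abs_nonneg _) (Finset.mem_univ i)))

theorem op_tay {ι : Type} [Fintype ι] {f : ι → E d → ℝ} {T : ι → MvPolynomial (Fin d) ℝ} {k : ℕ}
    (h : ∀ i, Tay (f i) (T i) k) : ∃ C : ℝ, 0 ≤ C ∧
      Small fun τ => {η | ∃ i, C * τ ^ k < |f i η - ev (T i) η|} := by
  choose C hC using h
  refine ⟨∑ i, |C i|, Finset.sum_nonneg fun _ _ => abs_nonneg _, ?_⟩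
  have h1 := tendsto_finsetSum Finset.univ fun i _ => hC i
  rw [Finset.sum_const_zero] at h1
  refine tendsto_of_tendsto_of_tendsto_of_le_of_le' tendsto_const_nhds h1
    (Eventually.of_forall fun _ => zero_le) ?_
  filter_upwards [self_mem_nhdsWithin] with τ hτ
  have hτ' : 0 < τ := hτ
  simp only [div_eq_mul_inv, ← Finset.sum_mul]
  refine mul_le_mul_left (le_trans (measure_mono ?_) (measure_iUnion_fintype_le _ _)) _
  rintro η ⟨⟨i, hi⟩, hη⟩
  refine mem_iUnion.2 ⟨i, lt_of_le_of_lt ?_ hi, hη⟩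
  rw [Real.rpow_natCast]
  exact mul_le_mul_of_nonneg_right ((le_abs_self _).trans
    (Finset.single_le_sum (f := fun i => |C i|) (fun _ _ => abs_nonneg _) (Finset.mem_univ i)))
    (by positivity)

theorem op_small {A B : ℝ → Set (E d)} (hA : Small A) (hB : Small B) :
    ∀ᶠ τ in 𝓝[>] (0 : ℝ), 2 * (volume (A τ ∩ ball 0 τ) + volume (B (3 * τ) ∩ ball 0 (3 * τ))) ≤
      volume (ball (0 : E d) τ) := by
  have h3 : Tendsto (fun τ : ℝ => 3 * τ) (𝓝[>] 0) (𝓝[>] 0) := by
    refine tendsto_nhdsWithin_iff.2 ⟨?_, ?_⟩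
    · have : Tendsto (fun τ : ℝ => 3 * τ) (𝓝 0) (𝓝 (3 * 0)) := (continuous_const_mul 3).tendsto 0
      rw [mul_zero] at this
      exact this.mono_left nhdsWithin_le_nhds
    · filter_upwards [self_mem_nhdsWithin] with τ hτ
      exact mul_pos three_pos (show (0 : ℝ) < τ from hτ)
  have h1 := hA.add (ENNReal.Tendsto.const_mul
    (a := ENNReal.ofReal (3 ^ Module.finrank ℝ (E d))) (hB.comp h3) (Or.inr ENNReal.ofReal_ne_top))
  rw [mul_zero, add_zero] at h1
  filter_upwards [self_mem_nhdsWithin, h1.eventually (ge_mem_nhds (show (0 : ℝ≥0∞) < 2⁻¹ by simp))]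
    with τ hτ h
  have hτ' : 0 < τ := hτ
  have h2 := mul_le_mul_right (mul_le_mul_left h (volume (ball (0 : E d) τ))) 2
  rw [← mul_assoc 2 2⁻¹, ENNReal.mul_inv_cancel two_ne_zero ENNReal.ofNat_ne_top, one_mul,
    add_mul, ENNReal.div_mul_cancel (measure_ball_pos _ _ hτ').ne' measure_ball_lt_top.ne,
    mul_right_comm, ← Measure.addHaar_ball_mul_of_pos _ (0 : E d) three_pos, mul_comm (volume _),
    Function.comp_apply, ENNReal.div_mul_cancel (measure_ball_pos _ _ (by positivity)).ne'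
      measure_ball_lt_top.ne] at h2
  exact h2

theorem op_term {x t β s M C C' p q : ℝ} (h1 : |x - t| ≤ C * p) (h2 : |β - s| ≤ C' * (q * p))
    (h3 : |t| ≤ M) (h4 : |s| ≤ M) (hp1 : p ≤ 1) (hq : 0 ≤ C' * q) :
    |t * s - x * β| ≤ (M * (C' * q) + (M + C' * q) * C) * p := by
  have h5 : |β| ≤ M + C' * q := by
    have := abs_sub_abs_le_abs_sub β s
    nlinarith
  have h6 : t * s - x * β = -(t * (β - s) + β * (x - t)) := by ring
  rw [h6, abs_neg]
  refine (abs_add_le _ _).trans ?_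
  rw [abs_mul, abs_mul]
  have h7 := mul_le_mul h3 h2 (abs_nonneg _) ((abs_nonneg _).trans h3)
  have h8 := mul_le_mul h5 h1 (abs_nonneg _) ((abs_nonneg _).trans h5)
  linarith

theorem sOrthP (hP2 : SPoly2) : SOrthP := by
  intro d ι _ ξ b y n k D T S Q hall hn hT hS hQ m hm
  obtain ⟨M1, -, hM1⟩ := op_bdd T
  obtain ⟨M2, hM, hM2⟩ := op_bdd S
  obtain ⟨C1, hC1, s1⟩ := op_tay hT
  obtain ⟨C2, hC2, s2⟩ := op_tay hS
  obtain ⟨C, hC⟩ := hP2 d Q.totalDegree
  have hM' : 0 ≤ max M1 M2 := le_max_of_le_right hM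
  set K0 := max M1 M2 * (C2 * 3 ^ k) + (max M1 M2 + C2 * 3 ^ k) * C1
  set K := 4 ^ D * (Fintype.card ι * K0)
  have hK : 0 ≤ K := by positivity
  have hcont : Continuous (ev2 Q) := (MvPolynomial.continuous_eval Q).comp
    (continuous_pi fun i => by cases i <;> simp only [Sum.elim_inl, Sum.elim_inr] <;> fun_prop)
  have key : ∀ᶠ τ in 𝓝[>] (0 : ℝ), |Q.coeff m| ≤ C * K * τ ^ (k - m.degree) := by
    filter_upwards [Ioo_mem_nhdsGT one_pos, op_small s1 s2] with τ ⟨hτ, hτ1⟩ hsm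
    have hZ : MeasurableSet ({z | K * τ ^ k < |ev2 Q z|} ∩ ball (0 : E d × E d) τ) :=
      ((isOpen_lt continuous_const hcont.abs).inter isOpen_ball).measurableSet
    have h1 := hC Q τ (K * τ ^ k) le_rfl hτ (by positivity) (by
      rw [Measure.volume_eq_prod, Measure.prod_apply_symm hZ, ← Prod.mk_zero_zero,
        ← ball_prod_same, Measure.prod_prod, ← lintegral_const_mul' _ _ ENNReal.ofNat_ne_top,
        ← setLIntegral_const, ← lintegral_indicator measurableSet_ball]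
      refine lintegral_mono fun a => ?_
      by_cases ha : a ∈ ball (0 : E d) τ
      swap
      · rw [show (fun x => (x, a)) ⁻¹' ({z | K * τ ^ k < |ev2 Q z|} ∩ ball (0 : E d) τ ×ˢ
          ball (0 : E d) τ) = ∅ from eq_empty_of_forall_notMem fun η h => ha h.2.2]
        simp
      rw [indicator_of_mem ha]
      have ha' : ‖a‖ < τ := mem_ball_zero_iff.1 ha
      obtain ⟨r1, r2⟩ := op_refl hn (ha'.trans hτ1)
      refine le_trans (mul_le_mul_right ?_ _) hsm
      rw [← measure_preimage_add_right volume (refl n a - n) (_ ∩ ball 0 (3 * τ))]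
      refine le_trans (measure_mono_ae ?_) (measure_union_le _ _)
      filter_upwards [(measurePreserving_add_left volume y).quasiMeasurePreserving.ae
        (hall _ r1)] with η h0 hη
      obtain ⟨h2, h3, -⟩ := hη
      have h3' : ‖η‖ < τ := mem_ball_zero_iff.1 h3
      have h4 : ‖η + (refl n a - n)‖ < 3 * τ := by linarith [norm_add_le η (refl n a - n)]
      by_contra hc
      obtain ⟨c1, c2⟩ := not_or.1 hc
      have c1' : ∀ i, |ξ (y + η) i - ev (T i) η| ≤ C1 * τ ^ k := fun i =>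
        not_lt.1 fun h => c1 ⟨⟨i, h⟩, h3⟩
      have c2' : ∀ i, |b (y + n + (η + (refl n a - n))) i - ev (S i) (η + (refl n a - n))| ≤
          C2 * (3 * τ) ^ k := fun i => not_lt.1 fun h => c2 ⟨⟨i, h⟩, mem_ball_zero_iff.2 h4⟩
      have h5 : y + n + (η + (refl n a - n)) = y + η + refl n a := by abel
      have h6 : |∑ i, ev (T i) η * ev (S i) (η + refl n a - n)| ≤
          Fintype.card ι * (K0 * τ ^ k) := by
        rw [← sub_zero (∑ i, _), ← h0, dotProduct, ← Finset.sum_sub_distrib, add_sub_assoc]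
        refine (Finset.abs_sum_le_sum_abs _ _).trans ((Finset.sum_le_card_nsmul _ _ _
          fun i _ => ?_).trans_eq (nsmul_eq_mul _ _))
        refine op_term (c1' i) (by rw [← mul_pow, ← h5]; exact c2' i)
          ((hM1 i η (by linarith)).trans (le_max_left _ _))
          ((hM2 i _ (by linarith)).trans (le_max_right _ _))
          (pow_le_one₀ hτ.le hτ1.le) (by positivity)
      have h7 : (‖n + a‖ ^ 2) ^ D ≤ 4 ^ D := by
        refine pow_le_pow_left₀ (by positivity) ?_ D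
        nlinarith [norm_add_le n a, norm_nonneg (n + a)]
      have h8 : K * τ ^ k < |ev2 Q (η, a)| := h2
      rw [hQ η a (ha'.trans hτ1), abs_mul, abs_of_nonneg (by positivity)] at h8
      have h9 := mul_le_mul h7 h6 (abs_nonneg _) (by positivity)
      simp only [K] at h8
      linarith) m
    refine le_of_mul_le_mul_right (h1.trans_eq ?_) (pow_pos hτ m.degree)
    rw [mul_assoc (C * K), ← pow_add, Nat.sub_add_cancel hm.le, mul_assoc C]
  have h2 : Tendsto (fun τ : ℝ => C * K * τ ^ (k - m.degree)) (𝓝[>] 0) (𝓝 0) := by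
    have : Tendsto (fun τ : ℝ => C * K * τ ^ (k - m.degree)) (𝓝 0)
        (𝓝 (C * K * 0 ^ (k - m.degree))) := Continuous.tendsto (by fun_prop) 0
    rw [zero_pow (Nat.sub_ne_zero_of_lt hm), mul_zero] at this
    exact this.mono_left nhdsWithin_le_nhds
  exact abs_nonpos_iff.1 (ge_of_tendsto h2 key)

end Pool.Agent.MP_66cee2_co.X.Seg
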