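import Pool.Agent.MP_66cee2_co.X.SegS

/-!
Frames of isotropic directions.
-/

namespace Pool.Agent.MP_66cee2_co.X.Seg

open Matrix

namespace Fr

variable {R : Type} [CommRing R] {k : ℕ}

theorem comm {n : Type} [Fintype n] [DecidableEq n] [IsDomain R] {K W : Matrix n n R} {e : R}
    (he : e ≠ 0) (h : K * W = e • (1 : Matrix n n R)) : W * K = e • (1 : Matrix n n R) := by
  have h1 : K.det ≠ 0 := by
    have := congrArg det h
    rw [det_mul, det_smul, det_one, mul_one] at this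
    exact left_ne_zero_of_mul (this ▸ pow_ne_zero _ he)
  have h2 : K.det • (W * K) = K.det • (e • (1 : Matrix n n R)) := by
    calc K.det • (W * K) = K.adjugate * K * (W * K) := by rw [adjugate_mul, smul_mul, one_mul]
      _ = K.adjugate * (K * W * K) := by simp only [Matrix.mul_assoc]
      _ = _ := by rw [h, smul_mul, one_mul, Matrix.mul_smul, adjugate_mul, smul_comm]
  ext i j
  exact mul_left_cancel₀ h1 (congrFun (congrFun h2 i) j)

/-- Vectors with three distinguished entries. -/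
def vc {A : Type} (a b c : A) (f : Fin k → A) : Fin (k + 3) → A :=
  vecCons a (vecCons b (vecCons c f))

theorem vc_dot (a b c a' b' c' : R) (f f' : Fin k → R) :
    vc a b c f ⬝ᵥ vc a' b' c' f' = a * a' + (b * b' + (c * c' + f ⬝ᵥ f')) := by
  simp only [vc, cons_dotProduct_cons]

theorem cases {P : Fin (k + 3) → Prop} (h0 : P 0) (h1 : P (Fin.succ 0))
    (h2 : P (Fin.succ (Fin.succ 0))) (h3 : ∀ l : Fin k, P l.succ.succ.succ) : ∀ l, P l :=
  Fin.cases h0 (Fin.cases h1 (Fin.cases h2 h3))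

def mA (e I : R) : Matrix (Fin (k + 3)) (Fin (k + 3)) R :=
  of (vc (vc (2 * e) (1 - e ^ 2) (-I * (1 + e ^ 2)) 0) (vc 0 1 (-I) 0) (vc 0 1 I 0)
    fun l => vc 0 1 0 (Pi.single l I))

def mN (e I : R) : Matrix (Fin (k + 3)) (Fin (k + 3)) R :=
  of (vecCons (vc 1 (-e) (-e * I) 0) fun _ => vc 1 0 0 0)

def mB (e I h : R) : Matrix (Fin (k + 3)) (Fin (k + 3)) R :=
  of (vc (vc h 0 0 0) (vc (-h) (e * h) (e * h * I) fun _ => e * h * I)
    (vc (e ^ 2 * h) (e * h) (-e * h * I) fun _ => e * h * I)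
    fun l => vc 0 0 0 (Pi.single l (-e * I)))

variable {e I h : R}

theorem aa (hI : I * I = -1) : ∀ l : Fin (k + 3), mA e I l ⬝ᵥ mA e I l = 0 := by
  refine cases ?_ ?_ ?_ fun l => ?_
  · refine (vc_dot ..).trans ?_
    rw [zero_dotProduct]; linear_combination (1 + e ^ 2) ^ 2 * hI
  · refine (vc_dot ..).trans ?_
    rw [zero_dotProduct]; linear_combination hI
  · refine (vc_dot ..).trans ?_
    rw [zero_dotProduct]; linear_combination hI
  · refine (vc_dot ..).trans ?_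
    rw [single_dotProduct, Pi.single_eq_same]; linear_combination hI

theorem na (hI : I * I = -1) : ∀ l : Fin (k + 3), mN e I l ⬝ᵥ mA e I l = 0 := by
  refine cases ?_ ?_ ?_ fun l => ?_ <;> refine (vc_dot ..).trans ?_ <;> rw [zero_dotProduct]
  · linear_combination e * (1 + e ^ 2) * hI
  all_goals ring

theorem nn (hI : I * I = -1) : ∀ l : Fin (k + 3), mN e I l ⬝ᵥ mN e I l = 1 := by
  refine cases ?_ ?_ ?_ fun l => ?_ <;> refine (vc_dot ..).trans ?_ <;> rw [zero_dotProduct]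
  · linear_combination e ^ 2 * hI
  all_goals ring

theorem ba (hI : I * I = -1) (hh : 2 * h = 1) :
    mB e I h * (mA e I)ᵀ = e • (1 : Matrix (Fin (k + 3)) (Fin (k + 3)) R) := by
  ext l m
  show mB e I h l ⬝ᵥ mA e I m = e * (1 : Matrix (Fin (k + 3)) (Fin (k + 3)) R) l m
  rw [one_apply]
  revert l m
  refine cases ?_ ?_ ?_ fun l => ?_ <;> refine cases ?_ ?_ ?_ fun m => ?_ <;>
    refine (vc_dot ..).trans ?_ <;>
    simp only [Pi.zero_apply, dotProduct_zero, dotProduct_single, Fin.succ_inj,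
      Fin.succ_ne_zero, (Fin.succ_ne_zero _).symm, if_true, if_false, Pi.single_apply]
  · linear_combination e * hh
  · ring
  · ring
  · ring
  · linear_combination (-e * h * (1 + e ^ 2)) * hI
  · linear_combination (-e * h) * hI + e * hh
  · linear_combination (e * h) * hI
  · linear_combination (e * h) * hI
  · linear_combination (e * h * (1 + e ^ 2)) * hI
  · linear_combination (e * h) * hI
  · linear_combination (-e * h) * hI + e * hh
  · linear_combination (e * h) * hI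
  · ring
  · ring
  · ring
  · by_cases hlm : l = m
    · rw [if_pos hlm, if_pos hlm.symm]; linear_combination (-e) * hI
    · rw [if_neg hlm, if_neg (Ne.symm hlm)]; ring

theorem mn_map {S : Type} [CommRing S] (φ : R →+* S) (h0 : φ e = 0)
    (F : Matrix (Fin (k + 3)) (Fin (k + 3)) R) (l p : Fin (k + 3)) :
    φ ((mN e I * F : Matrix (Fin (k + 3)) (Fin (k + 3)) R) l p) = φ (F 0 p) := by
  revert l
  refine Fin.cases ?_ fun l => ?_ <;> simp [mN, vc, mul_apply, Fin.sum_univ_succ, h0]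

theorem dot_mul {n : Type} [Fintype n] [DecidableEq n] {F : Matrix n n R} (hF : F * Fᵀ = 1)
    (A B : Matrix n n R) (l m : n) : (A * F) l ⬝ᵥ (B * F) m = A l ⬝ᵥ B m := by
  show (A * F * (B * F)ᵀ) l m = (A * Bᵀ) l m
  rw [transpose_mul, Matrix.mul_assoc, ← Matrix.mul_assoc F, hF, Matrix.one_mul]

theorem abs [IsDomain R] (he : e ≠ 0) (hI : I * I = -1) (hh : 2 * h = 1)
    {F : Matrix (Fin (k + 3)) (Fin (k + 3)) R} (hF : F * Fᵀ = 1) :
    ∃ v n κ : Matrix (Fin (k + 3)) (Fin (k + 3)) R, (∀ l, v l ⬝ᵥ v l = 0) ∧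
      (∀ l, n l ⬝ᵥ v l = 0) ∧ (∀ l, n l ⬝ᵥ n l = 1) ∧
      (∀ φ : R →+* ℂ, φ e = 0 → ∀ l p, φ (n l p) = φ (F 0 p)) ∧
      vᵀ * κ = e • (1 : Matrix (Fin (k + 3)) (Fin (k + 3)) R) ∧
      κ * vᵀ = e • (1 : Matrix (Fin (k + 3)) (Fin (k + 3)) R) := by
  have kv : mB e I h * F * (mA e I * F)ᵀ = e • (1 : Matrix (Fin (k + 3)) (Fin (k + 3)) R) := by
    rw [transpose_mul, Matrix.mul_assoc, ← Matrix.mul_assoc F, hF, Matrix.one_mul, ba hI hh]
  exact ⟨mA e I * F, mN e I * F, mB e I h * F, fun l => (dot_mul hF _ _ l l).trans (aa hI l),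
    fun l => (dot_mul hF _ _ l l).trans (na hI l), fun l => (dot_mul hF _ _ l l).trans (nn hI l),
    fun φ h0 => mn_map φ h0 F, comm he kv, kv⟩

theorem exF (n : Fin (k + 3) → ℝ) (hn : n ⬝ᵥ n = 1) :
    ∃ F : Matrix (Fin (k + 3)) (Fin (k + 3)) ℝ, F * Fᵀ = 1 ∧ F 0 = n := by
  have h1 : ‖(WithLp.toLp 2 n : EuclideanSpace ℝ (Fin (k + 3)))‖ = 1 := by
    rw [EuclideanSpace.norm_eq, Real.sqrt_eq_one, ← hn]
    simp [dotProduct, sq]
  obtain ⟨b, hb⟩ := Orthonormal.exists_orthonormalBasis_extension_of_card_eq (𝕜 := ℝ)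
    (ι := Fin (k + 3)) (by simp)
    (v := fun _ => (WithLp.toLp 2 n : EuclideanSpace ℝ (Fin (k + 3)))) (s := {0})
    (orthonormal_subsingleton_iff.2 fun _ => h1)
  refine ⟨of fun l p => b l p, ?_, funext fun p => by simp [hb 0 rfl]⟩
  ext l m
  have := orthonormal_iff_ite.1 b.orthonormal l m
  rw [one_apply, ← this]
  simp [mul_apply, PiLp.inner_apply, mul_comm]

end Fr

open Fr MvPowerSeries in
theorem sFrame : SFrame := by
  intro d n hd hn
  obtain ⟨k, rfl⟩ := Nat.exists_eq_add_of_le' hd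
  obtain ⟨F₀, hF₀, hn0⟩ := exF n hn
  let B : Subring (MvPowerSeries (V (k + 3)) ℂ) :=
    suppRing ℂ (fun e => ∀ w, w ≠ none → e w = 0) (fun _ _ => rfl)
      fun a b ha hb w hw => by rw [Finsupp.add_apply, ha w hw, hb w hw]
  let c : ℂ →+* B := (C : ℂ →+* _).codRestrict B fun x => Supp.C (fun _ _ => rfl) x
  let e : B := ⟨X none, Supp.var fun w hw => Finsupp.single_eq_of_ne hw⟩
  have he : e ≠ 0 := fun h => by
    have := congrArg (fun x : B => coeff (Finsupp.single none 1) x.1) h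
    simp [e, coeff_index_single_self_X] at this
  have hI : c Complex.I * c Complex.I = -1 := by rw [← map_mul, Complex.I_mul_I, map_neg, map_one]
  have hh : 2 * c 2⁻¹ = 1 := by
    rw [← map_ofNat c 2, ← map_mul, mul_inv_cancel₀ two_ne_zero, map_one]
  let F := F₀.map (c.comp Complex.ofRealHom)
  have hF : F * Fᵀ = 1 := by
    rw [← transpose_map, ← Matrix.map_mul, hF₀, Matrix.map_one _ (map_zero _) (map_one _)]
  obtain ⟨v, nn, κ, h1, h2, h3, h4, h5, h6⟩ := abs he hI hh hF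
  have cv : ∀ (P Q : Matrix (Fin (k + 3)) (Fin (k + 3)) B), P * Q = e • 1 → ∀ l m,
      ∑ p, (P l p : MvPowerSeries (V (k + 3)) ℂ) * Q p m = if l = m then X none else 0 := by
    intro P Q h l m
    have := congrArg B.subtype (congrFun (congrFun h l) m)
    rw [mul_apply, map_sum, Matrix.smul_apply, one_apply] at this
    refine this.trans ?_
    split_ifs <;> simp [e]
  have dv : ∀ (u v : Fin (k + 3) → B), (fun p => (u p : MvPowerSeries (V (k + 3)) ℂ)) ⬝ᵥ
      (fun p => (v p : MvPowerSeries (V (k + 3)) ℂ)) = (u ⬝ᵥ v : B) := fun u v =>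
    (map_sum B.subtype (fun p => u p * v p) _).symm
  refine ⟨fun l p => v l p, fun l p => nn l p, fun l p => κ l p, fun l p => (v l p).2,
    fun l p => (nn l p).2, fun l p => (κ l p).2, fun l => ?_, fun l => ?_,
    fun l => ?_, fun l p => ?_, cv _ _ h5, cv _ _ h6⟩
  · rw [dv, h1]; rfl
  · rw [dv, h2]; rfl
  · rw [dv, h3]; rfl
  · refine (h4 ((constantCoeff : MvPowerSeries (V (k + 3)) ℂ →+* ℂ).comp B.subtype)
      (constantCoeff_X _) l p).trans ?_
    rw [← hn0]
    exact constantCoeff_C (σ := V (k + 3)) (F₀ 0 p : ℂ)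

end Pool.Agent.MP_66cee2_co.X.Seg
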