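import Pool.Agent.MP_66cee2_co.X.SpecJ
import Pool.Agent.MP_66cee2_co.X.SegD

/-!
Two statements used for the rationality of jets.
-/

namespace Pool.Agent.MP_66cee2_co.X.Seg

open scoped RealInnerProductSpace

/-- The reflection of `n` in the line through `n + a`. -/
noncomputable def refl {d : ℕ} (n a : E d) : E d :=
  (2 * ⟪n, n + a⟫ / ‖n + a‖ ^ 2) • (n + a) - n

/-- The orthogonality relation passes to Taylor polynomials. -/
def SOrthP : Prop :=
  ∀ (d : ℕ) (ι : Type) [Fintype ι] (ξ b : E d → ι → ℝ) (y n : E d) (k D : ℕ)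
    (T S : ι → MvPolynomial (Fin d) ℝ) (Q : MvPolynomial (Fin d ⊕ Fin d) ℝ),
    (AllPair fun y x => ξ y ⬝ᵥ b x = 0) → ‖n‖ = 1 →
    (∀ i, Tay (fun η => ξ (y + η) i) (T i) k) → (∀ i, Tay (fun η => b (y + n + η) i) (S i) k) →
    (∀ η a : E d, ‖a‖ < 1 → ev2 Q (η, a) =
      (‖n + a‖ ^ 2) ^ D * ∑ i, ev (T i) η * ev (S i) (η + refl n a - n)) →
    ∀ m : Fin d ⊕ Fin d →₀ ℕ, m.degree < k → Q.coeff m = 0

/-- Frames of isotropic directions exist over the complex numbers. -/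
def SFrame : Prop :=
  ∀ (d : ℕ) (n : Fin d → ℝ), 3 ≤ d → n ⬝ᵥ n = 1 →
    ∃ v nn κ : Fin d → Fin d → MvPowerSeries (V d) ℂ, Frame (fun q => (n q : ℂ)) v nn κ

end Pool.Agent.MP_66cee2_co.X.Seg
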