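import Pool.Agent.MP_66cee2_co.X.SegS
import Pool.Agent.MP_66cee2_co.X.SegE

/-!
The formal orthogonality relation and the rationality of jets.
-/

namespace Pool.Agent.MP_66cee2_co.X.Seg

open MvPowerSeries Finsupp
open scoped Classical RealInnerProductSpace

variable {σ τ ι : Type} {d : ℕ}

theorem homog (G : MvPolynomial τ ℝ) (z : τ → MvPolynomial σ ℝ) (N : MvPolynomial σ ℝ) :
    ∃ (D : ℕ) (Q : MvPolynomial σ ℝ), ∀ (R : Type) [CommRing R] [Algebra ℝ R]
      (F : MvPolynomial σ ℝ →ₐ[ℝ] R) (r : R), F N * r = 1 →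
        F Q = F N ^ D * MvPolynomial.aeval (fun p => F (z p) * r) G := by
  induction G using MvPolynomial.induction_on with
  | C c => exact ⟨0, .C c, fun R _ _ F r _ => by simp [← MvPolynomial.algebraMap_eq]⟩
  | add p q hp hq =>
    obtain ⟨D, Q, h⟩ := hp
    obtain ⟨D', Q', h'⟩ := hq
    refine ⟨D + D', Q * N ^ D' + Q' * N ^ D, fun R _ _ F r hr => ?_⟩
    simp only [map_add, map_mul, map_pow, h R F r hr, h' R F r hr]
    ring
  | mul_X p v hp =>
    obtain ⟨D, Q, h⟩ := hp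
    refine ⟨D + 1, Q * z v, fun R _ _ F r hr => ?_⟩
    simp only [map_mul, h R F r hr, MvPolynomial.aeval_X]
    linear_combination (-(F N ^ D * MvPolynomial.aeval (fun p => F (z p) * r) p * F (z v))) * hr

/-- Series of order at least `k`. -/
def Ord (k : ℕ) (φ : MvPowerSeries σ ℂ) : Prop := Supp (fun e => k ≤ degree e) φ

theorem Ord.mul {k : ℕ} {φ : MvPowerSeries σ ℂ} (h : Ord k φ) (ψ : MvPowerSeries σ ℂ) :
    Ord k (φ * ψ) := Supp.mul (q := fun _ => True) h (fun _ _ => trivial)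
  fun a b ha _ => by rw [map_add]; omega

/-- Complexification. -/
noncomputable abbrev cx (φ : MvPowerSeries σ ℝ) : MvPowerSeries σ ℂ := map (algebraMap ℝ ℂ) φ

theorem subst_cx {a : σ → MvPowerSeries τ ℂ} (ha : HasSubst a) (p : MvPolynomial σ ℝ) :
    subst a (cx (p : MvPowerSeries σ ℝ)) = MvPolynomial.aeval a p := by
  rw [← MvPolynomial.aeval_map_algebraMap ℂ, ← substAlgHom_coe ha, substAlgHom_apply]
  exact congrArg _ (MvPowerSeries.ext fun e => by simp [MvPolynomial.coeff_map])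

theorem ord_subst [Finite σ] {a : σ → MvPowerSeries τ ℂ} (ha : ∀ v, constantCoeff (a v) = 0) {k : ℕ}
    {φ : MvPowerSeries σ ℝ} (h : ∀ m, degree m < k → coeff m φ = 0) : Ord k (subst a (cx φ)) :=
  (supp_subst (hasSubst_of_constantCoeff_zero ha) (fun m e => degree m ≤ degree e) le_rfl
    (fun _ _ _ _ h h' => by rw [map_add, map_add]; omega) (fun v e he => by
      change _ ≤ _
      rw [degree_single, Nat.one_le_iff_ne_zero, Ne, degree_eq_zero_iff]
      rintro rfl
      exact he (ha v)) _).mono fun e ⟨m, hm, he⟩ =>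
    le_trans (not_lt.1 fun h' => hm (by simp [h m h'])) he

theorem orth (hO : SOrthP) [Fintype ι] {ξ b : E d → ι → ℝ} {y n : E d}
    {φ ψ : ι → MvPowerSeries (Fin d) ℝ} (h : AllPair fun y x => ξ y ⬝ᵥ b x = 0) (hn : ‖n‖ = 1)
    (hn' : (fun q => (n q : ℂ)) ⬝ᵥ (fun q => (n q : ℂ)) = 1)
    (hφ : ∀ a, Jet (fun η => ξ (y + η) a) (φ a)) (hψ : ∀ a, Jet (fun η => b (y + n + η) a) (ψ a)) :
    ∑ a, rename (te d) (cx (φ a)) * Psi (fun q => (n q : ℂ)) (cx (ψ a)) = 0 := by
  ext e
  by_contra he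
  let k := degree e + 1
  choose T hT hT' using fun a => hφ a k
  choose S hS hS' using fun a => hψ a k
  let u : Fin d → MvPolynomial (Fin d ⊕ Fin d) ℝ := fun p => .C (n p) + .X (.inr p)
  obtain ⟨D, Q, hQ⟩ := homog (∑ a, MvPolynomial.rename Sum.inl (T a) *
    MvPolynomial.rename Sum.inr (S a)) (Sum.elim (fun p => .X (.inl p) * (u ⬝ᵥ u)) fun p =>
      (.X (.inl p) - 2 * .C (n p)) * (u ⬝ᵥ u) + 2 * ((fun q => .C (n q)) ⬝ᵥ u) * u p) (u ⬝ᵥ u)
  have h1 := hO d ι ξ b y n k D T S Q h hn hT' hS' fun η a ha => by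
    have h0 : ‖n + a‖ ≠ 0 := norm_ne_zero_iff.2 fun e => by
      rw [eq_neg_of_add_eq_zero_right e, norm_neg] at ha
      exact ha.ne hn
    let F : MvPolynomial (Fin d ⊕ Fin d) ℝ →ₐ[ℝ] ℝ :=
      MvPolynomial.aeval (Sum.elim (fun i => η i) fun i => a i)
    have hu : ∀ p, F (u p) = (n + a) p := fun p => by simp [F, u]
    have hN : F (u ⬝ᵥ u) = ‖n + a‖ ^ 2 := by
      rw [EuclideanSpace.real_norm_sq_eq]
      simp only [dotProduct, map_sum, map_mul, hu, sq]
    have hN' : F ((fun q => .C (n q)) ⬝ᵥ u) = ⟪n, n + a⟫ := by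
      simp only [dotProduct, map_sum, map_mul, hu, PiLp.inner_apply]
      simp [F, mul_comm]
    have := hQ ℝ F (‖n + a‖ ^ 2)⁻¹ (by rw [hN, mul_inv_cancel₀ (pow_ne_zero _ h0)])
    rw [hN] at this
    refine this.trans ?_
    simp only [map_sum, map_mul, MvPolynomial.aeval_rename, ev, MvPolynomial.aeval_eq_eval]
    refine congrArg _ (Finset.sum_congr rfl fun i _ => ?_)
    congr 3 <;> funext p <;> simp only [Function.comp_apply, Sum.elim_inl, Sum.elim_inr, map_mul,
      map_add, map_sub, hN, hN', hu, map_ofNat] <;> simp [F, refl] <;> field_simp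
    ring
  let nC : Fin d → MvPowerSeries (V d) ℂ := fun q => C (n q : ℂ)
  let F : MvPolynomial (Fin d ⊕ Fin d) ℝ →ₐ[ℝ] MvPowerSeries (V d) ℂ :=
    MvPolynomial.aeval fun v => X (.some v)
  have hC : ∀ p, F (.C (n p)) = nC p := fun p => by
    rw [MvPolynomial.aeval_C, MvPowerSeries.algebraMap_apply]; rfl
  have hu : ∀ p, F (u p) = uu av nC p := fun p => by
    rw [map_add, hC, MvPolynomial.aeval_X]; rfl
  have hN : F (u ⬝ᵥ u) = uu av nC ⬝ᵥ uu av nC := by simp only [dotProduct, map_sum, map_mul, hu]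
  have hN' : F ((fun q => .C (n q)) ⬝ᵥ u) = nC ⬝ᵥ uu av nC := by
    simp only [dotProduct, map_sum, map_mul, hu, hC]
  have hi := uu_inv (α := av) (C_unit (σ := V d) hn')
  have ht : HasSubst (X ∘ te d : Fin d → MvPowerSeries (V d) ℂ) := HasSubst.X_comp _
  have h2 : F Q = (uu av nC ⬝ᵥ uu av nC) ^ D * ∑ a, rename (te d) (cx (T a : MvPowerSeries _ ℝ)) *
      Psi (fun q => (n q : ℂ)) (cx (S a : MvPowerSeries _ ℝ)) := by
    rw [hQ _ F _ (hN ▸ hi), hN]
    simp only [map_sum, map_mul, MvPolynomial.aeval_rename, Psi, rename_eq_subst, subst_cx ht,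
      subst_cx (has_Psi hn')]
    refine congrArg _ (Finset.sum_congr rfl fun i _ => ?_)
    have hX : ∀ p, F (.X (.inl p)) = X (tv p) := fun p => MvPolynomial.aeval_X _ _
    congr 3 <;> funext p <;> simp only [Function.comp_apply, Sum.elim_inl, Sum.elim_inr, map_mul,
      map_add, map_sub, hN, hN', hu, map_ofNat, hC, hX, Pi.add_apply, W]
    · exact (mul_assoc _ _ _).trans (by rw [hi, mul_one]; rfl)
    · linear_combination (X (tv p) - 2 * nC p) * hi
  have h3 : Ord k (F Q) := by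
    rw [← subst_cx (hasSubst_of_constantCoeff_zero (by simp))]
    exact ord_subst (by simp) fun m hm => h1 m hm
  have h4 : Ord k (∑ a, rename (te d) (cx (φ a)) * Psi (fun q => (n q : ℂ)) (cx (ψ a))) := by
    have : ∑ a, rename (te d) (cx (φ a)) * Psi (fun q => (n q : ℂ)) (cx (ψ a)) =
        F Q * (uu av nC ⬝ᵥ uu av nC)⁻¹ ^ D + ∑ a, (rename (te d) (cx (φ a - T a)) *
          Psi (fun q => (n q : ℂ)) (cx (ψ a)) + Psi (fun q => (n q : ℂ)) (cx (ψ a - S a)) *
            rename (te d) (cx (T a : MvPowerSeries _ ℝ))) := by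
      rw [h2, mul_right_comm, ← mul_pow, hi, one_pow, one_mul, ← Finset.sum_add_distrib]
      refine Finset.sum_congr rfl fun a _ => ?_
      simp only [map_sub, Psi, subst_sub (has_Psi hn')]
      ring
    rw [this]
    refine Supp.add (h3.mul _) (Supp.sum _ fun a _ => Supp.add (Ord.mul ?_ _) (Ord.mul ?_ _))
    · rw [rename_eq_subst]
      exact ord_subst (by simp) fun m hm => by simp [hT a m hm]
    · exact ord_subst (Psi_zero hn') fun m hm => by simp [hS a m hm]
  exact absurd (h4 e he) (by omega)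

theorem real_part {q : MvPolynomial σ ℂ} (hq : q ≠ 0) {p : ι → MvPolynomial σ ℂ}
    {φ : ι → MvPowerSeries σ ℝ} (h : ∀ a, (q : MvPowerSeries σ ℂ) * cx (φ a) = p a) :
    ∃ (q : MvPolynomial σ ℝ) (p : ι → MvPolynomial σ ℝ), q ≠ 0 ∧
      ∀ a, (q : MvPowerSeries σ ℝ) * φ a = p a := by
  obtain ⟨m, hm⟩ := MvPolynomial.exists_coeff_ne_zero hq
  obtain ⟨f, hf⟩ := Module.Projective.exists_dual_ne_zero ℝ hm
  have : ∀ p : MvPolynomial σ ℂ, ∃ p' : MvPolynomial σ ℝ, ∀ e, p'.coeff e = f (p.coeff e) :=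
    fun p => ⟨∑ m ∈ p.support, .monomial m (f (p.coeff m)), fun e => by
      simp only [MvPolynomial.coeff_sum, MvPolynomial.coeff_monomial, Finset.sum_ite_eq']
      split_ifs with he
      · rfl
      · rw [MvPolynomial.notMem_support_iff.1 he, map_zero]⟩
  choose g hg using this
  refine ⟨g q, fun a => g (p a), fun e => hf (by rw [← hg, e, MvPolynomial.coeff_zero]),
    fun a => MvPowerSeries.ext fun e => ?_⟩
  rw [MvPolynomial.coeff_coe, hg, ← MvPolynomial.coeff_coe, ← h, coeff_mul, coeff_mul, map_sum]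
  refine Finset.sum_congr rfl fun x _ => ?_
  rw [MvPolynomial.coeff_coe, hg, MvPolynomial.coeff_coe, coeff_map, mul_comm, ← smul_eq_mul,
    ← map_smul, Algebra.smul_def, mul_comm]

theorem sRatLoc_of (hO : SOrthP) (hF : SFrame) : SRatLoc := by
  intro d ι I _ _ ξ b y n J φ ψ hd _ _ h hn hφ hψ hJ hu
  have h1 : ∀ i, (fun q => n i q) ⬝ᵥ (fun q => n i q) = 1 := fun i => by
    simpa [hn, dotProduct, sq] using (EuclideanSpace.real_norm_sq_eq (n i)).symm
  have h2 : ∀ i, (fun q => (n i q : ℂ)) ⬝ᵥ (fun q => (n i q : ℂ)) = 1 := fun i => by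
    have := h1 i
    simp only [dotProduct] at this ⊢
    exact_mod_cast this
  obtain ⟨q, p, hq, hp⟩ := final h2 (fun i => hF d _ hd (h1 i)) (fun i a => cx (ψ i a))
    (fun a => cx (φ a)) J (fun i => orth hO (h i) (hn i) (h2 i) hφ (hψ i))
    (fun a ha => let ⟨c, hc⟩ := hJ a ha; ⟨c, by simp [hc]⟩) fun ζ hζ hζ' => funext fun a =>
      Complex.ext (congrFun (hu (fun a => (ζ a).re) (fun a ha => by simp [hζ a ha]) fun i => by
        simpa using congrArg Complex.re (hζ' i)) a)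
        (congrFun (hu (fun a => (ζ a).im) (fun a ha => by simp [hζ a ha]) fun i => by
          simpa using congrArg Complex.im (hζ' i)) a)
  exact real_part hq hp

end Pool.Agent.MP_66cee2_co.X.Seg
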