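import Pool.Agent.MP_66cee2_co.X.SegF
import Pool.Agent.MP_66cee2_co.X.SegG
import Pool.Agent.MP_66cee2_co.X.SegY

/-!
Rationality of the jet at one point.
-/

namespace Pool.Agent.MP_66cee2_co.X

theorem sRatLoc (hP2 : SPoly2) : SRatLoc := Seg.sRatLoc_of (Seg.sOrthP hP2) Seg.sFrame

end Pool.Agent.MP_66cee2_co.X
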