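import Pool.Agent.MP_66cee2_co.X.SpecR

/-
Part R, second list of statements: finer pieces of the rows `SHost`, `SChain`, `SPos`, `SLight`.
-/

namespace Pool.Agent.MP_66cee2_co.X

open MeasureTheory Set Filter Complex
open scoped ENNReal ComplexConjugate ComplexOrder

/-- the rotations used in the argument of Host. -/
def SHostA : Prop :=
  ∀ (p z : kk) (m : ℕ), IsP p → z ≠ 0 →
    ∃ (l : Fin (5 ^ m) → kk) (n : Fin (5 ^ m) → ℤ), (∀ s, ‖(l s : ℂ)‖ = 1) ∧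
      (∀ s, l s * z - (n s : kk) * p⁻¹ ^ (m + 1) ∈ Zp p) ∧
      ∀ s s', (5 : ℤ) ^ (m + 1) ∣ n s - n s' → s = s'

/-- the inequality of Bessel on a coset of the `N`-torsion of the circle. -/
def SHostB : Prop :=
  ∀ (N : ℕ) (ι : Type) [Fintype ι] (n : ι → ℤ) (α : ι → ℂ) (b : T) (S : Finset T), 0 < N →
    (∀ s s', (N : ℤ) ∣ n s - n s' → s = s') → (∀ s, ‖α s‖ ≤ 1) → (∀ t ∈ S, N • t = b) →
    ∑ t ∈ S, ‖∑ s, α s * ch (n s • t)‖ ^ 2 ≤ (N : ℝ) * Fintype.card ι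

open Classical in
/-- the number of itineraries with few failures. -/
def SCnt : Prop :=
  ∀ (m L B : ℕ) (r : ℝ), 0 < B →
    (((Finset.univ : Finset (Fin m → Fin L ⊕ Fin B)).filter fun c =>
      (((Finset.univ.filter fun t => (c t).isRight).card : ℕ) : ℝ) ≤ r).card : ℝ) ≤
      ((L : ℝ) + 1) ^ m * (B : ℝ) ^ r

/-- the covering property of a set of typical points. -/
def Pig (G : Set (kk → T)) (h : ℕ) (C₀ δ : ℝ) : Prop :=
  ∀ (m : ℕ) (S : Finset ℕ) (x : ℕ → kk → T),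
    (∀ j ∈ S, IsChar (x j) ∧ x j ∈ G) → C₀ * Real.exp (δ * (h * m)) < S.card →
    ∃ j ∈ S, ∃ j' ∈ S, j ≠ j' ∧ ∃ w : ℂ, ‖w‖ ≤ 1 ∧ Triv (x j - x j') w (1 / 5 ^ (h * m))

open Classical in
/-- the deterministic part of the mass transport: start, sending side, receiving side. -/
def SDet : Prop :=
  ∀ (G : Set (kk → T)) (h : ℕ) (C₀ : ℝ), 0 < h → Pig G h C₀ (1 / 100) →
    ∃ (M k₀ H₀ : ℕ) (H : ℕ → ℕ), 0 < H₀ ∧ (∀ k, 0 < H k) ∧
      (∀ x, IsChar x →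
        H₀ < 2 * ((Finset.Icc 1 H₀).filter fun j => act (lam j) x ∈ G).card → x ∈ Qs M k₀) ∧
      (∀ k, k₀ ≤ k → ∀ x ∈ Qs M k \ Qs M (k + 1),
        2 * ((Finset.Icc 1 (H k)).filter fun j => act (lam j) x ∈ G).card ≤ H k) ∧
      ∀ (x'' : kk → T) (n : ℕ), ∑ k ∈ Finset.Ico k₀ n,
        (((Finset.Icc 1 (H k)).filter fun j =>
          ∃ x ∈ Qs M k \ Qs M (k + 1), x'' = act (lam j) x).card : ℝ) / H k ≤ 2

/-- characters in `X0` of level at most `e` at the rational prime `q`. -/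
def Lev (q : ℕ) (e : ℤ) : Set (kk → T) :=
  {x | ∃ (y : ℂ) (d₀ d : ℕ), 0 < d₀ ∧ d.Coprime q ∧ (∀ m : ℕ, Triv x y ((d₀ : kk) / 5 ^ m)) ∧
    Triv x y ((d : kk) * (q : kk) ^ e)}

/-- the maximum principle for the levels along the powers of a rotation. -/
def SLevA : Prop :=
  ∀ (q : ℕ) (l : KK) (x : KK → T) (e : ℤ) (a c : ℕ), q.Prime → l ≠ 0 → l + l⁻¹ = (q : KK)⁻¹ →
    IsChar x → 0 < a → a < c → res x ∈ Lev q e → res (act (l ^ c) x) ∈ Lev q e →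
    res (act (l ^ a) x) ∈ Lev q (e - 1)

/-- measurability of the levels, and characters of level minus infinity at all primes. -/
def SLevB : Prop :=
  (∀ q e, MeasurableSet (Lev q e)) ∧ (∀ q : ℕ, q.Prime → ∀ x ∈ X0, ∃ e, x ∈ Lev q e) ∧
    ∀ x, IsChar x → (∀ q : ℕ, q.Prime → ∀ e, x ∈ Lev q e) → x ∈ Xc

end Pool.Agent.MP_66cee2_co.X
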